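import Pool.Agent.Work.MP_bf98aa_gt.Mf.Euc

/-!
Behaviour of the algebraic objects under congruence of matrices.

PLAN. dens_congr: det (Jᵀ A J) = det J ^ 2 * det A, Real.log_mul, Real.log_pow, Real.exp_log_eq_abs.
Fm_congr: Matrix.mul_inv_rev, transpose_nonsing_inv. ip A B = trace (Aᵀ * B); trace_mul_comm, nonsing_inv_mul.
vec_congr: dotProduct_mulVec, vecMul_transpose, mulVec_mulVec. Fm_skew: transpose_nonsing_inv, and the inverse of -A is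
-A⁻¹ (inv_eq_right_inv). PinG.pinM: as PinchedTo.pull in ../Change.lean. abs_det_le: Matrix.det_le with abs_le_fr.
GM_congr_le: fr_congr_le for b and for A - b, unfold GM G, gcongr. GM_transfer: G_transfer in ../Point2.lean.
det_ne_zero_of_nearG: g = Bᵀ B, a1 = B⁻¹ᵀ a B⁻¹ is PinM 1 m, so m |v|^2 ≤ |a1 v|^2 and fr a1 ^ 2 ≤ 2 N m (pin_norm). If det A = 0 then
A1 = B⁻¹ᵀ A B⁻¹ kills some v ≠ 0 (exists_mulVec_eq_zero_iff), |a1 v|^2 = |(A1 - a1) v|^2 ≤ fr (A1 - a1)^2 |v|^2 (mulVec_sq_le),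
fr (A1 - a1) ≤ Λ^2 c fr a ≤ Λ^4 c fr a1 (fr_congr_le twice); c = 1 / ((2 N + 1) (Λ^4 + 1)).
-/

set_option autoImplicit false
set_option linter.unusedSectionVars false

open MeasureTheory Metric Matrix
open scoped ContDiff RealInnerProductSpace

namespace Pool.Agent.Work.MP_bf98aa_gt.Mf

variable {ι : Type} [Fintype ι] [DecidableEq ι]

lemma Alg1_ip (A B : Matrix ι ι ℝ) : ip A B = (Aᵀ * B).trace := by
  unfold ip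
  rw [Finset.sum_comm]
  rfl

lemma Alg1_dot (v : ι → ℝ) : 0 ≤ v ⬝ᵥ v := Finset.sum_nonneg fun i _ => mul_self_nonneg (v i)

lemma Alg1_GM (k : ℕ) (b A : Matrix ι ι ℝ) :
    GM k b A = (fr b ^ k + fr (A - b) ^ k) * fr (A - b) ^ 2 := rfl

lemma dens_congr {J A : Matrix ι ι ℝ} (hJ : J.det ≠ 0) (hA : A.det ≠ 0) :
    dens (Jᵀ * A * J) = |J.det| * dens A := by
  unfold dens
  rw [det_mul, det_mul, det_transpose, Real.log_mul (mul_ne_zero hJ hA) hJ, Real.log_mul hJ hA,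
    ← Real.exp_log_eq_abs hJ, ← Real.exp_add]
  congr 1
  ring

lemma Fm_congr (k : ℕ) {J A : Matrix ι ι ℝ} (hJ : J.det ≠ 0) (hA : A.det ≠ 0) :
    Fm k (Jᵀ * A * J) = |J.det| • (J⁻¹ * Fm k A * J⁻¹ᵀ) := by
  unfold Fm
  rw [dens_congr hJ hA, Matrix.mul_inv_rev, Matrix.mul_inv_rev, ← transpose_nonsing_inv,
    Matrix.mul_smul, Matrix.smul_mul, smul_smul, Matrix.mul_assoc]
  congr 1
  ring

lemma ip_congr {J : Matrix ι ι ℝ} (hJ : J.det ≠ 0) (X Y : Matrix ι ι ℝ) :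
    ip (J⁻¹ * X * J⁻¹ᵀ) (Jᵀ * Y * J) = ip X Y := by
  have h1 : J * J⁻¹ = 1 := mul_nonsing_inv J (Ne.isUnit hJ)
  have h2 : J⁻¹ᵀ * Jᵀ = 1 := by rw [← transpose_mul, h1, transpose_one]
  rw [Alg1_ip, Alg1_ip, transpose_mul, transpose_mul, transpose_transpose]
  calc (J⁻¹ * (Xᵀ * J⁻¹ᵀ) * (Jᵀ * Y * J)).trace
      = (J⁻¹ * (Xᵀ * (J⁻¹ᵀ * Jᵀ) * Y * J)).trace := by simp only [Matrix.mul_assoc]
    _ = (Xᵀ * Y * (J * J⁻¹)).trace := by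
        rw [h2, Matrix.mul_one, trace_mul_comm, Matrix.mul_assoc]
    _ = _ := by rw [h1, Matrix.mul_one]

lemma vec_congr {J : Matrix ι ι ℝ} (hJ : J.det ≠ 0) (X : Matrix ι ι ℝ) (u v : ι → ℝ) :
    (Jᵀ *ᵥ u) ⬝ᵥ (J⁻¹ * X * J⁻¹ᵀ) *ᵥ (Jᵀ *ᵥ v) = u ⬝ᵥ X *ᵥ v := by
  have h1 : J * J⁻¹ = 1 := mul_nonsing_inv J (Ne.isUnit hJ)
  have h2 : J⁻¹ᵀ * Jᵀ = 1 := by rw [← transpose_mul, h1, transpose_one]
  rw [mulVec_transpose J u, ← dotProduct_mulVec, mulVec_mulVec, mulVec_mulVec]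
  have h3 : J * (J⁻¹ * X * J⁻¹ᵀ) * Jᵀ = J * J⁻¹ * X * (J⁻¹ᵀ * Jᵀ) := by
    simp only [Matrix.mul_assoc]
  rw [h3, h1, h2, Matrix.one_mul, Matrix.mul_one]

lemma Fm_skew (k : ℕ) {A : Matrix ι ι ℝ} (hk : Aᵀ = -A) (hA : A.det ≠ 0) :
    (Fm k A)ᵀ = -Fm k A := by
  have h1 : A * A⁻¹ = 1 := mul_nonsing_inv A (Ne.isUnit hA)
  have h2 : (-A)⁻¹ = -A⁻¹ := inv_eq_right_inv (by rw [neg_mul_neg, h1])
  unfold Fm
  rw [transpose_smul, transpose_nonsing_inv, hk, h2, smul_neg]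

lemma PinG.pinM {B A : Matrix ι ι ℝ} (hB : B.det ≠ 0) {e m : ℝ} (h : PinG (Bᵀ * B) e m A) :
    PinM e m (B⁻¹ᵀ * A * B⁻¹) := by
  intro v
  have hb : B * B⁻¹ = 1 := mul_nonsing_inv B (Ne.isUnit hB)
  have h1 : (B⁻¹ *ᵥ v) ⬝ᵥ (Bᵀ * B) *ᵥ (B⁻¹ *ᵥ v) = v ⬝ᵥ v := by
    rw [← mulVec_mulVec, dotProduct_mulVec, vecMul_transpose, mulVec_mulVec, hb, one_mulVec]
  have h2 : ∀ u : ι → ℝ, u ⬝ᵥ (Bᵀ * B)⁻¹ *ᵥ u = (B⁻¹ᵀ *ᵥ u) ⬝ᵥ (B⁻¹ᵀ *ᵥ u) := by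
    intro u
    rw [Matrix.mul_inv_rev, ← mulVec_mulVec, dotProduct_mulVec, ← mulVec_transpose,
      transpose_nonsing_inv]
  have h3 := h (B⁻¹ *ᵥ v)
  rw [h1, h2] at h3
  simpa only [mulVec_mulVec, Matrix.mul_assoc] using h3

lemma Bd.nonneg {Λ : ℝ} {g : Matrix ι ι ℝ} (h : Bd Λ g) (v : ι → ℝ) : 0 ≤ v ⬝ᵥ g *ᵥ v := by
  obtain ⟨B, -, rfl, -, -⟩ := h
  rw [← ApproxA_dot]
  exact Alg1_dot _

lemma abs_det_le {Λ : ℝ} {B : Matrix ι ι ℝ} (h : fr B ≤ Λ) :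
    |B.det| ≤ (Fintype.card ι).factorial * Λ ^ Fintype.card ι := by
  have := Matrix.det_le (abv := AbsoluteValue.abs) (A := B) (x := Λ)
    fun i j => (abs_le_fr B i j).trans h
  rwa [nsmul_eq_mul] at this

lemma inv_le_abs_det {Λ : ℝ} {B : Matrix ι ι ℝ} (hB : B.det ≠ 0) (h : fr B⁻¹ ≤ Λ) :
    1 ≤ (Fintype.card ι).factorial * Λ ^ Fintype.card ι * |B.det| := by
  have h1 := det_nonsing_inv_mul_det B (Ne.isUnit hB)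
  have h2 : |B⁻¹.det| * |B.det| = 1 := by rw [← abs_mul, h1, abs_one]
  rw [← h2]
  exact mul_le_mul_of_nonneg_right (abs_det_le h) (abs_nonneg _)

lemma GM_congr_le (k : ℕ) {Λ : ℝ} {C : Matrix ι ι ℝ} (h : fr C ≤ Λ) (b A : Matrix ι ι ℝ) :
    GM k (Cᵀ * b * C) (Cᵀ * A * C) ≤ Λ ^ (2 * (k + 2)) * GM k b A := by
  have h0 := fr_nonneg C
  have hΛ : 0 ≤ Λ := h0.trans h
  have k1 : ∀ X : Matrix ι ι ℝ, fr (Cᵀ * X * C) ≤ Λ ^ 2 * fr X := fun X =>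
    (fr_congr_le C X).trans
      (mul_le_mul_of_nonneg_right (pow_le_pow_left₀ h0 h 2) (fr_nonneg X))
  have e : Cᵀ * A * C - Cᵀ * b * C = Cᵀ * (A - b) * C := by
    rw [Matrix.mul_sub, Matrix.sub_mul]
  have a1 := k1 b
  have a2 := k1 (A - b)
  have n1 := fr_nonneg (Cᵀ * b * C)
  have n2 := fr_nonneg (Cᵀ * (A - b) * C)
  have n3 := fr_nonneg b
  have n4 := fr_nonneg (A - b)
  rw [Alg1_GM, Alg1_GM, e]
  calc _ ≤ ((Λ ^ 2 * fr b) ^ k + (Λ ^ 2 * fr (A - b)) ^ k) * (Λ ^ 2 * fr (A - b)) ^ 2 := by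
        gcongr
    _ = _ := by rw [pow_mul, pow_add, mul_pow, mul_pow, mul_pow]; ring

lemma GM_transfer (k : ℕ) : ∃ C : ℝ, 0 < C ∧ ∀ a b x : Matrix ι ι ℝ,
    GM k a x ≤ C * (GM k b x + GM k b a) := by
  obtain ⟨C, hC, h⟩ := G_transfer (E := W ι) k
  exact ⟨C, hC, fun a b x => (h (toW a) (toW b) (toW x)).1⟩

lemma det_ne_zero_of_nearG (Λ : ℝ) : ∃ c : ℝ, 0 < c ∧ ∀ (g a A : Matrix ι ι ℝ) (m : ℝ), Bd Λ g →
    0 < m → PinG g 1 m a → fr (A - a) ≤ c * fr a → A.det ≠ 0 := by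
  obtain ⟨N, hN⟩ : ∃ N : ℝ, N = Fintype.card ι := ⟨_, rfl⟩
  have N0 : 0 ≤ N := hN ▸ Nat.cast_nonneg _
  have L0 : 0 ≤ Λ ^ 4 := by positivity
  refine ⟨1 / ((2 * N + 1) * (Λ ^ 4 + 1)), by positivity, ?_⟩
  rintro g a A m ⟨B, hB, rfl, b1, b2⟩ hm hp hA h0
  obtain ⟨c, hc⟩ : ∃ c : ℝ, c = 1 / ((2 * N + 1) * (Λ ^ 4 + 1)) := ⟨_, rfl⟩
  rw [← hc] at hA
  have c0 : 0 < c := by rw [hc]; positivity
  have c1 : (2 * N + 1) * (Λ ^ 4 * c) ≤ 1 := by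
    have : (2 * N + 1) * (Λ ^ 4 + 1) * c = 1 := by rw [hc]; field_simp
    nlinarith [mul_nonneg N0 c0.le]
  have hb : B⁻¹ * B = 1 := nonsing_inv_mul B (Ne.isUnit hB)
  have hb' : Bᵀ * B⁻¹ᵀ = 1 := by rw [← transpose_mul, hb, transpose_one]
  have p1 := hp.pinM hB
  have p2 : fr (B⁻¹ᵀ * a * B⁻¹) ^ 2 ≤ N * ((1 + 1) * m) := hN ▸ (pin_norm p1).2
  have k1 : ∀ {C : Matrix ι ι ℝ}, fr C ≤ Λ → ∀ X : Matrix ι ι ℝ,
      fr (Cᵀ * X * C) ≤ Λ ^ 2 * fr X := fun {C} h X => (fr_congr_le C X).trans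
    (mul_le_mul_of_nonneg_right (pow_le_pow_left₀ (fr_nonneg C) h 2) (fr_nonneg X))
  have e1 : Bᵀ * (B⁻¹ᵀ * a * B⁻¹) * B = a := by
    calc _ = Bᵀ * B⁻¹ᵀ * a * (B⁻¹ * B) := by simp only [Matrix.mul_assoc]
      _ = a := by rw [hb, hb', Matrix.one_mul, Matrix.mul_one]
  have q1 := k1 b1 (B⁻¹ᵀ * a * B⁻¹)
  rw [e1] at q1
  have q2 := k1 b2 (A - a)
  have q3 : fr (B⁻¹ᵀ * (A - a) * B⁻¹) ≤ Λ ^ 4 * c * fr (B⁻¹ᵀ * a * B⁻¹) := by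
    calc _ ≤ Λ ^ 2 * (c * (Λ ^ 2 * fr (B⁻¹ᵀ * a * B⁻¹))) :=
          q2.trans (mul_le_mul_of_nonneg_left
            (hA.trans (mul_le_mul_of_nonneg_left q1 c0.le)) (sq_nonneg Λ))
      _ = _ := by ring
  obtain ⟨u, u0, hu⟩ := exists_mulVec_eq_zero_iff.2 h0
  have v1 : B⁻¹ *ᵥ (B *ᵥ u) = u := by rw [mulVec_mulVec, hb, one_mulVec]
  have v0 : B *ᵥ u ≠ 0 := fun e => u0 (by rw [← v1, e, mulVec_zero])
  have v2 : (B⁻¹ᵀ * (A - a) * B⁻¹) *ᵥ (B *ᵥ u) = -((B⁻¹ᵀ * a * B⁻¹) *ᵥ (B *ᵥ u)) := by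
    simp only [← mulVec_mulVec, v1, sub_mulVec, hu, zero_sub, mulVec_neg]
  have v3 : 0 < (B *ᵥ u) ⬝ᵥ (B *ᵥ u) :=
    lt_of_le_of_ne (Alg1_dot _) fun e => v0 (dotProduct_self_eq_zero.1 e.symm)
  have r1 := mulVec_sq_le (B⁻¹ᵀ * (A - a) * B⁻¹) (B *ᵥ u)
  rw [v2, neg_dotProduct_neg] at r1
  have r2 := le_of_mul_le_mul_right ((p1 (B *ᵥ u)).1.trans r1) v3
  have r3 := pow_le_pow_left₀ (fr_nonneg _) q3 2
  obtain ⟨t, ht⟩ : ∃ t, t = Λ ^ 4 * c := ⟨_, rfl⟩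
  rw [← ht] at c1 r3
  have t0 : 0 ≤ t := by rw [ht]; positivity
  rw [mul_pow] at r3
  have r4 := r2.trans (r3.trans (mul_le_mul_of_nonneg_left p2 (sq_nonneg t)))
  have r5 : 1 ≤ t ^ 2 * (N * 2) := le_of_mul_le_mul_right (by linarith) hm
  have t1 : t ≤ 1 := by nlinarith [mul_nonneg N0 t0]
  have t2 : t * ((2 * N + 1) * t) ≤ t * 1 := mul_le_mul_of_nonneg_left c1 t0
  have t3 : 0 < t := by
    rcases t0.eq_or_lt with e | e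
    · rw [← e] at r5
      norm_num at r5
    · exact e
  nlinarith [mul_pos t3 t3]

end Pool.Agent.Work.MP_bf98aa_gt.Mf
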