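import Pool.Agent.Work.MP_bf98aa_gt.Mf.Alg1

/-!
Stability of the pinching under a change of the metric, uniform factorisations, coercivity.

PLAN. cs_posDef: g = Bᵀ B (exists_factor in ../Change.lean), ξ ⬝ u = (B⁻¹ᵀ ξ) ⬝ (B u), Finset.sum_mul_sq_le_sq_mul_sq.
inv_form_le: u = g2⁻¹ ξ, T = ξ ⬝ u = u ⬝ g2 u ≥ 0, T^2 ≤ (ξ g1⁻¹ ξ) (u g1 u) ≤ (ξ g1⁻¹ ξ) κ T.
pinG_stable: g = Bᵀ B is PosDef, E = B⁻¹ᵀ (g' - g) B⁻¹ has fr E ≤ η (fr_congr_le), |x ⬝ E x| ≤ η x ⬝ x (mulVec_sq_le and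
Cauchy-Schwarz), so (1 - η) v g v ≤ v g' v ≤ (1 + η) v g v; inv_form_le in both directions;
(1 + η)^2 (1 + e) ≤ (1 + e + 32 η) (1 - η)^2. bd_of_compact: for g = Bᵀ B, fr B ^ 2 = trace g and fr B⁻¹ ^ 2 = trace g⁻¹ (fr_sq);
both traces are continuous on K (Piola_inv_apply, Continuous.matrix_det, Continuous.matrix_adjugate), hence bounded.
coercive_G: A1 = B⁻¹ᵀ A B⁻¹, A = Bᵀ A1 B, the same for A0; ip (Fm A - Fm A0) (A - A0) = |det B| ip (Fm A1 - Fm A01) (A1 - A01)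
(Fm_congr, ip_congr; determinants are nonzero by pin_det); approx (../ApproxB.lean) with e and with 0 (there
toW (Fm A01) = ‖toW A01‖ ^ k • toW A01), coercive (../Point1.lean), ip_eq_inner, GM_congr_le, abs_det_le, inv_le_abs_det.
-/

set_option autoImplicit false
set_option linter.unusedSectionVars false

open MeasureTheory Metric Matrix
open scoped ContDiff RealInnerProductSpace

namespace Pool.Agent.Work.MP_bf98aa_gt.Mf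

variable {ι : Type} [Fintype ι] [DecidableEq ι]

lemma Alg2_inv {B : Matrix ι ι ℝ} : (Bᵀ * B)⁻¹ = B⁻¹ᵀᵀ * B⁻¹ᵀ := by
  rw [Matrix.mul_inv_rev, transpose_transpose, transpose_nonsing_inv]

lemma Alg2_cs (x y : ι → ℝ) : (x ⬝ᵥ y) ^ 2 ≤ (x ⬝ᵥ x) * (y ⬝ᵥ y) := by
  simpa only [dotProduct, pow_two] using Finset.sum_mul_sq_le_sq_mul_sq Finset.univ x y

lemma Alg2_nonneg {g : Matrix ι ι ℝ} (hg : g.PosDef) (u : ι → ℝ) : 0 ≤ u ⬝ᵥ g *ᵥ u := by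
  simpa using hg.posSemidef.dotProduct_mulVec_nonneg u

lemma Alg2_posDef {B : Matrix ι ι ℝ} (hB : B.det ≠ 0) : (Bᵀ * B).PosDef := by
  have h := Matrix.PosDef.conjTranspose_mul_self B
    (Matrix.mulVec_injective_iff_isUnit.2 ((Matrix.isUnit_iff_isUnit_det B).2 hB.isUnit))
  rwa [conjTranspose_eq_transpose_of_trivial] at h

lemma Alg2_back {B : Matrix ι ι ℝ} (hB : B.det ≠ 0) (A : Matrix ι ι ℝ) :
    Bᵀ * (B⁻¹ᵀ * A * B⁻¹) * B = A := by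
  have h1 : B⁻¹ * B = 1 := nonsing_inv_mul B hB.isUnit
  have h2 : Bᵀ * B⁻¹ᵀ = 1 := by rw [← transpose_mul, h1, transpose_one]
  calc Bᵀ * (B⁻¹ᵀ * A * B⁻¹) * B = (Bᵀ * B⁻¹ᵀ) * A * (B⁻¹ * B) := by simp only [Matrix.mul_assoc]
    _ = A := by rw [h1, h2, Matrix.one_mul, Matrix.mul_one]

lemma Alg2_form (B E : Matrix ι ι ℝ) (v : ι → ℝ) :
    v ⬝ᵥ (Bᵀ * E * B) *ᵥ v = (B *ᵥ v) ⬝ᵥ E *ᵥ (B *ᵥ v) := by
  rw [← mulVec_mulVec, ← mulVec_mulVec, dotProduct_mulVec v, vecMul_transpose]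

lemma Alg2_trace (M : Matrix ι ι ℝ) : fr M ^ 2 = (Mᵀ * M).trace := by
  rw [fr_sq, Finset.sum_comm]
  simp [Matrix.trace, Matrix.mul_apply, sq]

lemma Alg2_det {e m : ℝ} {M : Matrix ι ι ℝ} (hm : 0 < m) (h : PinM e m M) : M.det ≠ 0 := by
  intro h0
  have h1 := (pin_det hm h).1
  rw [h0] at h1
  linarith [pow_pos hm (Fintype.card ι)]

lemma cs_posDef {g : Matrix ι ι ℝ} (hg : g.PosDef) (ξ u : ι → ℝ) :
    (ξ ⬝ᵥ u) ^ 2 ≤ (ξ ⬝ᵥ g⁻¹ *ᵥ ξ) * (u ⬝ᵥ g *ᵥ u) := by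
  obtain ⟨B, hB, rfl⟩ := exists_factor hg
  have e : ξ ⬝ᵥ u = (B⁻¹ᵀ *ᵥ ξ) ⬝ᵥ (B *ᵥ u) := by
    rw [← vecMul_transpose B⁻¹ᵀ, transpose_transpose, ← dotProduct_mulVec, mulVec_mulVec,
      nonsing_inv_mul B hB.isUnit, one_mulVec]
  rw [Alg2_inv, ← ApproxA_dot, ← ApproxA_dot, e]
  exact Alg2_cs _ _

lemma inv_form_le {g1 g2 : Matrix ι ι ℝ} (h1 : g1.PosDef) (h2 : g2.PosDef) {κ : ℝ} (hκ : 0 ≤ κ)
    (h : ∀ u, u ⬝ᵥ g1 *ᵥ u ≤ κ * (u ⬝ᵥ g2 *ᵥ u)) (ξ : ι → ℝ) :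
    ξ ⬝ᵥ g2⁻¹ *ᵥ ξ ≤ κ * (ξ ⬝ᵥ g1⁻¹ *ᵥ ξ) := by
  have e : (g2⁻¹ *ᵥ ξ) ⬝ᵥ g2 *ᵥ (g2⁻¹ *ᵥ ξ) = ξ ⬝ᵥ g2⁻¹ *ᵥ ξ := by
    rw [mulVec_mulVec, mul_nonsing_inv g2 h2.det_pos.ne'.isUnit, one_mulVec, dotProduct_comm]
  have a1 := cs_posDef h1 ξ (g2⁻¹ *ᵥ ξ)
  have a2 := h (g2⁻¹ *ᵥ ξ)
  have a3 := Alg2_nonneg h1.inv ξ
  have a4 := Alg2_nonneg h2.inv ξ
  rw [e] at a2
  have a5 := a1.trans (mul_le_mul_of_nonneg_left a2 a3)
  rcases a4.eq_or_lt with z | z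
  · rw [← z]
    exact mul_nonneg hκ a3
  · refine le_of_mul_le_mul_right ?_ z
    linarith

lemma pinG_stable {Λ η e m : ℝ} {g g' A : Matrix ι ι ℝ} (hg : Bd Λ g) (hg' : g'.PosDef)
    (hη : η ≤ 1 / 2) (hd : Λ ^ 2 * fr (g' - g) ≤ η) (he : 0 ≤ e) (he1 : e ≤ 1) (hm : 0 < m)
    (h : PinG g' e m A) : PinG g (e + 32 * η) ((1 - η) ^ 2 * m) A := by
  obtain ⟨B, hB, rfl, -, hB2⟩ := hg
  have hp := Alg2_posDef hB
  have η0 : 0 ≤ η := (mul_nonneg (sq_nonneg Λ) (fr_nonneg _)).trans hd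
  have hE : fr (B⁻¹ᵀ * (g' - Bᵀ * B) * B⁻¹) ≤ η :=
    (fr_congr_le _ _).trans ((mul_le_mul_of_nonneg_right
      (pow_le_pow_left₀ (fr_nonneg _) hB2 2) (fr_nonneg _)).trans hd)
  have key : ∀ v, |v ⬝ᵥ g' *ᵥ v - v ⬝ᵥ (Bᵀ * B) *ᵥ v| ≤ η * (v ⬝ᵥ (Bᵀ * B) *ᵥ v) := by
    intro v
    rw [← dotProduct_sub, ← sub_mulVec, ← Alg2_back hB (g' - Bᵀ * B), Alg2_form, ← ApproxA_dot]
    generalize B *ᵥ v = x
    generalize B⁻¹ᵀ * (g' - Bᵀ * B) * B⁻¹ = E at hE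
    have x0 : 0 ≤ x ⬝ᵥ x := Finset.sum_nonneg fun i _ => mul_self_nonneg (x i)
    refine abs_le_of_sq_le_sq ?_ (mul_nonneg η0 x0)
    have a1 := mul_le_mul_of_nonneg_right (pow_le_pow_left₀ (fr_nonneg _) hE 2) x0
    have a2 := mul_le_mul_of_nonneg_left ((mulVec_sq_le E x).trans a1) x0
    linarith [Alg2_cs x (E *ᵥ x)]
  have η1 : 0 < 1 - η := by linarith
  have i1 := inv_form_le hp hg' (κ := (1 - η)⁻¹) (by positivity) fun u => by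
    rw [le_inv_mul_iff₀ η1]
    linarith [(abs_le.1 (key u)).1]
  have i2 := inv_form_le hg' hp (κ := 1 + η) (by positivity) fun u => by
    linarith [(abs_le.1 (key u)).2]
  intro v
  obtain ⟨a1, a2⟩ := h v
  obtain ⟨a3, a4⟩ := abs_le.1 (key v)
  have a5 := i1 (A *ᵥ v)
  have a6 := i2 (A *ᵥ v)
  have a0 := Alg2_nonneg hp v
  rw [le_inv_mul_iff₀ η1] at a5
  generalize v ⬝ᵥ (Bᵀ * B) *ᵥ v = s at *
  generalize v ⬝ᵥ g' *ᵥ v = s' at *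
  generalize (A *ᵥ v) ⬝ᵥ (Bᵀ * B)⁻¹ *ᵥ (A *ᵥ v) = t at *
  generalize (A *ᵥ v) ⬝ᵥ g'⁻¹ *ᵥ (A *ᵥ v) = t' at *
  constructor
  · have b1 : (1 - η) * s ≤ s' := by linarith
    have b2 := mul_le_mul_of_nonneg_left b1 hm.le
    have b3 := mul_le_mul_of_nonneg_left (b2.trans a1) η1.le
    linarith
  · have b1 : s' ≤ (1 + η) * s := by linarith
    have b2 := mul_le_mul_of_nonneg_left b1 (show 0 ≤ (1 + e) * m by positivity)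
    have b3 := mul_le_mul_of_nonneg_left (a2.trans b2) (show 0 ≤ 1 + η by positivity)
    have b4 : (1 + η) ^ 2 * (1 + e) ≤ (1 + (e + 32 * η)) * (1 - η) ^ 2 := by
      have c1 : 1 / 4 ≤ (1 - η) ^ 2 := by nlinarith
      nlinarith [mul_le_mul_of_nonneg_left c1 η0, mul_le_mul_of_nonneg_left he1 η0]
    have b5 := mul_le_mul_of_nonneg_right b4 (mul_nonneg hm.le a0)
    linarith

lemma bd_of_compact {K : Set (ι → ℝ)} (hK : IsCompact K) {g : (ι → ℝ) → Matrix ι ι ℝ}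
    (hc : ContinuousOn g K) (hp : ∀ y ∈ K, (g y).PosDef) : ∃ Λ : ℝ, ∀ y ∈ K, Bd Λ (g y) := by
  have c1 : ContinuousOn (fun y => (g y)⁻¹) K := continuousOn_matrix fun i j => by
    simp only [Piola_inv_apply]
    refine ((continuous_id.matrix_det.comp_continuousOn hc).inv₀
      fun y hy => (hp y hy).det_pos.ne').mul ?_
    exact (continuous_id.matrix_adjugate.matrix_elem i j).comp_continuousOn hc
  have c2 : ContinuousOn (fun y => (g y).trace + (g y)⁻¹.trace) K :=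
    (continuous_id.matrix_trace.comp_continuousOn hc).add
      (continuous_id.matrix_trace.comp_continuousOn c1)
  obtain ⟨C, hC⟩ := hK.exists_bound_of_continuousOn c2
  refine ⟨C + 1, fun y hy => ?_⟩
  obtain ⟨B, hB, e⟩ := exists_factor (hp y hy)
  have a1 := (le_abs_self _).trans (hC y hy)
  rw [e, Alg2_inv, ← Alg2_trace, ← Alg2_trace, fr_transpose] at a1
  refine ⟨B, hB, e, ?_, ?_⟩
  · nlinarith [sq_nonneg (fr B⁻¹), sq_nonneg (fr B - 1), sq_nonneg (fr B)]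
  · nlinarith [sq_nonneg (fr B⁻¹), sq_nonneg (fr B⁻¹ - 1), sq_nonneg (fr B)]

lemma Bd.mono {Λ Λ' : ℝ} {g : Matrix ι ι ℝ} (h : Bd Λ g) (hΛ : Λ ≤ Λ') : Bd Λ' g := by
  obtain ⟨B, h1, h2, h3, h4⟩ := h
  exact ⟨B, h1, h2, h3.trans hΛ, h4.trans hΛ⟩

lemma coercive_G (k : ℕ) (hN : Fintype.card ι = 2 * (k + 2)) {Λ : ℝ} (hΛ : 1 ≤ Λ) :
    ∃ c C e0 : ℝ, 0 < c ∧ 0 < C ∧ 0 < e0 ∧ ∀ e : ℝ, 0 ≤ e → e ≤ e0 →
    ∀ (g A A0 : Matrix ι ι ℝ) (m m0 : ℝ), Bd Λ g → fr A0 ≤ Λ → Aᵀ = -A → A0ᵀ = -A0 →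
    0 < m → 0 < m0 → PinG g e m A → PinG g 0 m0 A0 →
    c * GM k A0 A ≤ ip (Fm k A - Fm k A0) (A - A0) + C * e ^ 2 := by
  obtain ⟨C1, hC1, hap⟩ := approx k hN
  obtain ⟨c, C, e0, hc, hC, he0, hco⟩ := coercive (E := W ι) k
  obtain ⟨D, hD⟩ : ∃ D : ℝ, D = (Fintype.card ι).factorial * Λ ^ Fintype.card ι := ⟨_, rfl⟩
  have Λ0 : 0 < Λ := by linarith
  have D0 : 0 < D := by
    rw [hD]
    positivity
  refine ⟨c / (D * Λ ^ (2 * (k + 2))), D * (C * (C1 ^ 2 * (Λ ^ 3) ^ (k + 2))), min 1 (e0 / C1),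
    by positivity, by positivity, by positivity, ?_⟩
  rintro e h0 h1 g A A0 m m0 ⟨B, hB, rfl, hB1, hB2⟩ hA0 hk hk0 hm hm0 hp hp0
  have sk : ∀ X : Matrix ι ι ℝ, Xᵀ = -X → (B⁻¹ᵀ * X * B⁻¹)ᵀ = -(B⁻¹ᵀ * X * B⁻¹) := by
    intro X hX
    rw [transpose_mul, transpose_mul, transpose_transpose, hX, Matrix.neg_mul, Matrix.mul_neg,
      Matrix.mul_assoc]
  have q := hp.pinM hB
  have q0 := hp0.pinM hB
  have n0 : fr (B⁻¹ᵀ * A0 * B⁻¹) ≤ Λ ^ 3 :=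
    (fr_congr_le _ _).trans ((mul_le_mul (pow_le_pow_left₀ (fr_nonneg _) hB2 2) hA0 (fr_nonneg _)
      (by positivity)).trans (le_of_eq (by ring)))
  have s1 := sk A hk
  have s0 := sk A0 hk0
  rw [← Alg2_back hB A, ← Alg2_back hB A0]
  generalize B⁻¹ᵀ * A * B⁻¹ = A1 at *
  generalize B⁻¹ᵀ * A0 * B⁻¹ = A2 at *
  have a1 := hap e m h0 (h1.trans (min_le_left _ _)) hm A1 s1 q
  have a2 := hap 0 m0 le_rfl zero_le_one hm0 A2 s0 q0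
  rw [mul_zero, zero_mul, norm_le_zero_iff, sub_eq_zero] at a2
  have a3 := hco (C1 * e) (by positivity) (by
    have := h1.trans (min_le_right _ _)
    rwa [le_div_iff₀' hC1] at this) (toW A1) _ (toW A2) a1
  rw [← a2] at a3
  have a4 : c * GM k A2 A1 ≤ ip (Fm k A1 - Fm k A2) (A1 - A2) +
      C * ((C1 * e) ^ 2 * fr A2 ^ (k + 2)) := by
    rw [ip_eq_inner]
    exact a3
  have a5 : ip (Fm k (Bᵀ * A1 * B) - Fm k (Bᵀ * A2 * B)) (Bᵀ * A1 * B - Bᵀ * A2 * B) =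
      |B.det| * ip (Fm k A1 - Fm k A2) (A1 - A2) := by
    rw [Fm_congr k hB (Alg2_det hm q), Fm_congr k hB (Alg2_det hm0 q0), ← smul_sub,
      ← Matrix.sub_mul, ← Matrix.mul_sub, ← Matrix.sub_mul, ← Matrix.mul_sub,
      ← ip_congr hB (Fm k A1 - Fm k A2),
      ip_eq_inner, ip_eq_inner, toW_smul, real_inner_smul_left]
  have a6 := GM_congr_le k hB1 A2 A1
  have a7 := abs_det_le hB1
  have a8 := inv_le_abs_det hB hB2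
  rw [← hD] at a7 a8
  have a9 := GM_nonneg k A2 A1
  have b1 : c / (D * Λ ^ (2 * (k + 2))) * GM k (Bᵀ * A2 * B) (Bᵀ * A1 * B) ≤
      |B.det| * (c * GM k A2 A1) := by
    rw [div_mul_eq_mul_div, div_le_iff₀ (by positivity)]
    have b2 := mul_le_mul_of_nonneg_left a6 hc.le
    have b3 := mul_le_mul_of_nonneg_left a8
      (show 0 ≤ c * (Λ ^ (2 * (k + 2)) * GM k A2 A1) by positivity)
    linarith
  have b2 := mul_le_mul_of_nonneg_left a4 (abs_nonneg B.det)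
  have b3 : C * ((C1 * e) ^ 2 * fr A2 ^ (k + 2)) ≤ C * ((C1 * e) ^ 2 * (Λ ^ 3) ^ (k + 2)) :=
    mul_le_mul_of_nonneg_left (mul_le_mul_of_nonneg_left
      (pow_le_pow_left₀ (fr_nonneg _) n0 _) (sq_nonneg _)) hC.le
  have b4 := mul_le_mul a7 b3 (mul_nonneg hC.le (mul_nonneg (sq_nonneg _)
    (pow_nonneg (fr_nonneg _) _))) D0.le
  rw [a5]
  linarith

end Pool.Agent.Work.MP_bf98aa_gt.Mf
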