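import Pool.Agent.Work.MP_bf98aa_gt.Mf.Alg2

/-!
Coercivity against a form that is only close to a compatible form.
-/

set_option autoImplicit false
set_option linter.unusedSectionVars false

open MeasureTheory Metric Matrix
open scoped ContDiff RealInnerProductSpace

namespace Pool.Agent.Work.MP_bf98aa_gt.Mf

lemma coercive_two {E : Type} [NormedAddCommGroup E] [InnerProductSpace ℝ E] (k : ℕ) :
    ∃ c C e0 : ℝ, 0 < c ∧ 0 < C ∧ 0 < e0 ∧ ∀ e : ℝ, 0 ≤ e → e ≤ e0 → ∀ x f b f1 : E,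
    ‖f - ‖x‖ ^ k • x‖ ≤ e * ‖x‖ ^ (k + 1) → ‖f1 - ‖b‖ ^ k • b‖ ≤ e * ‖b‖ ^ (k + 1) →
    c * G k b (x - b) ≤ ⟪f - f1, x - b⟫ + C * (e ^ 2 * ‖b‖ ^ (k + 2)) := by
  obtain ⟨c, C, e0, hc, hC, he0, h⟩ := coercive (E := E) k
  refine ⟨c / 2, C + 1 / (2 * c), e0, by positivity, by positivity, he0,
    fun e h0 h1 x f b f1 hf hf1 => ?_⟩
  have a1 := h e h0 h1 x f b hf
  have a2 : ⟪f - ‖b‖ ^ k • b, x - b⟫ = ⟪f - f1, x - b⟫ + ⟪f1 - ‖b‖ ^ k • b, x - b⟫ := by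
    rw [← inner_add_left, sub_add_sub_cancel]
  have a3 := (real_inner_le_norm (f1 - ‖b‖ ^ k • b) (x - b)).trans
    (mul_le_mul_of_nonneg_right hf1 (norm_nonneg _))
  have a4 := mul_le_mul_of_nonneg_left (pow_mul_sq_le_G k b (x - b)) hc.le
  have a5 : 0 ≤ ‖b‖ ^ k * (c * ‖x - b‖ - e * ‖b‖) ^ 2 / (2 * c) := by positivity
  have a6 : ‖b‖ ^ k * (c * ‖x - b‖ - e * ‖b‖) ^ 2 / (2 * c) =
      c * (‖b‖ ^ k * ‖x - b‖ ^ 2) / 2 - e * ‖b‖ ^ (k + 1) * ‖x - b‖ +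
        1 / (2 * c) * (e ^ 2 * ‖b‖ ^ (k + 2)) := by
    field_simp
    ring
  linarith

variable {ι : Type} [Fintype ι] [DecidableEq ι]

lemma pinM_perturb {m η : ℝ} {A0 A1 : Matrix ι ι ℝ} (h : PinM 0 m A0) (hm : 0 < m) (h0 : 0 ≤ η)
    (h1 : η ≤ 1 / 4) (hd : fr (A1 - A0) ^ 2 ≤ η ^ 2 * m) :
    PinM (10 * η) ((1 - 2 * η) * m) A1 := by
  intro v
  obtain ⟨a1, a2⟩ := h v
  have hv : 0 ≤ v ⬝ᵥ v := Finset.sum_nonneg fun i _ => mul_self_nonneg _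
  have a3 := (mulVec_sq_le (A1 - A0) v).trans (mul_le_mul_of_nonneg_right hd hv)
  have e1 : A1 *ᵥ v = A0 *ᵥ v + (A1 - A0) *ᵥ v := by rw [← add_mulVec, add_sub_cancel]
  have a4 := Alg2_cs (A0 *ᵥ v) ((A1 - A0) *ᵥ v)
  have a5 : 0 ≤ ((A1 - A0) *ᵥ v) ⬝ᵥ ((A1 - A0) *ᵥ v) :=
    Finset.sum_nonneg fun i _ => mul_self_nonneg _
  rw [e1, add_dotProduct, dotProduct_add, dotProduct_add, dotProduct_comm ((A1 - A0) *ᵥ v) (A0 *ᵥ v)]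
  generalize (A0 *ᵥ v) ⬝ᵥ ((A1 - A0) *ᵥ v) = X at *
  generalize ((A1 - A0) *ᵥ v) ⬝ᵥ ((A1 - A0) *ᵥ v) = Z at *
  generalize (A0 *ᵥ v) ⬝ᵥ (A0 *ᵥ v) = Y at *
  have hT : 0 ≤ m * (v ⬝ᵥ v) := by positivity
  have e2 : Y = m * (v ⬝ᵥ v) := by linarith
  have a6 : Z ≤ η ^ 2 * Y := by rw [e2]; linarith
  have a7 : |X| ≤ η * Y := by
    refine abs_le_of_sq_le_sq' ?_ (by rw [e2]; positivity) |> abs_le.2
    have := mul_le_mul_of_nonneg_left a6 (e2 ▸ hT : 0 ≤ Y)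
    nlinarith
  obtain ⟨a8, a9⟩ := abs_le.1 a7
  have e3 : (1 - 2 * η) * m * (v ⬝ᵥ v) = (1 - 2 * η) * Y := by rw [e2]; ring
  have e4 : (1 + 10 * η) * ((1 - 2 * η) * m) * (v ⬝ᵥ v) = (1 + 10 * η) * (1 - 2 * η) * Y := by
    rw [e2]; ring
  rw [e3, e4]
  have hY : 0 ≤ Y := e2 ▸ hT
  refine ⟨by linarith, ?_⟩
  have b1 : 1 + 2 * η + η ^ 2 ≤ (1 + 10 * η) * (1 - 2 * η) := by nlinarith
  nlinarith [mul_le_mul_of_nonneg_right b1 hY]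

lemma coercive_B (k : ℕ) (hN : Fintype.card ι = 2 * (k + 2)) {Λ T : ℝ} (hΛ : 1 ≤ Λ) (hT : 0 < T) :
    ∃ c C e0 : ℝ, 0 < c ∧ 0 < C ∧ 0 < e0 ∧ ∀ e : ℝ, 0 ≤ e → e ≤ e0 →
    ∀ (B A1 A2 : Matrix ι ι ℝ) (m m0 : ℝ), B.det ≠ 0 → fr B ≤ Λ → fr B⁻¹ ≤ Λ → fr A2 ≤ T →
    A1ᵀ = -A1 → A2ᵀ = -A2 → 0 < m → 0 < m0 → PinM e m A1 → PinM e m0 A2 →
    c * GM k (Bᵀ * A2 * B) (Bᵀ * A1 * B) ≤
      ip (Fm k (Bᵀ * A1 * B) - Fm k (Bᵀ * A2 * B)) (Bᵀ * A1 * B - Bᵀ * A2 * B) + C * e ^ 2 := by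
  obtain ⟨C1, hC1, hap⟩ := approx k hN
  obtain ⟨c, C, e0, hc, hC, he0, hco⟩ := coercive_two (E := W ι) k
  obtain ⟨D, hD⟩ : ∃ D : ℝ, D = (Fintype.card ι).factorial * Λ ^ Fintype.card ι := ⟨_, rfl⟩
  have Λ0 : 0 < Λ := by linarith
  have D0 : 0 < D := by
    rw [hD]
    positivity
  refine ⟨c / (D * Λ ^ (2 * (k + 2))), D * (C * (C1 ^ 2 * T ^ (k + 2))), min 1 (e0 / C1),
    by positivity, by positivity, by positivity, ?_⟩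
  rintro e h0 h1 B A1 A2 m m0 hB hB1 hB2 n0 s1 s0 hm hm0 q q0
  have a1 := hap e m h0 (h1.trans (min_le_left _ _)) hm A1 s1 q
  have a2 := hap e m0 h0 (h1.trans (min_le_left _ _)) hm0 A2 s0 q0
  have a3 := hco (C1 * e) (by positivity) (by
    have := h1.trans (min_le_right _ _)
    rwa [le_div_iff₀' hC1] at this) (toW A1) _ (toW A2) _ a1 a2
  have a4 : c * GM k A2 A1 ≤ ip (Fm k A1 - Fm k A2) (A1 - A2) +
      C * ((C1 * e) ^ 2 * fr A2 ^ (k + 2)) := by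
    rw [ip_eq_inner]
    exact a3
  have a5 : ip (Fm k (Bᵀ * A1 * B) - Fm k (Bᵀ * A2 * B)) (Bᵀ * A1 * B - Bᵀ * A2 * B) =
      |B.det| * ip (Fm k A1 - Fm k A2) (A1 - A2) := by
    rw [Fm_congr k hB (Alg2_det hm q), Fm_congr k hB (Alg2_det hm0 q0), ← smul_sub,
      ← Matrix.sub_mul, ← Matrix.mul_sub, ← Matrix.sub_mul, ← Matrix.mul_sub,
      ← ip_congr hB (Fm k A1 - Fm k A2),
      ip_eq_inner, ip_eq_inner, toW_smul, real_inner_smul_left]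
  have a6 := GM_congr_le k hB1 A2 A1
  have a7 := abs_det_le hB1
  have a8 := inv_le_abs_det hB hB2
  rw [← hD] at a7 a8
  have a9 := GM_nonneg k A2 A1
  have b1 : c / (D * Λ ^ (2 * (k + 2))) * GM k (Bᵀ * A2 * B) (Bᵀ * A1 * B) ≤
      |B.det| * (c * GM k A2 A1) := by
    rw [div_mul_eq_mul_div, div_le_iff₀ (by positivity)]
    have b2 := mul_le_mul_of_nonneg_left a6 hc.le
    have b3 := mul_le_mul_of_nonneg_left a8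
      (show 0 ≤ c * (Λ ^ (2 * (k + 2)) * GM k A2 A1) by positivity)
    linarith
  have b2 := mul_le_mul_of_nonneg_left a4 (abs_nonneg B.det)
  have b3 : C * ((C1 * e) ^ 2 * fr A2 ^ (k + 2)) ≤ C * ((C1 * e) ^ 2 * T ^ (k + 2)) :=
    mul_le_mul_of_nonneg_left (mul_le_mul_of_nonneg_left
      (pow_le_pow_left₀ (fr_nonneg _) n0 _) (sq_nonneg _)) hC.le
  have b4 := mul_le_mul a7 b3 (mul_nonneg hC.le (mul_nonneg (sq_nonneg _)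
    (pow_nonneg (fr_nonneg _) _))) D0.le
  rw [a5]
  linarith

lemma coercive_near (k : ℕ) (hN : Fintype.card ι = 2 * (k + 2)) {Λ : ℝ} (hΛ : 1 ≤ Λ) :
    ∃ c C e0 : ℝ, 0 < c ∧ 0 < C ∧ 0 < e0 ∧ ∀ e : ℝ, 0 ≤ e → e ≤ e0 →
    ∀ (g A A0 A1 : Matrix ι ι ℝ) (m m0 : ℝ), Bd Λ g → Λ⁻¹ ≤ fr A0 → fr A0 ≤ Λ → Aᵀ = -A →
    A1ᵀ = -A1 → 0 < m → 0 < m0 → PinG g e m A → PinG g 0 m0 A0 → fr (A1 - A0) ≤ e →
    c * GM k A0 A ≤ ip (Fm k A - Fm k A1) (A - A1) + C * e ^ 2 := by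
  have Λ0 : 0 < Λ := by linarith
  obtain ⟨c, C, e0, hc, hC, he0, h⟩ := coercive_B k hN hΛ (T := Λ ^ 2 * (Λ + 1)) (by positivity)
  obtain ⟨Ct, hCt, ht⟩ := GM_transfer (ι := ι) k
  obtain ⟨K, hK⟩ : ∃ K : ℝ, K = Λ ^ 5 * (Fintype.card ι + 1) := ⟨_, rfl⟩
  have hn : (0 : ℝ) ≤ Fintype.card ι := Nat.cast_nonneg _
  have K1 : 1 ≤ K := by
    rw [hK]
    exact one_le_mul_of_one_le_of_one_le (one_le_pow₀ hΛ) (by linarith)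
  have K0 : 0 < K := by linarith
  refine ⟨c / Ct, C * (10 * K) ^ 2 + c * ((Λ + 1) ^ k + 1), min (e0 / (10 * K)) (1 / (4 * K)),
    by positivity, by positivity, by positivity, ?_⟩
  rintro e h0 h1 g A A0 A1 m m0 ⟨B, hB, rfl, hB1, hB2⟩ hl hu hk hk1 hm hm0 hp hp0 hd
  obtain ⟨e1, e2⟩ := le_min_iff.1 h1
  rw [le_div_iff₀ (by positivity)] at e1 e2
  have e3 : e ≤ 1 := by nlinarith
  have sk : ∀ X : Matrix ι ι ℝ, Xᵀ = -X → (B⁻¹ᵀ * X * B⁻¹)ᵀ = -(B⁻¹ᵀ * X * B⁻¹) := by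
    intro X hX
    rw [transpose_mul, transpose_mul, transpose_transpose, hX, Matrix.neg_mul, Matrix.mul_neg,
      Matrix.mul_assoc]
  have cg : ∀ (X Y : Matrix ι ι ℝ) (t : ℝ), fr X ≤ Λ → fr Y ≤ t → fr (Xᵀ * Y * X) ≤ Λ ^ 2 * t :=
    fun X Y t h1 h2 => (fr_congr_le _ _).trans (mul_le_mul
      (pow_le_pow_left₀ (fr_nonneg _) h1 2) h2 (fr_nonneg _) (by positivity))
  have q0 := hp0.pinM hB
  have n1 : fr A1 ≤ Λ + 1 := by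
    have := fr_add_le A0 (A1 - A0)
    rw [add_sub_cancel] at this
    linarith
  have n2 : Λ⁻¹ ≤ Λ ^ 2 * fr (B⁻¹ᵀ * A0 * B⁻¹) := by
    have := cg B _ _ hB1 (le_refl (fr (B⁻¹ᵀ * A0 * B⁻¹)))
    rw [Alg2_back hB] at this
    exact hl.trans this
  have n3 : fr (B⁻¹ᵀ * A0 * B⁻¹) ^ 2 ≤ Fintype.card ι * m0 := by
    simpa [fr] using (pin_norm q0).2
  have n4 : 1 ≤ Λ ^ 6 * (Fintype.card ι * m0) := by
    rw [inv_le_iff_one_le_mul₀ Λ0] at n2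
    have := pow_le_pow_left₀ zero_le_one n2 2
    nlinarith [mul_le_mul_of_nonneg_left n3 (by positivity : 0 ≤ Λ ^ 6)]
  have n5 : fr (B⁻¹ᵀ * A1 * B⁻¹ - B⁻¹ᵀ * A0 * B⁻¹) ^ 2 ≤ (K * e) ^ 2 * m0 := by
    rw [← Matrix.sub_mul, ← Matrix.mul_sub]
    refine (pow_le_pow_left₀ (fr_nonneg _) (cg _ _ _ hB2 hd) 2).trans ?_
    have b1 := mul_le_mul_of_nonneg_left n4 (by positivity : 0 ≤ (Λ ^ 2 * e) ^ 2)
    have b2 : (Fintype.card ι : ℝ) ≤ (Fintype.card ι + 1) ^ 2 := by nlinarith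
    have b3 := mul_le_mul_of_nonneg_left b2 (by positivity : 0 ≤ Λ ^ 10 * e ^ 2 * m0)
    rw [hK]
    nlinarith
  have q1 := pinM_perturb q0 hm0 (by positivity) (by linarith) n5
  have q : PinM (10 * (K * e)) m (B⁻¹ᵀ * A * B⁻¹) :=
    (hp.mono hm.le (Alg2_nonneg (Alg2_posDef hB)) (by nlinarith)).pinM hB
  have a1 := h _ (by positivity) (by linarith) B _ _ m _ hB hB1 hB2 (cg _ _ _ hB2 n1) (sk A hk)
    (sk A1 hk1) hm (mul_pos (by linarith) hm0) q q1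
  rw [Alg2_back hB, Alg2_back hB] at a1
  have a2 : GM k A1 A0 ≤ ((Λ + 1) ^ k + 1) * e ^ 2 := by
    rw [fr_sub_comm] at hd
    have b0 := fr_nonneg (A0 - A1)
    have b4 : 0 ≤ fr A1 ^ k := pow_nonneg (fr_nonneg _) k
    exact mul_le_mul (add_le_add (pow_le_pow_left₀ (fr_nonneg _) n1 k) (pow_le_one₀ b0 (hd.trans e3)))
      (pow_le_pow_left₀ b0 hd 2) (by positivity) (by positivity)
  have a3 : c / Ct * GM k A0 A ≤ c * (GM k A1 A + GM k A1 A0) := by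
    rw [div_mul_eq_mul_div, div_le_iff₀ hCt]
    nlinarith [mul_le_mul_of_nonneg_left (ht A0 A1 A) hc.le]
  nlinarith [mul_le_mul_of_nonneg_left a2 hc.le]

end Pool.Agent.Work.MP_bf98aa_gt.Mf
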