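import Pool.Agent.Work.MP_bf98aa_gt.Mf.Euc

/-!
The primitive of the mollification.

PLAN. contDiff_avM: contDiff_av (../Av2.lean). contDiff_beta: the integrand h (σ, y) is jointly smooth (contDiff_av, Av1_test);
beta = s * ∫ t in 0..1, h (t s, y) (intervalIntegral.integral_comp_mul_right or smul_integral_comp_mul), and a parametric integral
of a smooth function over a compact set is smooth (see the proof of contDiff_av for one way: contDiff_convolution_right_with_param;
or induction on the order with hasFDerivAt_integral_of_dominated_of_fderiv_le; or write beta P w s y l as a weighted mean in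
one more variable). dM_beta: pd commutes with the σ integral (pd_interval, differentiate under the integral) and with av (pd_av);
hasDerivAt_av gives d/dσ av p0 (w i j) y σ = ∑ m, av (v m * p0 v) (pd m (w i j)) y σ; closedness and skewness give
pd m (w i j) = pd i (w m j) - pd j (w m i); intervalIntegral.integral_eq_sub_of_hasDerivAt, av_zero, P.one.
-/

set_option autoImplicit false
set_option linter.unusedSectionVars false

open MeasureTheory Metric Matrix
open scoped ContDiff RealInnerProductSpace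

namespace Pool.Agent.Work.MP_bf98aa_gt.Mf

variable {ι : Type} [Fintype ι] [DecidableEq ι]

lemma contDiff_avM (P : Prof ι) {w : (ι → ℝ) → Matrix ι ι ℝ} (hw : SmoothForm w) (i j : ι) :
    ContDiff ℝ ∞ fun z : ℝ × (ι → ℝ) => avM P w z.2 z.1 i j := by
  exact contDiff_av P.t0 (hw i j)

open scoped Convolution in
lemma contDiff_interval {h : ℝ × (ι → ℝ) → ℝ} (hh : ContDiff ℝ ∞ h) :
    ContDiff ℝ ∞ fun z : ℝ × (ι → ℝ) => ∫ σ in (0 : ℝ)..z.1, h (σ, z.2) := by
  let χ : ContDiffBump (0 : ℝ) := ⟨1, 2, one_pos, one_lt_two⟩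
  have h1 := contDiffOn_convolution_right_with_param_comp (μ := volume) (ContinuousLinearMap.mul ℝ ℝ)
    (s := Set.univ) (n := ⊤) (v := fun _ : ℝ × (ι → ℝ) => (0 : ℝ)) contDiffOn_const
    (f := (Set.Ioc (0 : ℝ) 1).indicator fun _ => (1 : ℝ))
    (g := fun p t => χ t * h (-t * p.1, p.2)) isOpen_univ
    (isCompact_closedBall 0 2) (fun p t _ ht => by
      rw [χ.zero_of_le_dist (le_of_lt (by simpa using ht)), zero_mul])
    ((locallyIntegrable_const 1).indicator measurableSet_Ioc) (ContDiff.contDiffOn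
      ((χ.contDiff.comp contDiff_snd).mul (hh.comp (by fun_prop))))
  rw [contDiffOn_univ] at h1
  have e : (fun z : ℝ × (ι → ℝ) => ∫ σ in (0 : ℝ)..z.1, h (σ, z.2)) = fun z => z.1 *
      ((Set.Ioc (0 : ℝ) 1).indicator (fun _ => (1 : ℝ)) ⋆[ContinuousLinearMap.mul ℝ ℝ, volume]
        fun t => χ t * h (-t * z.1, z.2)) 0 := by
    funext z
    have e1 := intervalIntegral.smul_integral_comp_mul_right (a := 0) (b := 1)
      (fun σ => h (σ, z.2)) z.1
    rw [zero_mul, one_mul] at e1
    rw [← e1, smul_eq_mul, intervalIntegral.integral_of_le zero_le_one, convolution_def,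
      ← integral_indicator measurableSet_Ioc]
    congr 2
    funext t
    by_cases ht : t ∈ Set.Ioc (0 : ℝ) 1
    · have : χ (0 - t) = 1 := χ.one_of_mem_closedBall (by
        rw [mem_closedBall_zero_iff, zero_sub, norm_neg, Real.norm_eq_abs, abs_of_pos ht.1]
        exact ht.2)
      rw [Set.indicator_of_mem ht, Set.indicator_of_mem ht, ContinuousLinearMap.mul_apply', this]
      simp
    · rw [Set.indicator_of_notMem ht, Set.indicator_of_notMem ht, ContinuousLinearMap.mul_apply',
        zero_mul]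
  rw [e]
  exact contDiff_fst.mul h1

lemma pd_interval {h : ℝ × (ι → ℝ) → ℝ} (hh : ContDiff ℝ ∞ h) (s : ℝ) (i : ι) (y : ι → ℝ) :
    pd i (fun z => ∫ σ in (0 : ℝ)..s, h (σ, z)) y
      = ∫ σ in (0 : ℝ)..s, pd i (fun z => h (σ, z)) y := by
  have hc : Continuous fun p : ℝ × (ι → ℝ) =>
      (fderiv ℝ h p).comp (ContinuousLinearMap.inr ℝ ℝ (ι → ℝ)) :=
    (hh.continuous_fderiv (by simp)).clm_comp continuous_const
  have hd : ∀ (σ : ℝ) (z : ι → ℝ), HasFDerivAt (fun z => h (σ, z))
      ((fderiv ℝ h (σ, z)).comp (ContinuousLinearMap.inr ℝ ℝ (ι → ℝ))) z := fun σ z =>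
    (hh.differentiable (by simp) (σ, z)).hasFDerivAt.comp z (hasFDerivAt_prodMk_right σ z)
  obtain ⟨M, hM⟩ := ((isCompact_uIcc (a := (0 : ℝ)) (b := s)).prod
    (isCompact_closedBall y 1)).exists_bound_of_continuousOn hc.continuousOn
  have hc' : Continuous fun σ : ℝ =>
      (fderiv ℝ h (σ, y)).comp (ContinuousLinearMap.inr ℝ ℝ (ι → ℝ)) :=
    hc.comp (Continuous.prodMk_left y)
  have h1 := intervalIntegral.hasFDerivAt_integral_of_dominated_of_fderiv_le (μ := volume)
    (a := 0) (b := s) (F := fun z σ => h (σ, z))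
    (F' := fun z σ => (fderiv ℝ h (σ, z)).comp (ContinuousLinearMap.inr ℝ ℝ (ι → ℝ)))
    (bound := fun _ => M) (closedBall_mem_nhds y one_pos)
    (Filter.Eventually.of_forall fun z =>
      (hh.continuous.comp (Continuous.prodMk_left z)).aestronglyMeasurable)
    ((hh.continuous.comp (Continuous.prodMk_left y)).intervalIntegrable _ _)
    hc'.aestronglyMeasurable
    (Filter.Eventually.of_forall fun σ hσ z hz => hM (σ, z) ⟨Set.uIoc_subset_uIcc hσ, hz⟩)
    intervalIntegrable_const (Filter.Eventually.of_forall fun σ _ z _ => hd σ z)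
  unfold pd
  rw [h1.fderiv, ContinuousLinearMap.intervalIntegral_apply (hc'.intervalIntegrable _ _)]
  simp only [fun σ => (hd σ y).fderiv]

lemma Beta_h (P : Prof ι) {w : (ι → ℝ) → Matrix ι ι ℝ} (hw : SmoothForm w) (l : ι) :
    ContDiff ℝ ∞ fun z : ℝ × (ι → ℝ) =>
      ∑ m, av (fun v => v m * P.p0 v) (fun x => w x m l) z.2 z.1 :=
  ContDiff.sum fun m _ => contDiff_av (Av1_test P.t0 m) (hw m l)

lemma contDiff_beta (P : Prof ι) {w : (ι → ℝ) → Matrix ι ι ℝ} (hw : SmoothForm w) (l : ι) :
    ContDiff ℝ ∞ fun z : ℝ × (ι → ℝ) => beta P w z.1 z.2 l := by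
  exact contDiff_interval (Beta_h P hw l)

lemma beta_zero (P : Prof ι) (w : (ι → ℝ) → Matrix ι ι ℝ) (y : ι → ℝ) (l : ι) :
    beta P w 0 y l = 0 := by
  simp [beta]

lemma Beta_pd (P : Prof ι) {w : (ι → ℝ) → Matrix ι ι ℝ} (hw : SmoothForm w) (s : ℝ) (i l : ι)
    (y : ι → ℝ) : pd i (fun z => beta P w s z l) y =
      ∫ σ in (0 : ℝ)..s, ∑ m, av (fun v => v m * P.p0 v) (pd i fun x => w x m l) y σ := by
  refine (pd_interval (Beta_h P hw l) s i y).trans ?_
  congr 1
  funext σ
  refine (pd_sum Finset.univ (f := fun m z => av (fun v => v m * P.p0 v) (fun x => w x m l) z σ)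
    (fun m _ => ?_) i).trans (Finset.sum_congr rfl fun m _ => pd_av (Av1_test P.t0 m) (hw m l) i y σ)
  exact ((contDiff_av (Av1_test P.t0 m) (hw m l)).comp
    (contDiff_const.prodMk contDiff_id)).differentiable (by simp) y

lemma dM_beta (P : Prof ι) {w : (ι → ℝ) → Matrix ι ι ℝ} (hw : SymOn Set.univ w) (s : ℝ)
    (y : ι → ℝ) : dM (beta P w s) y = avM P w y s - w y := by
  have hs : SmoothForm w := fun i j => contDiffOn_univ.1 (hw.smooth i j)
  have hc : ∀ i l, Continuous fun σ : ℝ =>
      ∑ m, av (fun v => v m * P.p0 v) (pd i fun x => w x m l) y σ := fun i l =>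
    continuous_finsetSum _ fun m _ =>
      (contDiff_av (Av1_test P.t0 m) (contDiff_pd (hs m l) i)).continuous.comp
        (Continuous.prodMk_left y)
  ext i j
  have hcl : ∀ m, (pd m fun x => w x i j) =
      fun z => pd i (fun x => w x m j) z - pd j (fun x => w x m i) z := by
    intro m
    funext z
    have h1 := hw.closed z trivial m i j
    have h2 : (fun x => w x j m) = fun x => -w x m j := by
      funext x
      exact congrFun (congrFun (hw.skew x trivial) m) j
    rw [h2, pd_neg] at h1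
    linarith
  have hF := intervalIntegral.integral_eq_sub_of_hasDerivAt (a := 0) (b := s)
    (fun σ _ => hasDerivAt_av P.t0 (hs i j) y σ)
    ((continuous_finsetSum _ fun m _ =>
      (contDiff_av (Av1_test P.t0 m) (contDiff_pd (hs i j) m)).continuous.comp
        (Continuous.prodMk_left y)).intervalIntegrable _ _)
  rw [av_zero, P.one, one_smul] at hF
  simp only [dM, avM, Matrix.of_apply, Matrix.sub_apply]
  rw [Beta_pd P hs, Beta_pd P hs, ← intervalIntegral.integral_sub ((hc i j).intervalIntegrable _ _)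
    ((hc j i).intervalIntegrable _ _), ← hF]
  congr 1
  funext σ
  rw [← Finset.sum_sub_distrib]
  refine Finset.sum_congr rfl fun m _ => ?_
  rw [hcl, av_sub (Av1_test P.t0 m) (contDiff_pd (hs m j) i).continuous
    (contDiff_pd (hs m i) j).continuous]

end Pool.Agent.Work.MP_bf98aa_gt.Mf
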