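import Pool.Agent.Work.MP_bf98aa_gt.Mf.Beta

/-!
Estimates for the mollification and its primitive.

PLAN. avM_near: toW (avM P w y s) = av p0 (toW ∘ w) y s (av_apply), as in av_near (../Near.lean) with norm_av_le and Test.bdd.
near_half: σ = s / 2; (2 σ)^N fr (a - a') ≤ ∫ over the cube of radius σ of fr (w - a') + fr (w - a) ≤ c fr a' σ^N + c fr a (2 σ)^N.
beta_bound: for σ in [s/2, s] the integrand of beta is at most C0 fr a (norm_av_le, Av1_test, Test.bdd,
|w z m l| ≤ fr (w z - a) + fr a on the cube of radius s). Let B bound the integrand on [0, s0] (it is continuous: contDiff_av).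
Induction on j: for all s ≤ s0 and a with NearAt at s, |beta s| ≤ 2 C0 s fr a + B s / 2^j, by
beta s = beta (s/2) + ∫ σ in s/2..s (integral_add_adjacent_intervals) and near_half (factor 3/2); let j tend to infinity.
-/

set_option autoImplicit false
set_option linter.unusedSectionVars false

open MeasureTheory Metric Matrix
open scoped ContDiff RealInnerProductSpace

namespace Pool.Agent.Work.MP_bf98aa_gt.Mf

variable {ι : Type} [Fintype ι] [DecidableEq ι]

lemma avM_near (P : Prof ι) : ∃ C : ℝ, 0 < C ∧ ∀ w : (ι → ℝ) → Matrix ι ι ℝ, Continuous w →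
    ∀ (c s : ℝ) (y : ι → ℝ) (a : Matrix ι ι ℝ), 0 < s → NearAt c w y s a →
    fr (avM P w y s - a) ≤ C * c * fr a := by
  obtain ⟨M, hM, hb⟩ := P.t0.bdd
  refine ⟨M, hM, fun w hw c s y a hs h => ?_⟩
  have hW : Continuous fun z => toW (w z) := continuous_toW.comp hw
  have h0 : toW (avM P w y s) = av P.p0 (fun z => toW (w z)) y s := by
    ext p
    rw [av_apply P.t0 hW]
    rfl
  have h1 : toW (avM P w y s - a) = av P.p0 (fun z => toW (w z) - toW a) y s := by
    rw [av_sub P.t0 hW continuous_const, av_const, P.one, one_smul, toW_sub, h0]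
  rw [fr, h1]
  refine (norm_av_le P.t0 hb (hW.sub continuous_const) y hs).trans
    ((mul_le_mul_of_nonneg_left h (by positivity)).trans_eq ?_)
  rw [inv_pow]
  field_simp

lemma BetaB_int {w : (ι → ℝ) → Matrix ι ι ℝ} (hw : Continuous w) (a : Matrix ι ι ℝ) (y : ι → ℝ)
    (s : ℝ) : IntegrableOn (fun z => fr (w z - a)) (closedBall y s) :=
  (continuous_fr.comp (hw.sub continuous_const)).continuousOn.integrableOn_compact
    (isCompact_closedBall y s)

lemma BetaB_mono {w : (ι → ℝ) → Matrix ι ι ℝ} (hw : Continuous w) (a : Matrix ι ι ℝ) (y : ι → ℝ)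
    {s t : ℝ} (h : t ≤ s) :
    ∫ z in closedBall y t, fr (w z - a) ≤ ∫ z in closedBall y s, fr (w z - a) :=
  setIntegral_mono_set (BetaB_int hw a y s) (Filter.Eventually.of_forall fun _ => fr_nonneg _)
    (closedBall_subset_closedBall h).eventuallyLE

lemma near_half {w : (ι → ℝ) → Matrix ι ι ℝ} (hw : Continuous w) {c s : ℝ} (hc : 0 ≤ c)
    (hc1 : c ≤ 1 / 5) (hs : 0 < s) {y : ι → ℝ} {a a' : Matrix ι ι ℝ} (h : NearAt c w y s a)
    (h' : NearAt c w y (s / 2) a') : fr a' ≤ 3 / 2 * fr a := by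
  have hk : IntegrableOn (fun _ => fr (a' - a)) (closedBall y (s / 2)) :=
    continuousOn_const.integrableOn_compact (isCompact_closedBall _ _)
  have h1 := integral_mono hk ((BetaB_int hw a y (s / 2)).add (BetaB_int hw a' y (s / 2)))
    fun z => by
      have := fr_sub_le (w z - a) (w z - a')
      rwa [sub_sub_sub_cancel_left] at this
  simp only [Pi.add_apply] at h1
  rw [integral_add (BetaB_int hw a y (s / 2)) (BetaB_int hw a' y (s / 2)), setIntegral_const,
    volume_real_cube y (by positivity), smul_eq_mul, mul_div_cancel₀ s two_ne_zero] at h1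
  have h2 := (BetaB_mono hw a y (half_le_self hs.le)).trans h
  have h3 : c * fr a' * (s / 2) ^ Fintype.card ι ≤ c * fr a' * s ^ Fintype.card ι :=
    mul_le_mul_of_nonneg_left (pow_le_pow_left₀ (by positivity) (half_le_self hs.le) _)
      (mul_nonneg hc (fr_nonneg _))
  have h4 : fr (a' - a) ≤ c * fr a + c * fr a' := by
    refine le_of_mul_le_mul_left ?_ (pow_pos hs (Fintype.card ι))
    have := le_trans h' h3
    linarith
  have h5 := fr_add_le (a' - a) a
  rw [sub_add_cancel] at h5
  nlinarith [mul_le_mul_of_nonneg_right hc1 (fr_nonneg a),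
    mul_le_mul_of_nonneg_right hc1 (fr_nonneg a')]

lemma BetaB_pt {φ : (ι → ℝ) → ℝ} (hφ : Test φ) {M : ℝ} (hM : 0 < M) (hb : ∀ v, |φ v| ≤ M)
    {w : (ι → ℝ) → Matrix ι ι ℝ} (hw : Continuous w) {c s σ : ℝ} (hc1 : c ≤ 1 / 5) (hs : 0 < s)
    {y : ι → ℝ} {a : Matrix ι ι ℝ} (h : NearAt c w y s a) (h1 : s / 2 ≤ σ) (h2 : σ ≤ s) (m l : ι) :
    |av φ (fun z => w z m l) y σ|
      ≤ M * (2 ^ Fintype.card ι * (1 + 2 ^ Fintype.card ι)) * fr a := by
  have hσ : 0 < σ := lt_of_lt_of_le (by positivity) h1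
  have ha := fr_nonneg a
  have hc : Continuous fun z => w z m l := (continuous_apply l).comp ((continuous_apply m).comp hw)
  have hk : IntegrableOn (fun _ => fr a) (closedBall y σ) :=
    continuousOn_const.integrableOn_compact (isCompact_closedBall _ _)
  have h3 := integral_mono (hc.norm.continuousOn.integrableOn_compact (μ := volume)
    (isCompact_closedBall y σ)) ((BetaB_int hw a y σ).add hk) fun z => by
      have := fr_add_le (w z - a) a
      rw [sub_add_cancel] at this
      exact (abs_le_fr (w z) m l).trans this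
  simp only [Pi.add_apply] at h3
  rw [integral_add (BetaB_int hw a y σ) hk, setIntegral_const, volume_real_cube y hσ.le,
    smul_eq_mul] at h3
  have h4 := (BetaB_mono hw a y h2).trans h
  have h5 : s ^ Fintype.card ι ≤ (2 * σ) ^ Fintype.card ι :=
    pow_le_pow_left₀ hs.le (by linarith) _
  have h6 : c * fr a * s ^ Fintype.card ι ≤ fr a * (2 * σ) ^ Fintype.card ι :=
    mul_le_mul (by nlinarith) h5 (by positivity) ha
  have h7 : (1 : ℝ) ≤ 2 ^ Fintype.card ι := one_le_pow₀ one_le_two
  have h8 : 0 ≤ fr a * (2 * σ) ^ Fintype.card ι := by positivity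
  have h9 : ∫ z in closedBall y σ, ‖w z m l‖
      ≤ (1 + 2 ^ Fintype.card ι) * (fr a * (2 * σ) ^ Fintype.card ι) := by nlinarith
  refine (norm_av_le hφ hb hc y hσ).trans
    ((mul_le_mul_of_nonneg_left h9 (by positivity)).trans_eq ?_)
  rw [inv_pow, mul_pow]
  field_simp

lemma beta_bound (P : Prof ι) : ∃ C : ℝ, 0 < C ∧ ∀ w : (ι → ℝ) → Matrix ι ι ℝ, SmoothForm w →
    ∀ (c s : ℝ) (y : ι → ℝ) (a : Matrix ι ι ℝ), 0 ≤ c → c ≤ 1 / 5 → 0 < s →
    (∀ σ : ℝ, 0 < σ → σ ≤ s → ∃ a', NearAt c w y σ a') → NearAt c w y s a →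
    ∀ l, |beta P w s y l| ≤ C * s * fr a := by
  choose M hM hb using fun m : ι => (Av1_test P.t0 m).bdd
  obtain ⟨C, hC, hCe⟩ : ∃ C : ℝ, 0 < C ∧
      ∑ m, M m * (2 ^ Fintype.card ι * (1 + 2 ^ Fintype.card ι)) ≤ C :=
    ⟨_ + 1, add_pos_of_nonneg_of_pos (Finset.sum_nonneg fun m _ => by have := hM m; positivity)
      one_pos, le_add_of_nonneg_right zero_le_one⟩
  refine ⟨2 * C, by positivity, fun w hw c s0 y a0 hc hc1 hs0 hall ha0 l => ?_⟩
  have hwc : Continuous w := continuous_pi fun i => continuous_pi fun j => (hw i j).continuous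
  obtain ⟨h, hh⟩ : ∃ h : ℝ → ℝ,
      h = fun σ => ∑ m, av (fun v => v m * P.p0 v) (fun z => w z m l) y σ := ⟨_, rfl⟩
  have hcont : Continuous h := by
    rw [hh]
    exact continuous_finsetSum _ fun m _ =>
      (contDiff_av (Av1_test P.t0 m) (hw m l)).continuous.comp (Continuous.prodMk_left y)
  have hbeta : ∀ s, beta P w s y l = ∫ σ in (0 : ℝ)..s, h σ := fun s => by rw [hh]; rfl
  obtain ⟨B, hB⟩ := (isCompact_Icc (a := (0 : ℝ)) (b := s0)).exists_bound_of_continuousOn
    hcont.continuousOn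
  have key : ∀ j : ℕ, ∀ s a, 0 < s → s ≤ s0 → NearAt c w y s a →
      |∫ σ in (0 : ℝ)..s, h σ| ≤ 2 * C * s * fr a + B * s * (1 / 2) ^ j := by
    intro j
    induction j with
    | zero =>
      intro s a hs hle _
      have h1 := intervalIntegral.norm_integral_le_of_norm_le_const (a := 0) (b := s) (C := B)
        (f := h) fun σ hσ => by
          rw [Set.uIoc_of_le hs.le] at hσ
          exact hB σ ⟨hσ.1.le, hσ.2.trans hle⟩
      rw [sub_zero, abs_of_pos hs, Real.norm_eq_abs] at h1
      have := fr_nonneg a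
      have : 0 ≤ 2 * C * s * fr a := by positivity
      linarith [pow_zero (1 / 2 : ℝ), mul_one (B * s)]
    | succ j ih =>
      intro s a hs hle ha
      have hs2 : s / 2 ≤ s := half_le_self hs.le
      obtain ⟨a', ha'⟩ := hall (s / 2) (by positivity) (hs2.trans hle)
      have h1 := ih (s / 2) a' (by positivity) (hs2.trans hle) ha'
      have h2 := near_half hwc hc hc1 hs ha ha'
      have h3 := intervalIntegral.norm_integral_le_of_norm_le_const (a := s / 2) (b := s)
        (C := C * fr a) (f := h) fun σ hσ => by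
          rw [Set.uIoc_of_le hs2] at hσ
          rw [hh, Real.norm_eq_abs]
          refine (Finset.abs_sum_le_sum_abs _ _).trans ((Finset.sum_le_sum fun m _ =>
            BetaB_pt (Av1_test P.t0 m) (hM m) (hb m) hwc hc1 hs ha hσ.1.le hσ.2 m l).trans ?_)
          rw [← Finset.sum_mul]
          exact mul_le_mul_of_nonneg_right hCe (fr_nonneg a)
      rw [sub_half, abs_of_pos (half_pos hs), Real.norm_eq_abs] at h3
      rw [← intervalIntegral.integral_add_adjacent_intervals (b := s / 2)
        (hcont.intervalIntegrable _ _) (hcont.intervalIntegrable _ _)]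
      refine (abs_add_le _ _).trans ?_
      have h4 := mul_le_mul_of_nonneg_left h2 (mul_pos hC hs).le
      rw [pow_succ]
      nlinarith
  rw [hbeta]
  have hlim : Filter.Tendsto (fun j : ℕ => 2 * C * s0 * fr a0 + B * s0 * (1 / 2 : ℝ) ^ j)
      Filter.atTop (nhds (2 * C * s0 * fr a0 + B * s0 * 0)) :=
    ((tendsto_pow_atTop_nhds_zero_of_lt_one (by norm_num) (by norm_num)).const_mul _).const_add _
  rw [mul_zero, add_zero] at hlim
  exact ge_of_tendsto' hlim fun j => key j s0 a0 hs0 le_rfl ha0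

end Pool.Agent.Work.MP_bf98aa_gt.Mf
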