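import Pool.Agent.Work.MP_bf98aa_gt.Mf.Euc

/-!
Pull-backs of forms under smooth maps of open subsets of the Euclidean space.

PLAN. contDiffOn_pd: ContDiffOn.fderiv_of_isOpen and clm_apply. pd_comm_at: as pd_comm in ../Basic.lean with
ContDiffAt.isSymmSndFDerivAt. pd_comp: HasFDerivAt.comp, fderiv_apply_eq, fderiv_pi or fderiv_apply for the components.
dM_pull: (Jᵀ *ᵥ b (τ z)) j = ∑ p, J z p j * b (τ z) p; pd_sum, pd_mul, pd_comp; the second derivatives of τ cancel by pd_comm_at.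
SymOn.pull: entries are ∑ p q, J p j * w p q (τ z) * J q l (PathB_entry); with H p i j = pd i (pd j τ_p) symmetric in i, j, the
cyclic sum is ∑ J r i J p j J q l (cyclic sum of pd r w p q) plus terms H p i j J q l w p q + J p l H q i j w p q, which cancel by
skewness (Finset.sum_comm); prove this as a separate purely algebraic lemma. closed_dM: pd_sub, pd_comm_at.
contDiff_mul_of_supp: contDiff_iff_contDiffAt; inside U the product is smooth, outside K it is eventually zero.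
integral_comp_le: integral_image_eq_integral_abs_det_fderiv_smul with the derivative fderiv ℝ τ y, whose determinant is
(jacM τ y).det (LinearMap.det_toMatrix with Pi.basisFun, or LinearMap.det_toLin'); setIntegral_mono_on, setIntegral_mono_set.
-/

set_option autoImplicit false
set_option linter.unusedSectionVars false

open MeasureTheory Metric Matrix
open scoped ContDiff RealInnerProductSpace

namespace Pool.Agent.Work.MP_bf98aa_gt.Mf

variable {ι : Type} [Fintype ι] [DecidableEq ι]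

lemma contDiffOn_pd {U : Set (ι → ℝ)} (hU : IsOpen U) {f : (ι → ℝ) → ℝ}
    (hf : ContDiffOn ℝ ∞ f U) (i : ι) : ContDiffOn ℝ ∞ (pd i f) U := by
  unfold pd
  exact (hf.fderiv_of_isOpen (m := ∞) hU (by simp)).clm_apply contDiffOn_const

lemma Pull_pd {f : (ι → ℝ) → ℝ} {y : ι → ℝ} (hf : ContDiffAt ℝ ∞ f y) (i : ι) :
    DifferentiableAt ℝ (pd i f) y := by
  unfold pd
  exact ((hf.fderiv_right (m := 1) (WithTop.coe_le_coe.2 le_top)).differentiableAt
    one_ne_zero).clm_apply (differentiableAt_const _)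

lemma pd_comm_at {f : (ι → ℝ) → ℝ} {y : ι → ℝ} (hf : ContDiffAt ℝ ∞ f y) (i j : ι) :
    pd i (pd j f) y = pd j (pd i f) y := by
  have h1 : DifferentiableAt ℝ (fderiv ℝ f) y :=
    (hf.fderiv_right (m := 1) (WithTop.coe_le_coe.2 le_top)).differentiableAt one_ne_zero
  have h2 : ∀ a b : ι, pd a (pd b f) y
      = fderiv ℝ (fderiv ℝ f) y (Pi.single a 1) (Pi.single b 1) := by
    intro a b
    unfold pd
    rw [fderiv_clm_apply h1 (differentiableAt_const _)]
    simp
  rw [h2, h2]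
  exact (hf.isSymmSndFDerivAt (by
    rw [minSmoothness_of_isRCLikeNormedField]; exact WithTop.coe_le_coe.2 le_top)) _ _

lemma pd_comp {τ : (ι → ℝ) → ι → ℝ} {f : (ι → ℝ) → ℝ} {y : ι → ℝ} (hτ : DifferentiableAt ℝ τ y)
    (hf : DifferentiableAt ℝ f (τ y)) (i : ι) :
    pd i (fun z => f (τ z)) y = ∑ r, jacM τ y r i * pd r f (τ y) := by
  rw [pd, fderiv_fun_comp y hf hτ, ContinuousLinearMap.comp_apply, fderiv_apply_eq]
  refine Finset.sum_congr rfl fun r _ => ?_
  rw [jacM, of_apply, pd, pd, fderiv_apply hτ]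
  rfl

lemma contDiffOn_jacM {U : Set (ι → ℝ)} (hU : IsOpen U) {τ : (ι → ℝ) → ι → ℝ}
    (hτ : ContDiffOn ℝ ∞ τ U) (i j : ι) : ContDiffOn ℝ ∞ (fun y => jacM τ y i j) U := by
  exact contDiffOn_pd hU (contDiffOn_pi.1 hτ i) j

lemma fderiv_eq_jacM {τ : (ι → ℝ) → ι → ℝ} {y : ι → ℝ} (hτ : DifferentiableAt ℝ τ y) (v : ι → ℝ) :
    fderiv ℝ τ y v = jacM τ y *ᵥ v := by
  funext i
  have h := fderiv_apply_eq (fun z => τ z i) y v
  rw [fderiv_apply hτ] at h
  exact h.trans (Finset.sum_congr rfl fun j _ => mul_comm _ _)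

lemma dM_pull {τ b : (ι → ℝ) → ι → ℝ} {y : ι → ℝ} (hτ : ContDiffAt ℝ ∞ τ y)
    (hb : ∀ i, DifferentiableAt ℝ (fun z => b z i) (τ y)) :
    dM (fun z => (jacM τ z)ᵀ *ᵥ b (τ z)) y = (jacM τ y)ᵀ * dM b (τ y) * jacM τ y := by
  have h0 := hτ.differentiableAt (by simp)
  have h1 := contDiffAt_pi.1 hτ
  have h2 : ∀ i j, pd i (fun z => ((jacM τ z)ᵀ *ᵥ b (τ z)) j) y =
      ∑ p, pd i (pd j fun z => τ z p) y * b (τ y) p +
        ∑ p, ∑ r, jacM τ y r i * pd r (fun z => b z p) (τ y) * jacM τ y p j := by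
    intro i j
    rw [← Finset.sum_add_distrib]
    refine (pd_sum (f := fun p z => pd j (fun z => τ z p) z * b (τ z) p) _
      (fun p _ => (Pull_pd (h1 p) j).mul ((hb p).comp y h0)) i).trans
      (Finset.sum_congr rfl fun p _ => ?_)
    rw [pd_mul (g := fun z => b (τ z) p) (Pull_pd (h1 p) j) ((hb p).comp y h0),
      pd_comp (f := fun z => b z p) h0 (hb p), ← Finset.sum_mul, mul_comm (∑ r, _)]
    rfl
  ext i j
  simp only [dM, of_apply, h2, mul_apply, transpose_apply, mul_sub, sub_mul, Finset.sum_mul,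
    Finset.sum_sub_distrib, pd_comm_at (h1 _) i j, add_sub_add_left_eq_sub]
  rw [Finset.sum_comm (f := fun p r => jacM τ y r j * _ * _)]
  congr 1
  exact Finset.sum_congr rfl fun _ _ => Finset.sum_congr rfl fun _ _ => by ring

lemma Pull_alg {w J : Matrix ι ι ℝ} {D H T : ι → ι → ι → ℝ} (hw : ∀ p q, w q p = -w p q)
    (hD : ∀ r p q, D r p q + D p q r + D q r p = 0) (hH : ∀ p i j, H p i j = H p j i)
    (hT : ∀ i j l, T i j l = ∑ q, ((∑ p, (H p i j * w p q + J p j * ∑ r, J r i * D r p q)) * J q l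
      + (∑ p, J p j * w p q) * H q i l)) (i j l : ι) : T i j l + T j l i + T l i j = 0 := by
  obtain ⟨A, hA⟩ : ∃ A : ι → ι → ι → ℝ, ∀ i j l, A i j l = ∑ q, ∑ p, H p i j * w p q * J q l :=
    ⟨_, fun _ _ _ => rfl⟩
  obtain ⟨B, hB⟩ : ∃ B : ι → ι → ι → ℝ, ∀ i j l,
      B i j l = ∑ q, ∑ p, ∑ r, J p j * (J r i * D r p q) * J q l := ⟨_, fun _ _ _ => rfl⟩
  have h1 : ∀ i j l, T i j l = A i j l + B i j l - A i l j := by
    intro i j l
    rw [hT, hA, hB, hA i l, Finset.sum_comm (f := fun q p => H p i l * w p q * J q j),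
      sub_eq_add_neg]
    simp only [Finset.sum_add_distrib, add_mul, Finset.sum_mul, Finset.mul_sum,
      ← Finset.sum_neg_distrib]
    congr 1
    exact Finset.sum_congr rfl fun q _ => Finset.sum_congr rfl fun p _ => by rw [hw q p]; ring
  have h2 : ∀ i j l, A i j l = A j i l := fun i j l => by simp only [hA, hH _ i j]
  have h3 : ∀ F : ι → ι → ι → ℝ, ∑ q, ∑ p, ∑ r, F q p r = ∑ q, ∑ p, ∑ r, F r q p :=
    fun F => Finset.sum_comm.trans (Finset.sum_congr rfl fun _ _ => Finset.sum_comm)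
  have h4 : B i j l + B j l i + B l i j = 0 := by
    rw [hB, hB j, h3 fun q p r => J p l * (J r j * D r p q) * J q i, hB l,
      ← h3 fun q p r => J r i * (J q l * D q r p) * J p j]
    simp only [← Finset.sum_add_distrib]
    refine Finset.sum_eq_zero fun q _ => Finset.sum_eq_zero fun p _ =>
      Finset.sum_eq_zero fun r _ => ?_
    linear_combination J r i * J p j * J q l * hD r p q
  rw [h1, h1, h1]
  linear_combination h4 + h2 i j l + h2 j l i + h2 l i j

lemma SymOn.pull {U U' : Set (ι → ℝ)} (hU : IsOpen U) (hU' : IsOpen U')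
    {w : (ι → ℝ) → Matrix ι ι ℝ} (h : SymOn U w) {τ : (ι → ℝ) → ι → ℝ} (hτ : ContDiffOn ℝ ∞ τ U')
    (hm : Set.MapsTo τ U' U) (hd : ∀ y ∈ U', (jacM τ y).det ≠ 0) :
    SymOn U' fun y => (jacM τ y)ᵀ * w (τ y) * jacM τ y := by
  have hJ := contDiffOn_jacM hU' hτ
  have hw : ∀ p q, ContDiffOn ℝ ∞ (fun z => w (τ z) p q) U' := fun p q =>
    (h.smooth p q).comp hτ hm
  refine ⟨fun i j => ?_, fun y hy => ?_, fun y hy => ?_, fun y hy => ?_⟩
  · simp only [mul_apply, transpose_apply]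
    exact ContDiffOn.sum fun q _ => (ContDiffOn.sum fun p _ => (hJ p i).mul (hw p q)).mul (hJ q j)
  · rw [transpose_mul, transpose_mul, transpose_transpose, h.skew _ (hm hy), Matrix.neg_mul,
      Matrix.mul_neg, Matrix.mul_assoc]
  · rw [det_mul, det_mul, det_transpose]
    exact mul_ne_zero (mul_ne_zero (hd y hy) (h.det _ (hm hy))) (hd y hy)
  · have h0 := hτ.contDiffAt (hU'.mem_nhds hy)
    have h1 := fun p i => ((hJ p i).contDiffAt (hU'.mem_nhds hy)).differentiableAt (by simp)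
    have h2 := fun p q => ((hw p q).contDiffAt (hU'.mem_nhds hy)).differentiableAt (by simp)
    refine Pull_alg (w := w (τ y)) (J := jacM τ y) (H := fun p i j => pd i (jacM τ · p j) y)
      (T := fun i j l => pd i (fun z => ((jacM τ z)ᵀ * w (τ z) * jacM τ z) j l) y)
      (fun p q => congrFun (congrFun (h.skew _ (hm hy)) p) q) (h.closed _ (hm hy))
      (fun p => pd_comm_at (contDiffAt_pi.1 h0 p)) fun i j l => ?_
    have h3 : ∀ q, DifferentiableAt ℝ (fun z => ∑ p, jacM τ z p j * w (τ z) p q) y := fun q =>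
      DifferentiableAt.fun_sum fun p _ => (h1 p j).mul (h2 p q)
    simp only [mul_apply, transpose_apply]
    rw [pd_sum _ fun q _ => (h3 q).fun_mul (h1 q l)]
    refine Finset.sum_congr rfl fun q _ => ?_
    rw [pd_mul (h3 q) (h1 q l), pd_sum _ fun p _ => (h1 p j).fun_mul (h2 p q)]
    congr 2
    refine Finset.sum_congr rfl fun p _ => ?_
    rw [pd_mul (h1 p j) (h2 p q), pd_comp (f := fun z => w z p q) (h0.differentiableAt (by simp))
      (((h.smooth p q).contDiffAt (hU.mem_nhds (hm hy))).differentiableAt (by simp))]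

lemma closed_dM {b : (ι → ℝ) → ι → ℝ} {y : ι → ℝ} (hb : ∀ i, ContDiffAt ℝ ∞ (fun z => b z i) y)
    (i j l : ι) : pd i (fun z => dM b z j l) y + pd j (fun z => dM b z l i) y
      + pd l (fun z => dM b z i j) y = 0 := by
  have h : ∀ i j l, pd i (fun z => dM b z j l) y =
      pd i (pd j fun z => b z l) y - pd i (pd l fun z => b z j) y := fun i j l =>
    pd_sub (Pull_pd (hb l) j) (Pull_pd (hb j) l) i
  rw [h, h, h, pd_comm_at (hb l) i j, pd_comm_at (hb j) i l, pd_comm_at (hb i) j l]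
  ring

lemma contDiff_mul_of_supp {U K : Set (ι → ℝ)} (hU : IsOpen U) (hK : IsClosed K) (hKU : K ⊆ U)
    {φ f : (ι → ℝ) → ℝ} (hφ : ContDiff ℝ ∞ φ) (h0 : ∀ y, y ∉ K → φ y = 0)
    (hf : ContDiffOn ℝ ∞ f U) : ContDiff ℝ ∞ fun y => φ y * f y := by
  refine contDiff_iff_contDiffAt.2 fun y => ?_
  by_cases hy : y ∈ K
  · exact hφ.contDiffAt.mul (hf.contDiffAt (hU.mem_nhds (hKU hy)))
  · refine (contDiffAt_const (c := 0)).congr_of_eventuallyEq ?_
    filter_upwards [hK.isOpen_compl.mem_nhds hy] with z hz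
    rw [h0 z hz, zero_mul]

lemma det_fderiv {τ : (ι → ℝ) → ι → ℝ} {y : ι → ℝ} (hτ : DifferentiableAt ℝ τ y) :
    (fderiv ℝ τ y).det = (jacM τ y).det := by
  rw [← LinearMap.det_toLin', ContinuousLinearMap.det]
  congr 1
  exact LinearMap.ext fun v => fderiv_eq_jacM hτ v

lemma integral_comp_le {S S' : Set (ι → ℝ)} (hS : IsCompact S) (hS' : IsCompact S')
    {τ : (ι → ℝ) → ι → ℝ} (hτ : ∀ y ∈ S, ContDiffAt ℝ ∞ τ y) (hi : Set.InjOn τ S)
    (hm : Set.MapsTo τ S S') {D : ℝ} (hD : ∀ y ∈ S, 1 ≤ D * |(jacM τ y).det|) (hD0 : 0 ≤ D)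
    {f : (ι → ℝ) → ℝ} (hf : ContinuousOn f S') (h0 : ∀ y ∈ S', 0 ≤ f y) :
    ∫ y in S, f (τ y) ≤ D * ∫ y in S', f y := by
  have h1 := fun y hy => (hτ y hy).differentiableAt (by simp)
  have h2 : ContinuousOn (fun y => f (τ y)) S :=
    hf.comp (fun y hy => (h1 y hy).continuousAt.continuousWithinAt) hm
  have h3 : ContinuousOn (fun y => |(fderiv ℝ τ y).det|) S := fun y hy =>
    (ContinuousLinearMap.continuous_det.continuousAt.comp
      ((hτ y hy).continuousAt_fderiv (by simp))).abs.continuousWithinAt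
  refine le_trans ?_ (mul_le_mul_of_nonneg_left (setIntegral_mono_set
    (hf.integrableOn_compact hS') (ae_restrict_of_forall_mem hS'.measurableSet h0)
    hm.image_subset.eventuallyLE) hD0)
  rw [integral_image_eq_integral_abs_det_fderiv_smul volume hS.measurableSet
    (fun y hy => (h1 y hy).hasFDerivAt.hasFDerivWithinAt) hi, ← integral_const_mul]
  refine setIntegral_mono_on (h2.integrableOn_compact hS)
    (((h3.mul h2).integrableOn_compact hS).const_mul D) hS.measurableSet fun y hy => ?_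
  rw [smul_eq_mul, det_fderiv (h1 y hy), ← mul_assoc]
  exact le_mul_of_one_le_left (h0 _ (hm hy)) (hD y hy)

end Pool.Agent.Work.MP_bf98aa_gt.Mf
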