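import Pool.Agent.Work.MP_bf98aa_gt.Mf.LocIter
import Pool.Agent.Work.MP_bf98aa_gt.Mf.Alg1
import Pool.Agent.Work.MP_bf98aa_gt.Mf.Pull

/-!
The local theorem for matrix valued forms pinched to a constant metric.

PLAN. sysOn_of: as sys_of_pinched in ../ApproxB.lean (approx, pinW_of_pin, smooth_piola, piola, Fm_skew, contDiffOn_univ).
jacM_affine: fderiv of an affine map, pd_mulVec in ../Change.lean. local_thm_M: g = Bᵀ B, N = card ι, τ z = y0 + B⁻¹ *ᵥ z,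
w1 z = B⁻¹ᵀ * w (τ z) * B⁻¹ is SymOn univ (SymOn.pull, jacM_affine), S = τ ⁻¹' closedBall y0 r contains closedBall 0 r1 with
r1 = r / (N Λ) (norm_mulVec_le), PinG.pinM, sysOn_of with e = e0 = min 1 (e1 / C). D = N! Λ^N.
En k (toW ∘ w1) (toW b1) 0 r1 ≤ Λ^(2(k+2)) ∫ GM k b (w (τ z)) ≤ Λ^(2(k+2)) D ∫ GM k b (w z) (GM_congr_le, integral_comp_le,
inv_le_abs_det applied to B⁻¹), fr b ≤ Λ^2 fr b1 (b = Bᵀ b1 B, fr_congr_le). local_thm with c1; L = (N Λ)^2, s1 = N Λ s ≤ r1;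
σ z = B *ᵥ (z - y0) maps closedBall y0 s into closedBall 0 s1, w z = Bᵀ * w1 (σ z) * B, so
∫ fr (w z - w y) ≤ Λ^2 D c1 fr (w1 y1) s1^N ≤ Λ^4 D (N Λ)^N c1 fr (w y) s^N with y = τ y1.
-/

set_option autoImplicit false
set_option linter.unusedSectionVars false

open MeasureTheory Metric Matrix
open scoped ContDiff RealInnerProductSpace

namespace Pool.Agent.Work.MP_bf98aa_gt.Mf

variable {ι : Type} [Fintype ι] [DecidableEq ι]

lemma sysOn_of (k : ℕ) (hN : Fintype.card ι = 2 * (k + 2)) : ∃ C : ℝ, 0 < C ∧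
    ∀ e : ℝ, 0 ≤ e → e ≤ 1 → ∀ (S : Set (ι → ℝ)) (w : (ι → ℝ) → Matrix ι ι ℝ), SymOn Set.univ w →
    (∀ x ∈ S, ∃ m : ℝ, 0 < m ∧ PinM e m (w x)) →
    SysOn S k (C * e) (fun x => toW (w x)) fun x => toW (Fm k (w x)) := by
  obtain ⟨C, hC, hap⟩ := approx (ι := ι) k hN
  have : Nonempty ι := Fintype.card_pos_iff.1 (by omega)
  refine ⟨max C 2, lt_max_of_lt_left hC, fun e h0 h1 S w hw hp => ?_⟩
  have hs : SmoothForm w := fun i j => contDiffOn_univ.1 (hw.smooth i j)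
  have hk := fun x => hw.skew x (Set.mem_univ x)
  have hn := fun x => hw.det x (Set.mem_univ x)
  have hc := fun x => hw.closed x (Set.mem_univ x)
  have eF : ∀ p : ι × ι, (fun x => toW (Fm k (w x)) p) =
      fun x => -√(Fintype.card ι : ℝ) ^ k * (dens (w x) * (w x)⁻¹ p.1 p.2) := fun p => by
    funext x
    simp only [Fm, toW_apply, Matrix.smul_apply, smul_eq_mul]
    ring
  refine ⟨fun p => hs p.1 p.2, fun p => ?_, fun x i j => ApproxB_skew (hk x) i j,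
    fun x i j => ApproxB_skew (Fm_skew k (hk x) (hn x)) i j, hc, fun x j => ?_, fun x hx => ?_,
    fun x hx i j => ?_, fun x hx => hn x ?_⟩
  · rw [eF]
    exact contDiff_const.mul (smooth_piola hs hn p.1 p.2)
  · simp only [eF]
    rw [Finset.sum_congr rfl fun i _ =>
      pd_const_mul ((smooth_piola hs hn i j).differentiable (by simp) x) _ i, ← Finset.mul_sum,
      piola hs hk hn hc, mul_zero]
  · obtain ⟨m, hm, h⟩ := hp x hx
    refine (hap e m h0 h1 hm (w x) (hk x) h).trans ?_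
    gcongr
    exact le_max_left _ _
  · obtain ⟨m, hm, h⟩ := hp x hx
    refine (pinW_of_pin h0 hm (hk x) h i j).trans ?_
    gcongr
    exact le_max_right _ _
  · have h : w x = 0 := Matrix.ext fun i j => congrArg (fun a : W ι => a (i, j)) hx
    rw [h, det_zero]

lemma jacM_affine (c : ι → ℝ) (C : Matrix ι ι ℝ) (y : ι → ℝ) :
    jacM (fun z => c + C *ᵥ z) y = C := by
  ext i j
  have h := ((ContinuousLinearMap.proj (R := ℝ) (φ := fun _ : ι => ℝ) i).comp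
    (LinearMap.toContinuousLinearMap C.mulVecLin)).hasFDerivAt (x := y) |>.const_add (c i)
  exact (congrArg (fun T : (ι → ℝ) →L[ℝ] ℝ => T (Pi.single j 1)) h.fderiv).trans (by simp)

lemma LT2_cancel {B : Matrix ι ι ℝ} (hB : B.det ≠ 0) (A : Matrix ι ι ℝ) :
    Bᵀ * (B⁻¹ᵀ * A * B⁻¹) * B = A := by
  calc _ = (B⁻¹ * B)ᵀ * A * (B⁻¹ * B) := by simp only [transpose_mul, Matrix.mul_assoc]
    _ = A := by
      rw [nonsing_inv_mul _ (isUnit_iff_ne_zero.2 hB), transpose_one, Matrix.one_mul,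
        Matrix.mul_one]

lemma LT2_fr {Λ : ℝ} {C : Matrix ι ι ℝ} (h : fr C ≤ Λ) (A : Matrix ι ι ℝ) :
    fr (Cᵀ * A * C) ≤ Λ ^ 2 * fr A :=
  (fr_congr_le C A).trans
    (mul_le_mul_of_nonneg_right (pow_le_pow_left₀ (fr_nonneg _) h 2) (fr_nonneg _))

lemma LT2_cont {w : (ι → ℝ) → Matrix ι ι ℝ} (hw : SymOn Set.univ w) : Continuous w :=
  continuous_matrix fun i j => (contDiffOn_univ.1 (hw.smooth i j)).continuous

lemma LT2_smooth (c : ι → ℝ) (M : Matrix ι ι ℝ) : ContDiff ℝ ∞ fun z : ι → ℝ => c + M *ᵥ z :=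
  contDiff_const.add (contDiff_mulVec M)

lemma LT2_maps {Λ ρ ρ' : ℝ} {M : Matrix ι ι ℝ} (h : fr M ≤ Λ) {c x x' : ι → ℝ}
    (hx : c + M *ᵥ x = x') (hρ : Fintype.card ι * Λ * ρ ≤ ρ') :
    Set.MapsTo (fun z => c + M *ᵥ z) (closedBall x ρ) (closedBall x' ρ') := by
  intro y hy
  rw [mem_closedBall, dist_eq_norm] at hy ⊢
  rw [← hx, add_sub_add_left_eq_sub, ← mulVec_sub]
  have h0 := (fr_nonneg M).trans h
  refine (norm_mulVec_le _ _).trans (le_trans ?_ hρ)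
  gcongr

lemma LT2_int {Λ ρ ρ' : ℝ} {M : Matrix ι ι ℝ} (hM : M.det ≠ 0) (h : fr M ≤ Λ) (h' : fr M⁻¹ ≤ Λ)
    {c x x' : ι → ℝ} (hx : c + M *ᵥ x = x') (hρ : Fintype.card ι * Λ * ρ ≤ ρ')
    {f g : (ι → ℝ) → ℝ} (hf : Continuous f) (h0 : ∀ y, 0 ≤ f y) (g0 : ∀ y, 0 ≤ g y) {K : ℝ}
    (hK : 0 ≤ K) (hg : ∀ y, g y ≤ K * f (c + M *ᵥ y)) :
    ∫ y in closedBall x ρ, g y ≤
      K * ((Fintype.card ι).factorial * Λ ^ Fintype.card ι * ∫ y in closedBall x' ρ', f y) := by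
  have hΛ := (fr_nonneg M).trans h
  have h1 := integral_comp_le (isCompact_closedBall x ρ) (isCompact_closedBall x' ρ')
    (τ := fun z => c + M *ᵥ z) (fun y _ => (LT2_smooth c M).contDiffAt)
    (fun y _ y' _ e => by
      have e1 := congrArg (M⁻¹ *ᵥ ·) (add_left_cancel e)
      simpa only [mulVec_mulVec, nonsing_inv_mul _ (isUnit_iff_ne_zero.2 hM), one_mulVec] using e1)
    (LT2_maps h hx hρ) (D := (Fintype.card ι).factorial * Λ ^ Fintype.card ι)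
    (fun y _ => by
      rw [jacM_affine]
      exact inv_le_abs_det hM h') (by positivity) hf.continuousOn fun y _ => h0 y
  refine le_trans ?_ (mul_le_mul_of_nonneg_left h1 hK)
  rw [← integral_const_mul]
  refine integral_mono_of_nonneg (Filter.Eventually.of_forall g0) ?_
    (Filter.Eventually.of_forall hg)
  exact (continuous_const.mul (hf.comp (LT2_smooth c M).continuous)).continuousOn
    |>.integrableOn_compact (isCompact_closedBall x ρ)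

lemma local_thm_M (k : ℕ) (hN : Fintype.card ι = 2 * (k + 2)) {Λ c : ℝ} (hΛ : 1 ≤ Λ) (hc : 0 < c) :
    ∃ d e0 L : ℝ, 0 < d ∧ 0 < e0 ∧ e0 ≤ 1 ∧ 1 ≤ L ∧
    ∀ (g b : Matrix ι ι ℝ) (w : (ι → ℝ) → Matrix ι ι ℝ) (y0 : ι → ℝ) (r : ℝ), Bd Λ g →
    SymOn Set.univ w → 0 < r → (∀ z ∈ closedBall y0 r, ∃ m : ℝ, 0 < m ∧ PinG g e0 m (w z)) →
    ∫ z in closedBall y0 r, GM k b (w z) ≤ d * fr b ^ (k + 2) * r ^ Fintype.card ι →
    ∀ s : ℝ, 0 < s → s ≤ r / L → ∃ y ∈ closedBall y0 r, NearAt c w y0 s (w y) := by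
  obtain ⟨C, hC, hsys⟩ := sysOn_of (ι := ι) k hN
  have hN1 : (1 : ℝ) ≤ Fintype.card ι := by
    rw [hN]
    exact_mod_cast (by omega : 1 ≤ 2 * (k + 2))
  have hΛ0 : 0 < Λ := by linarith
  obtain ⟨P, hP⟩ : ∃ P : ℝ, P = Fintype.card ι * Λ := ⟨_, rfl⟩
  obtain ⟨D, hD⟩ : ∃ D : ℝ, D = (Fintype.card ι).factorial * Λ ^ Fintype.card ι := ⟨_, rfl⟩
  have hP1 : 1 ≤ P := hP ▸ one_le_mul_of_one_le_of_one_le hN1 hΛ
  have hP0 : 0 < P := by linarith
  have hD0 : 0 < D := by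
    rw [hD]
    positivity
  obtain ⟨d1, e1, hd1, he1, hloc⟩ := local_thm (ι := ι) k
    (c := c / (Λ ^ 2 * D * Λ ^ 2 * P ^ Fintype.card ι)) (by positivity)
  refine ⟨d1 / (Λ ^ (2 * (k + 2)) * D * (Λ ^ 2) ^ (k + 2) * P ^ Fintype.card ι), min 1 (e1 / C),
    P ^ 2, by positivity, by positivity, min_le_left _ _, one_le_pow₀ hP1, ?_⟩
  rintro g b w y0 r ⟨B, hB, rfl, b1, b2⟩ hw hr hp hE s hs hsr
  have hBu := isUnit_iff_ne_zero.2 hB
  have hB' : B⁻¹.det ≠ 0 := (isUnit_nonsing_inv_det B hBu).ne_zero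
  have b3 : fr B⁻¹⁻¹ ≤ Λ := by rwa [nonsing_inv_nonsing_inv B hBu]
  have hw1 := hw.pull isOpen_univ isOpen_univ (LT2_smooth y0 B⁻¹).contDiffOn (Set.mapsTo_univ _ _)
    fun y _ => by rwa [jacM_affine]
  simp only [jacM_affine] at hw1
  have t0 : y0 + B⁻¹ *ᵥ 0 = y0 := by rw [mulVec_zero, add_zero]
  have t1 : Fintype.card ι * Λ * (r / P) ≤ r := by rw [← hP, mul_div_cancel₀ _ hP0.ne']
  have he0 : 0 ≤ min 1 (e1 / C) := by positivity
  have hS := hsys _ he0 (min_le_left _ _) (closedBall 0 (r / P)) _ hw1 fun x hx => by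
    obtain ⟨m, hm, h⟩ := hp _ (LT2_maps b2 t0 t1 hx)
    exact ⟨m, hm, h.pinM hB⟩
  have hEn : En k (fun x => toW (B⁻¹ᵀ * w (y0 + B⁻¹ *ᵥ x) * B⁻¹)) (toW (B⁻¹ᵀ * b * B⁻¹)) 0 (r / P) ≤
      d1 * ‖toW (B⁻¹ᵀ * b * B⁻¹)‖ ^ (k + 2) * (r / P) ^ Fintype.card ι := by
    refine (LT2_int hB' b2 b3 t0 t1 (f := fun z => GM k b (w z))
      (continuous_G k _ ((continuous_toW.comp (LT2_cont hw)).sub continuous_const))
      (fun _ => GM_nonneg _ _ _) (fun _ => G_nonneg _ _ _) (K := Λ ^ (2 * (k + 2)))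
      (by positivity) fun y => GM_congr_le k b2 b _).trans ?_
    have h1 := LT2_fr b1 (B⁻¹ᵀ * b * B⁻¹)
    rw [LT2_cancel hB] at h1
    have h2 := fr_nonneg b
    rw [← hD]
    calc _ ≤ Λ ^ (2 * (k + 2)) * (D * (d1 / (Λ ^ (2 * (k + 2)) * D * (Λ ^ 2) ^ (k + 2) *
          P ^ Fintype.card ι) * (Λ ^ 2 * fr (B⁻¹ᵀ * b * B⁻¹)) ^ (k + 2) * r ^ Fintype.card ι)) := by
          refine mul_le_mul_of_nonneg_left (mul_le_mul_of_nonneg_left (hE.trans ?_) hD0.le)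
            (by positivity)
          gcongr
      _ = _ := by
          rw [mul_pow, div_pow, fr]
          field_simp
  obtain ⟨y1, hy1, hn⟩ := hloc _ (by positivity) (by
    rw [mul_comm]
    exact (le_div_iff₀ hC).1 (min_le_right _ _)) _ _ _ hS 0 (r / P) _ (by positivity) subset_rfl hEn
    (P * s) (by positivity) (by
      rw [le_div_iff₀ hP0]
      rw [le_div_iff₀ (by positivity)] at hsr
      linarith)
  refine ⟨_, LT2_maps b2 t0 t1 hy1, ?_⟩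
  refine (LT2_int hB b1 b2 (c := -(B *ᵥ y0)) (x := y0) (neg_add_cancel _) (ρ' := P * s)
    (by rw [hP]) (f := fun z => fr (B⁻¹ᵀ * w (y0 + B⁻¹ *ᵥ z) * B⁻¹ -
      B⁻¹ᵀ * w (y0 + B⁻¹ *ᵥ y1) * B⁻¹)) (continuous_fr.comp ((LT2_cont hw1).sub continuous_const))
    (fun _ => fr_nonneg _) (fun _ => fr_nonneg _) (K := Λ ^ 2) (by positivity) fun z => ?_).trans ?_
  · have h1 : y0 + B⁻¹ *ᵥ (-(B *ᵥ y0) + B *ᵥ z) = z := by
      rw [mulVec_add, mulVec_neg, mulVec_mulVec, mulVec_mulVec, nonsing_inv_mul _ hBu, one_mulVec,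
        one_mulVec, add_neg_cancel_left]
    rw [h1, ← Matrix.sub_mul, ← Matrix.mul_sub]
    have h2 := LT2_fr b1 (B⁻¹ᵀ * (w z - w (y0 + B⁻¹ *ᵥ y1)) * B⁻¹)
    rwa [LT2_cancel hB] at h2
  · have h1 : ‖toW (B⁻¹ᵀ * w (y0 + B⁻¹ *ᵥ y1) * B⁻¹)‖ ≤ _ := LT2_fr b2 (w (y0 + B⁻¹ *ᵥ y1))
    rw [← hD]
    calc _ ≤ Λ ^ 2 * (D * (c / (Λ ^ 2 * D * Λ ^ 2 * P ^ Fintype.card ι) *
          (Λ ^ 2 * fr (w (y0 + B⁻¹ *ᵥ y1))) * (P * s) ^ Fintype.card ι)) := by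
          refine mul_le_mul_of_nonneg_left (mul_le_mul_of_nonneg_left (le_trans hn ?_) hD0.le)
            (by positivity)
          gcongr
      _ = _ := by
          rw [mul_pow]
          field_simp

end Pool.Agent.Work.MP_bf98aa_gt.Mf
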