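import Pool.Agent.Work.MP_bf98aa_gt.Mf.Energy
import Pool.Agent.Work.MP_bf98aa_gt.Mf.LT2

/-!
Closeness to constant forms at all small scales.

PLAN. near_of_energy: near_of_energy_W (LocIter.lean) for toW ∘ w. exists_isExt: exists_ext with radius 4 r p, choose.
near_all: Λ from unif_metric; d, e0, L from local_thm_M; d' from near_of_energy; ρ1 from energy_small with min d d'; η = min (1/2) (e0 / 64) and ρ2 from
unif_cont for g with η / Λ^2; ρ3 from exists_rad; ρ0 = min ρ1 ρ2 ρ3 / L. Given ρ ≤ ρ0 take e1 from energy_small with σ = ρ / 2 and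
e = min e1 (e0 / 2). For (i) apply local_thm_M with the metric coef g p y, b = coef w0 p y, the extension V p (exists_isExt), r = L ρ: the cube lies in
cube p 3 (Cover.ball_sub); pinG, pinG_stable, PinG.mono, Bd.nonneg; setIntegral_congr_fun; a = coef w p y', NearAt.congr. (ii) is near_of_energy.
-/

set_option autoImplicit false
set_option linter.unusedSectionVars false

open MeasureTheory Metric Matrix
open scoped Manifold ContDiff

namespace Pool.Agent.Work.MP_bf98aa_gt.Mf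

variable {ι : Type} [Fintype ι] [DecidableEq ι] {M : Type} [TopologicalSpace M]
  [ChartedSpace (ι → ℝ) M] [IsManifold 𝓘(ℝ, ι → ℝ) ∞ M] [T2Space M] [CompactSpace M]

lemma near_of_energy (k : ℕ) {c : ℝ} (hc : 0 < c) : ∃ d : ℝ, 0 < d ∧
    ∀ (w : (ι → ℝ) → Matrix ι ι ℝ) (y : ι → ℝ) (s : ℝ) (b : Matrix ι ι ℝ), 0 < s → 0 < fr b →
    ContinuousOn w (closedBall y s) →
    ∫ z in closedBall y s, GM k b (w z) ≤ d * fr b ^ (k + 2) * s ^ Fintype.card ι →
    NearAt c w y s b := by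
  obtain ⟨d, hd, H⟩ := near_of_energy_W (ι := ι) k hc
  refine ⟨d, hd, fun w y s b hs hb hw hE => ?_⟩
  exact H (fun z => toW (w z)) y s (toW b) hs hb (continuous_toW.comp_continuousOn hw) hE

lemma exists_isExt (A : Cover ι M) {w : Bil ι M} (hw : IsSymplectic w) : ∃ V, IsExt A w V := by
  have h : ∀ p : M, ∃ V : (ι → ℝ) → Matrix ι ι ℝ, p ∈ A.C →
      SymOn Set.univ V ∧ ∀ y ∈ A.cube p 4, V y = coef w p y := by
    intro p
    by_cases hp : p ∈ A.C
    · have hr := A.pos p hp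
      obtain ⟨V, h1, h2⟩ := exists_ext (chartAt (ι → ℝ) p).open_target (hw.symOn p)
        (y0 := chartAt (ι → ℝ) p p) (r := 4 * A.r p) (by positivity)
        (by rw [show 2 * (4 * A.r p) = 8 * A.r p by ring]; exact A.sub p hp)
      exact ⟨V, fun _ => ⟨h1, h2⟩⟩
    · exact ⟨fun _ => 0, fun h => absurd h hp⟩
  choose V hV using h
  exact ⟨V, hV⟩

lemma near_all (k : ℕ) (hN : Fintype.card ι = 2 * (k + 2)) (A : Cover ι M) {g w0 : Bil ι M}
    (hg : IsMetric g) (hw0 : IsSymplectic w0) (hp0 : IsPinched g 0 w0) {c : ℝ} (hc : 0 < c) :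
    ∃ ρ0 : ℝ, 0 < ρ0 ∧ ∀ ρ : ℝ, 0 < ρ → ρ ≤ ρ0 → ∃ e : ℝ, 0 < e ∧ ∀ w : Bil ι M, IsSymplectic w →
    IsPinched g e w → CohNear g e w w0 → ∀ p ∈ A.C, ∀ y ∈ A.cube p 2, ∀ s : ℝ, 0 < s → s ≤ ρ →
    (∃ (a : Matrix ι ι ℝ) (m : ℝ), 0 < m ∧ PinG (coef g p y) 1 m a ∧ NearAt c (coef w p) y s a) ∧
    (ρ / 2 ≤ s → NearAt c (coef w p) y s (coef w0 p y)) := by
  obtain ⟨Λ, hΛ, HΛ⟩ := unif_metric (by omega) A hg hw0
  obtain ⟨d, e0, L, hd, he0, he01, hL, Hloc⟩ := local_thm_M (ι := ι) k hN hΛ hc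
  obtain ⟨d', hd', Hnear⟩ := near_of_energy (ι := ι) k hc
  obtain ⟨ρ1, hρ1, Hen⟩ := energy_small k hN A hg hw0 hp0 (lt_min hd hd')
  have hΛ0 : 0 < Λ := by linarith
  have hL0 : 0 < L := by linarith
  obtain ⟨η, hη0, hη1, hη2⟩ : ∃ η : ℝ, 0 < η ∧ η ≤ 1 / 2 ∧ η ≤ e0 / 64 :=
    ⟨min (1 / 2) (e0 / 64), lt_min (by norm_num) (by positivity), min_le_left _ _,
      min_le_right _ _⟩
  obtain ⟨ρ2, hρ2, Hc⟩ := unif_cont A hg.1 (η := η / Λ ^ 2) (by positivity)
  obtain ⟨ρ3, hρ3, Hr⟩ := exists_rad A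
  refine ⟨min ρ1 (min ρ2 ρ3) / L, div_pos (lt_min hρ1 (lt_min hρ2 hρ3)) hL0, fun ρ hρ hρ0 => ?_⟩
  have hLρ : L * ρ ≤ min ρ1 (min ρ2 ρ3) := by
    rw [le_div_iff₀ hL0] at hρ0
    linarith
  have hr1 : L * ρ ≤ ρ1 := hLρ.trans (min_le_left _ _)
  have hr2 : L * ρ ≤ ρ2 := hLρ.trans ((min_le_right _ _).trans (min_le_left _ _))
  have hr3 : L * ρ ≤ ρ3 := hLρ.trans ((min_le_right _ _).trans (min_le_right _ _))
  have hρr : ρ ≤ L * ρ := le_mul_of_one_le_left hρ.le hL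
  obtain ⟨e1, he1, Hen1⟩ := Hen (ρ / 2) (by positivity)
  obtain ⟨e, he, hee1, hee0⟩ : ∃ e : ℝ, 0 < e ∧ e ≤ e1 ∧ e ≤ e0 / 2 :=
    ⟨min e1 (e0 / 2), lt_min he1 (by positivity), min_le_left _ _, min_le_right _ _⟩
  refine ⟨e, he, fun w hw hpin hco p hp y hy s hs hsρ => ?_⟩
  have hsub3 : closedBall y (L * ρ) ⊆ A.cube p (2 + 1) := A.ball_sub hy (hr3.trans (Hr p hp))
  have hsub4 : closedBall y (L * ρ) ⊆ A.cube p 4 := hsub3.trans (A.cube_mono hp (by norm_num))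
  have hsubT : closedBall y (L * ρ) ⊆ (chartAt (ι → ℝ) p).target :=
    hsub4.trans (A.cube_sub hp (by norm_num))
  have hy4 : y ∈ A.cube p 4 := A.cube_mono hp (by norm_num) hy
  obtain ⟨hBd, hlow, -⟩ := HΛ p hp y hy4
  have hss : closedBall y s ⊆ closedBall y (L * ρ) := closedBall_subset_closedBall (hsρ.trans hρr)
  have hfr := fr_nonneg (coef w0 p y)
  have hpinz : ∀ z ∈ closedBall y (L * ρ), ∃ m : ℝ, 0 < m ∧
      PinG (coef g p y) e0 m (coef w p z) := by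
    intro z hz
    obtain ⟨m, hm, hP⟩ := IsPinched.pinG hg hw he.le hpin (hsubT hz)
    have hdist : Λ ^ 2 * fr (coef g p z - coef g p y) ≤ η := by
      have h1 := Hc p hp y hy4 z (hsub4 hz) ((mem_closedBall.1 hz).trans hr2)
      rw [le_div_iff₀ (by positivity)] at h1
      linarith
    have hm' : 0 < (1 - η) ^ 2 * m := mul_pos (pow_pos (by linarith) 2) hm
    exact ⟨_, hm', (pinG_stable hBd (hg.posDef (hsubT hz)) hη1 hdist he.le (by linarith) hm
      hP).mono hm'.le hBd.nonneg (by linarith)⟩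
  refine ⟨?_, fun hs2 => ?_⟩
  · obtain ⟨V, hV⟩ := exists_isExt A hw
    obtain ⟨hV1, hV2⟩ := hV p hp
    have hE : ∫ z in closedBall y (L * ρ), GM k (coef w0 p y) (V p z)
        ≤ d * fr (coef w0 p y) ^ (k + 2) * (L * ρ) ^ Fintype.card ι := by
      rw [setIntegral_congr_fun (g := fun z => GM k (coef w0 p y) (coef w p z))
        measurableSet_closedBall fun z hz => by
          show GM k _ (V p z) = GM k _ (coef w p z)
          rw [hV2 z (hsub4 hz)]]
      refine (Hen1 e he.le hee1 w hw hpin hco p hp y hy (L * ρ) (by linarith) hr1).trans ?_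
      have h0 : 0 ≤ L * ρ := by positivity
      gcongr
      exact min_le_left _ _
    obtain ⟨y', hy', hN'⟩ := Hloc (coef g p y) (coef w0 p y) (V p) y (L * ρ) hBd hV1
      (by positivity) (fun z hz => by rw [hV2 z (hsub4 hz)]; exact hpinz z hz) hE s hs
      (by rw [mul_div_cancel_left₀ _ hL0.ne']; exact hsρ)
    obtain ⟨m, hm, hP⟩ := hpinz y' hy'
    refine ⟨coef w p y', m, hm, hP.mono hm.le hBd.nonneg he01, ?_⟩
    rw [hV2 y' (hsub4 hy')] at hN'
    exact hN'.congr fun z hz => (hV2 z (hsub4 (hss hz))).symm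
  · refine Hnear (coef w p) y s (coef w0 p y) hs ((inv_pos.2 hΛ0).trans_le hlow)
      (continuousOn_matrix fun i j => (hw.1 p i j).continuousOn.mono (hss.trans hsubT)) ?_
    refine (Hen1 e he.le hee1 w hw hpin hco p hp y hy s hs2 (hsρ.trans (hρr.trans hr1))).trans ?_
    gcongr
    exact min_le_right _ _

end Pool.Agent.Work.MP_bf98aa_gt.Mf
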