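import Pool.Agent.Work.MP_bf98aa_gt.Mf.MollB
import Pool.Agent.Work.MP_bf98aa_gt.Mf.NearAll

/-!
Cohomologous symplectic forms of small distortion are isotopic to the compatible form.
-/

set_option autoImplicit false
set_option linter.unusedSectionVars false

open MeasureTheory Metric Matrix
open scoped Manifold ContDiff

namespace Pool.Agent.Work.MP_bf98aa_gt.Mf

variable {ι : Type} [Fintype ι] [DecidableEq ι] {M : Type} [TopologicalSpace M]
  [ChartedSpace (ι → ℝ) M] [IsManifold 𝓘(ℝ, ι → ℝ) ∞ M] [T2Space M] [CompactSpace M]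

lemma Final_left (w w0 : Bil ι M) : (1 - (0 : ℝ)) • w + (0 : ℝ) • w0 = w := by
  funext x; ext u v; simp

lemma Final_right (w w0 : Bil ι M) : (1 - (1 : ℝ)) • w + (1 : ℝ) • w0 = w0 := by
  funext x; ext u v; simp

lemma smoothFamily_path {H : ℝ → Bil ι M} (hH : SmoothFamily H) {w0 : Bil ι M}
    (hw0 : IsSymplectic w0) (ρ : ℝ) {lam : ℝ → ℝ} (hl : ContDiff ℝ ∞ lam) :
    SmoothFamily fun t => (1 - lam t) • H (t * ρ) + lam t • w0 := by
  intro p i j
  have h1 : ContDiffOn ℝ ∞ (fun z : ℝ × (ι → ℝ) => coef (H (z.1 * ρ)) p z.2 i j)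
      (Set.univ ×ˢ (chartAt (ι → ℝ) p).target) :=
    (hH p i j).comp (f := fun z : ℝ × (ι → ℝ) => (z.1 * ρ, z.2)) (by fun_prop)
      fun z hz => ⟨trivial, hz.2⟩
  have h2 : ContDiffOn ℝ ∞ (fun z : ℝ × (ι → ℝ) => coef w0 p z.2 i j)
      (Set.univ ×ˢ (chartAt (ι → ℝ) p).target) :=
    (hw0.1 p i j).comp contDiffOn_snd fun z hz => hz.2
  have h3 : ContDiffOn ℝ ∞ (fun z : ℝ × (ι → ℝ) => lam z.1)
      (Set.univ ×ˢ (chartAt (ι → ℝ) p).target) := (hl.comp contDiff_fst).contDiffOn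
  exact ((contDiffOn_const.sub h3).mul h1).add (h3.mul h2)

lemma IsMetric.nonneg {g : Bil ι M} (hg : IsMetric g) (x : M) (u : TangentSpace 𝓘(ℝ, ι → ℝ) x) :
    0 ≤ g x u u := by
  rcases eq_or_ne u 0 with rfl | h
  · simp
  · exact (hg.2.2 x u h).le

lemma IsPinched.mono {g w : Bil ι M} (hg : IsMetric g) {e e' : ℝ} (h : IsPinched g e w)
    (he : e ≤ e') : IsPinched g e' w := fun x => by
  obtain ⟨m, hm, h1, h2⟩ := h x
  exact ⟨m, hm, fun u v => (h1 u v).trans (mul_le_mul_of_nonneg_right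
    (mul_le_mul_of_nonneg_right (by linarith) hm.le)
    (mul_nonneg (hg.nonneg x u) (hg.nonneg x v))), h2⟩

lemma IsClose.mono {g w w' : Bil ι M} (hg : IsMetric g) {e e' : ℝ} (h : IsClose g e w w')
    (h0 : 0 ≤ e) (he : e ≤ e') : IsClose g e' w w' := fun x u v =>
  (h x u v).trans (mul_le_mul_of_nonneg_right (pow_le_pow_left₀ h0 he 2)
    (mul_nonneg (hg.nonneg x u) (hg.nonneg x v)))

theorem qc_moser_near (k : ℕ) (hN : Fintype.card ι = 2 * (k + 2)) {g w0 : Bil ι M}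
    (hg : IsMetric g) (hw0 : IsSymplectic w0) (hp0 : IsPinched g 0 w0) : ∃ e : ℝ, 0 < e ∧
    ∀ w w1 : Bil ι M, IsSymplectic w → IsSymplectic w1 → IsClose g e w1 w0 → IsPinched g e w →
    Cohomologous w w1 → ∃ H : ℝ → Bil ι M, SmoothFamily H ∧ H 0 = w ∧ H 1 = w1 ∧
      ∀ t ∈ Set.Icc (0 : ℝ) 1, IsSymplectic (H t) ∧ Cohomologous (H t) w1 := by
  obtain ⟨A⟩ := exists_cover (ι := ι) (M := M)
  obtain ⟨χ⟩ := exists_part A le_rfl one_lt_two (by norm_num)
  obtain ⟨P⟩ := exists_prof (ι := ι)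
  obtain ⟨Λ, hΛ1, hΛ⟩ := unif_metric (by omega) A hg hw0
  obtain ⟨c1, hc1, hdet⟩ := det_ne_zero_of_nearG (ι := ι) Λ
  obtain ⟨c, ρ1, hc, hρ1, hmoll⟩ := moll_near χ P hc1
  obtain ⟨ρ0, hρ0, hnear⟩ := near_all k hN A hg hw0 hp0 hc
  obtain ⟨ρ, hρ, hρa, hρb⟩ : ∃ ρ : ℝ, 0 < ρ ∧ ρ ≤ ρ0 ∧ ρ ≤ ρ1 :=
    ⟨min _ _, lt_min hρ0 hρ1, min_le_left _ _, min_le_right _ _⟩
  obtain ⟨e1, he1, hnear⟩ := hnear ρ hρ hρa
  have Λ0 : 0 < Λ := by linarith
  obtain ⟨e, he, hea, heb⟩ : ∃ e : ℝ, 0 < e ∧ e ≤ e1 ∧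
      e ≤ c1 * Λ⁻¹ / ((Fintype.card ι : ℝ) ^ 2 * Λ ^ 2 + 1) :=
    ⟨min _ _, lt_min he1 (by positivity), min_le_left _ _, min_le_right _ _⟩
  rw [le_div_iff₀ (by positivity)] at heb
  refine ⟨e, he, fun w w1 hw hw1 hcl hp hco => ?_⟩
  replace hnear := hnear w hw (hp.mono hg hea) ⟨w1, hw1, hcl.mono hg he.le hea, hco⟩
  obtain ⟨V, hV⟩ := exists_isExt A hw
  have h0 : (1 - Real.smoothTransition (2 * 0 - 1)) • moll χ P V w (0 * ρ)
      + Real.smoothTransition (2 * 0 - 1) • w1 = w := by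
    rw [Real.smoothTransition.zero_of_nonpos (by norm_num), zero_mul, moll_zero, Final_left]
  refine ⟨fun t => (1 - Real.smoothTransition (2 * t - 1)) • moll χ P V w (t * ρ)
    + Real.smoothTransition (2 * t - 1) • w1, smoothFamily_path (moll_smooth χ P hw hV) hw1 ρ
      (Real.smoothTransition.contDiff.comp (by fun_prop)), h0, ?_, fun t ht => ?_⟩
  · show (1 - Real.smoothTransition (2 * 1 - 1)) • moll χ P V w (1 * ρ)
      + Real.smoothTransition (2 * 1 - 1) • w1 = w1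
    rw [Real.smoothTransition.one_of_one_le (by norm_num), Final_right]
  have hc2 := ((moll_coh χ P hV (t * ρ)).trans hco).interp (Real.smoothTransition (2 * t - 1))
  refine ⟨?_, hc2⟩
  rcases ht.1.eq_or_lt with rfl | ht0
  · show IsSymplectic (_ + _)
    rw [h0]; exact hw
  refine symplectic_of_exact hw1 hc2 fun x => ?_
  obtain ⟨q, hq, hx, hy⟩ := A.cover x
  refine ⟨q, hx, ?_⟩
  beta_reduce
  generalize chartAt (ι → ℝ) q x = y at hy
  have hy2 : y ∈ A.cube q 2 := A.cube_mono hq one_le_two (by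
    unfold Cover.cube; rw [one_mul]; exact ball_subset_closedBall hy)
  have hy4 : y ∈ A.cube q 4 := A.cube_mono hq (by norm_num) hy2
  have hs : 0 < t * ρ := mul_pos ht0 hρ
  have hs1 : t * ρ ≤ ρ := mul_le_of_le_one_left hρ.le ht.2
  have hm := hmoll w V hw hV _ hs (hs1.trans hρb) (fun p hp z hz σ h1 h2 => by
    obtain ⟨a, -, -, -, h⟩ := (hnear p hp z hz σ h1 (h2.trans hs1)).1
    exact ⟨a, h⟩) q hq y hy2
  obtain ⟨⟨a, m, hm0, ha, ha'⟩, hb⟩ := hnear q hq y hy2 _ hs hs1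
  obtain ⟨b1, b2, -⟩ := hΛ q hq y hy4
  rcases le_total t (1 / 2) with h | h
  · rw [Real.smoothTransition.zero_of_nonpos (x := 2 * t - 1) (by linarith), Final_left]
    exact hdet _ a _ m b1 hm0 ha (hm a ha')
  · obtain ⟨m0, hm1, hm2⟩ := hp0.pinG hg hw0 le_rfl (A.cube_sub hq (by norm_num) hy4)
    refine hdet _ (coef w0 q y) _ m0 b1 hm1 (hm2.mono hm1.le b1.nonneg zero_le_one) ?_
    have e1 : coef ((1 - Real.smoothTransition (2 * t - 1)) • moll χ P V w (t * ρ)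
        + Real.smoothTransition (2 * t - 1) • w1) q y - coef w0 q y
        = (1 - Real.smoothTransition (2 * t - 1)) •
          (coef (moll χ P V w (t * ρ)) q y - coef w0 q y)
          + Real.smoothTransition (2 * t - 1) • (coef w1 q y - coef w0 q y) := by
      rw [coef_add, coef_smul, coef_smul]
      module
    have l0 := Real.smoothTransition.nonneg (2 * t - 1)
    have l1 := Real.smoothTransition.le_one (2 * t - 1)
    have l2 := hm _ (hb (by nlinarith))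
    have l3 : fr (coef w1 q y - coef w0 q y) ≤ c1 * fr (coef w0 q y) := by
      have := mul_le_mul_of_nonneg_left b2 hc1.le
      linarith [hcl.fr_le he.le b1]
    rw [e1]
    refine (fr_add_le _ _).trans ?_
    rw [fr_smul, fr_smul, abs_of_nonneg l0, abs_of_nonneg (by linarith)]
    nlinarith [mul_le_mul_of_nonneg_left l3 l0, mul_le_mul_of_nonneg_left l2 (sub_nonneg.2 l1)]

lemma IsSymplectic.smul {w : Bil ι M} (h : IsSymplectic w) {c : ℝ} (hc : c ≠ 0) :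
    IsSymplectic (c • w) := by
  refine ⟨fun p i j => contDiffOn_const.mul (h.1 p i j), fun x u v => ?_, fun x u hu => ?_,
    fun p y hy i j l => ?_⟩
  · show c * w x u v = -(c * w x v u)
    rw [h.2.1 x u v, mul_neg]
  · exact h.2.2.1 x u fun v => (mul_eq_zero.1 (hu v)).resolve_left hc
  · have d : ∀ i j l, pd i (fun z => coef (c • w) p z j l) y = c * pd i (fun z => coef w p z j l) y :=
      fun i j l => pd_const_mul (((h.1 p j l).contDiffAt
        ((chartAt (ι → ℝ) p).open_target.mem_nhds hy)).differentiableAt (by simp)) c i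
    rw [d, d, d, ← mul_add, ← mul_add, h.2.2.2 p y hy, mul_zero]

lemma IsPinched.smul {g w : Bil ι M} {e : ℝ} (h : IsPinched g e w) {c : ℝ} (hc : c ≠ 0) :
    IsPinched g e (c • w) := fun x => by
  obtain ⟨m, hm, h1, h2⟩ := h x
  have c2 : 0 < c ^ 2 := by positivity
  refine ⟨c ^ 2 * m, by positivity, fun u v => ?_, fun u hu => ?_⟩
  · show (c * w x u v) ^ 2 ≤ _
    nlinarith [mul_le_mul_of_nonneg_left (h1 u v) c2.le]
  · obtain ⟨v, hv, h3⟩ := h2 u hu
    refine ⟨v, hv, ?_⟩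
    show _ ≤ (c * w x u v) ^ 2
    nlinarith [mul_le_mul_of_nonneg_left h3 c2.le]

lemma Cohomologous.smul {w w' : Bil ι M} (h : Cohomologous w w') (c : ℝ) :
    Cohomologous (c • w) (c • w') := by
  obtain ⟨a, ha, h⟩ := h
  refine ⟨c • a, fun p i => contDiffOn_const.mul (ha p i), fun p y hy i j => ?_⟩
  have d : ∀ i j, pd i (fun z => coef1 (c • a) p z j) y = c * pd i (fun z => coef1 a p z j) y :=
    fun i j => pd_const_mul (((ha p j).contDiffAt
      ((chartAt (ι → ℝ) p).open_target.mem_nhds hy)).differentiableAt (by simp)) c i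
  rw [d, d, ← mul_sub, ← h p y hy, mul_sub]
  rfl

lemma Final_cancel (w : Bil ι M) {c : ℝ} (hc : c ≠ 0) : c⁻¹ • c • w = w := by
  funext x; ext u v; simp [hc]

theorem qc_moser (k : ℕ) (hN : Fintype.card ι = 2 * (k + 2)) {g w0 : Bil ι M}
    (hg : IsMetric g) (hw0 : IsSymplectic w0) (hp0 : IsPinched g 0 w0) : ∃ e : ℝ, 0 < e ∧
    ∀ (c : ℝ) (w w1 : Bil ι M), c ≠ 0 → IsSymplectic w → IsSymplectic w1 →
    IsClose g e (c • w1) w0 → IsPinched g e w → Cohomologous w w1 →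
    ∃ H : ℝ → Bil ι M, SmoothFamily H ∧ H 0 = w ∧ H 1 = w1 ∧
      ∀ t ∈ Set.Icc (0 : ℝ) 1, IsSymplectic (H t) ∧ Cohomologous (H t) w1 := by
  obtain ⟨e, he, h⟩ := qc_moser_near k hN hg hw0 hp0
  refine ⟨e, he, fun c w w1 hc hw hw1 hcl hp hco => ?_⟩
  obtain ⟨H, h1, h2, h3, h4⟩ := h _ _ (hw.smul hc) (hw1.smul hc) hcl (hp.smul hc) (hco.smul c)
  refine ⟨fun t => c⁻¹ • H t, fun p i j => contDiffOn_const.mul (h1 p i j), ?_, ?_,
    fun t ht => ⟨(h4 t ht).1.smul (inv_ne_zero hc), ?_⟩⟩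
  · show c⁻¹ • H 0 = w
    rw [h2, Final_cancel w hc]
  · show c⁻¹ • H 1 = w1
    rw [h3, Final_cancel w1 hc]
  · have := (h4 t ht).2.smul c⁻¹
    rwa [Final_cancel w1 hc] at this

end Pool.Agent.Work.MP_bf98aa_gt.Mf
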