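import Pool.Agent.Work.MP_bf98aa_gt.Mf.Stmt
import Pool.Agent.Work.MP_bf98aa_gt.Mf.Final

/-!
The compact definitions agree with the working definitions.
-/

set_option autoImplicit false
set_option linter.unusedSectionVars false

open scoped Manifold ContDiff

namespace Pool.Agent.Work.MP_bf98aa_gt.St

variable {ι : Type} [Fintype ι] [DecidableEq ι] {M : Type} [TopologicalSpace M]
  [ChartedSpace (ι → ℝ) M]

/-- The identity map to the working type. -/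
def toMf (w : Bil (ι → ℝ) M) : Mf.Bil ι M := w

lemma symp_iff (w : Bil (ι → ℝ) M) : IsSymplectic w ↔ Mf.IsSymplectic (toMf w) :=
  ⟨fun h => ⟨h.1, fun x => (h.2.1 x).1, fun x => (h.2.1 x).2, h.2.2⟩,
    fun h => ⟨h.1, fun x => ⟨h.2.1 x, h.2.2.1 x⟩, h.2.2.2⟩⟩

lemma metric_of {g : Bil (ι → ℝ) M} (h : IsMetric g) : Mf.IsMetric (toMf g) :=
  ⟨h.1, fun x => (h.2 x).1, fun x => (h.2 x).2⟩

lemma pinched_of {g w : Bil (ι → ℝ) M} {e : ℝ} (h : IsPinched g e w) :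
    Mf.IsPinched (toMf g) e (toMf w) := h

lemma close_of {g w w' : Bil (ι → ℝ) M} {e c : ℝ} (h : IsClose g e c w w') :
    Mf.IsClose (toMf g) e (c • toMf w) (toMf w') := h

lemma coh_iff (w w' : Bil (ι → ℝ) M) : Cohomologous w w' ↔ Mf.Cohomologous (toMf w) (toMf w') :=
  Iff.rfl

theorem qc_moser [IsManifold 𝓘(ℝ, ι → ℝ) ∞ M] [T2Space M] [CompactSpace M] (k : ℕ)
    (hN : Fintype.card ι = 2 * (k + 2)) {g w0 : Bil (ι → ℝ) M}
    (hg : IsMetric g) (hw0 : IsSymplectic w0) (hp0 : IsPinched g 0 w0) : ∃ e : ℝ, 0 < e ∧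
    ∀ (c : ℝ) (w w1 : Bil (ι → ℝ) M), c ≠ 0 → IsSymplectic w → IsSymplectic w1 →
    IsClose g e c w1 w0 → IsPinched g e w → Cohomologous w w1 →
    ∃ H : ℝ → Bil (ι → ℝ) M, SmoothFamily H ∧ H 0 = w ∧ H 1 = w1 ∧
      ∀ t ∈ Set.Icc (0 : ℝ) 1, IsSymplectic (H t) ∧ Cohomologous (H t) w1 := by
  obtain ⟨e, he, h⟩ := Mf.qc_moser k hN (metric_of hg) ((symp_iff _).1 hw0) (pinched_of hp0)
  refine ⟨e, he, fun c w w1 hc hw hw1 hcl hp hco => ?_⟩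
  obtain ⟨H, h1, h2, h3, h4⟩ := h c _ _ hc ((symp_iff _).1 hw) ((symp_iff _).1 hw1) (close_of hcl)
    (pinched_of hp) ((coh_iff _ _).1 hco)
  exact ⟨H, h1, h2, h3, fun t ht => ⟨(symp_iff _).2 (h4 t ht).1, (coh_iff _ _).2 (h4 t ht).2⟩⟩

end Pool.Agent.Work.MP_bf98aa_gt.St
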