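import Pool.Agent.Work.MP_bf98aa_gt.Main

/-!
Euclidean objects for the local theory: systems on a set, Frobenius norm of matrices, pinching
with respect to a constant metric, the primitive of the mollification.
-/

set_option autoImplicit false
set_option linter.unusedSectionVars false

open MeasureTheory Metric Matrix
open scoped ContDiff RealInnerProductSpace

namespace Pool.Agent.Work.MP_bf98aa_gt.Mf

variable {ι : Type} [Fintype ι] [DecidableEq ι]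

/-- As `Sys`, but the two pointwise smallness conditions hold only on `S`. -/
structure SysOn (S : Set (ι → ℝ)) (k : ℕ) (e : ℝ) (w F : (ι → ℝ) → W ι) : Prop where
  sw : SmoothW w
  sF : SmoothW F
  skw : ∀ x, SkewW (w x)
  skF : ∀ x, SkewW (F x)
  closed : ClosedW w
  coclosed : CoclosedW F
  near : ∀ x ∈ S, ‖F x - ‖w x‖ ^ k • w x‖ ≤ e * ‖w x‖ ^ (k + 1)
  pin : ∀ x ∈ S, PinW e (w x)
  ne : ∀ x, w x ≠ 0

/-- As `Good`, with the base point in the cube. -/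
def GoodIn (k : ℕ) (d : ℝ) (w : (ι → ℝ) → W ι) (x : ι → ℝ) (r : ℝ) : Prop :=
  ∃ y ∈ closedBall x r, En k w (w y) x r ≤ d * ‖w y‖ ^ (k + 2) * r ^ Fintype.card ι

/-- The Frobenius norm. -/
noncomputable def fr (A : Matrix ι ι ℝ) : ℝ := ‖toW A‖

/-- The Frobenius pairing. -/
def ip (A B : Matrix ι ι ℝ) : ℝ := ∑ i, ∑ j, A i j * B i j

/-- The energy weight for matrices. -/
noncomputable def GM (k : ℕ) (b A : Matrix ι ι ℝ) : ℝ := G k (toW b) (toW A - toW b)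

/-- Pinching of one matrix with respect to the constant metric `g`. -/
def PinG (g : Matrix ι ι ℝ) (e m : ℝ) (A : Matrix ι ι ℝ) : Prop :=
  ∀ v : ι → ℝ, m * (v ⬝ᵥ g *ᵥ v) ≤ (A *ᵥ v) ⬝ᵥ g⁻¹ *ᵥ (A *ᵥ v) ∧
    (A *ᵥ v) ⬝ᵥ g⁻¹ *ᵥ (A *ᵥ v) ≤ (1 + e) * m * (v ⬝ᵥ g *ᵥ v)

/-- The metric `g` has a factorisation with bounded factors. -/
def Bd (Λ : ℝ) (g : Matrix ι ι ℝ) : Prop :=
  ∃ B : Matrix ι ι ℝ, B.det ≠ 0 ∧ g = Bᵀ * B ∧ fr B ≤ Λ ∧ fr B⁻¹ ≤ Λ

/-- A symplectic form on an open subset of the Euclidean space. -/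
structure SymOn (U : Set (ι → ℝ)) (w : (ι → ℝ) → Matrix ι ι ℝ) : Prop where
  smooth : ∀ i j, ContDiffOn ℝ ∞ (fun y => w y i j) U
  skew : ∀ y ∈ U, (w y)ᵀ = -w y
  det : ∀ y ∈ U, (w y).det ≠ 0
  closed : ∀ y ∈ U, ∀ i j l, pd i (fun z => w z j l) y + pd j (fun z => w z l i) y
    + pd l (fun z => w z i j) y = 0

/-- The coclosed companion of a nondegenerate form. -/
noncomputable def Fm (k : ℕ) (A : Matrix ι ι ℝ) : Matrix ι ι ℝ :=
  (-(√(Fintype.card ι : ℝ) ^ k * dens A)) • A⁻¹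

/-- The exterior derivative of a 1-form. -/
noncomputable def dM (b : (ι → ℝ) → ι → ℝ) (y : ι → ℝ) : Matrix ι ι ℝ :=
  Matrix.of fun i j => pd i (fun z => b z j) y - pd j (fun z => b z i) y

/-- The Jacobian matrix. -/
noncomputable def jacM (τ : (ι → ℝ) → ι → ℝ) (y : ι → ℝ) : Matrix ι ι ℝ :=
  Matrix.of fun i j => pd j (fun z => τ z i) y

/-- The entrywise weighted mean. -/
noncomputable def avM (P : Prof ι) (w : (ι → ℝ) → Matrix ι ι ℝ) (y : ι → ℝ) (s : ℝ) :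
    Matrix ι ι ℝ :=
  Matrix.of fun i j => av P.p0 (fun z => w z i j) y s

/-- A primitive of `avM P w · s - w` for closed `w`. -/
noncomputable def beta (P : Prof ι) (w : (ι → ℝ) → Matrix ι ι ℝ) (s : ℝ) (y : ι → ℝ) (l : ι) : ℝ :=
  ∫ σ in (0 : ℝ)..s, ∑ m, av (fun v => v m * P.p0 v) (fun z => w z m l) y σ

/-- `w` is close to `a` in the mean on the cube of radius `s` around `y`. -/
def NearAt (c : ℝ) (w : (ι → ℝ) → Matrix ι ι ℝ) (y : ι → ℝ) (s : ℝ) (a : Matrix ι ι ℝ) : Prop :=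
  ∫ z in closedBall y s, fr (w z - a) ≤ c * fr a * s ^ Fintype.card ι

lemma toW_add (A B : Matrix ι ι ℝ) : toW (A + B) = toW A + toW B := rfl
lemma toW_sub (A B : Matrix ι ι ℝ) : toW (A - B) = toW A - toW B := rfl
lemma toW_smul (c : ℝ) (A : Matrix ι ι ℝ) : toW (c • A) = c • toW A := rfl
lemma toW_neg (A : Matrix ι ι ℝ) : toW (-A) = -toW A := rfl
lemma toW_zero : toW (0 : Matrix ι ι ℝ) = 0 := rfl

lemma fr_nonneg (A : Matrix ι ι ℝ) : 0 ≤ fr A := norm_nonneg _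
lemma fr_zero : fr (0 : Matrix ι ι ℝ) = 0 := by rw [fr, toW_zero, norm_zero]
lemma fr_add_le (A B : Matrix ι ι ℝ) : fr (A + B) ≤ fr A + fr B := norm_add_le (toW A) (toW B)
lemma fr_sub_le (A B : Matrix ι ι ℝ) : fr (A - B) ≤ fr A + fr B := norm_sub_le (toW A) (toW B)
lemma fr_neg (A : Matrix ι ι ℝ) : fr (-A) = fr A := norm_neg (toW A)
lemma fr_sub_comm (A B : Matrix ι ι ℝ) : fr (A - B) = fr (B - A) := norm_sub_rev (toW A) (toW B)
lemma fr_smul (c : ℝ) (A : Matrix ι ι ℝ) : fr (c • A) = |c| * fr A := by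
  rw [fr, toW_smul, norm_smul, Real.norm_eq_abs, fr]
lemma abs_le_fr (A : Matrix ι ι ℝ) (i j : ι) : |A i j| ≤ fr A := abs_apply_le (toW A) (i, j)
lemma fr_le_card {A : Matrix ι ι ℝ} {c : ℝ} (h : ∀ i j, |A i j| ≤ c) :
    fr A ≤ (Fintype.card ι : ℝ) ^ 2 * c := norm_le_card_mul _ fun p => h p.1 p.2

lemma fr_sum_le {κ : Type} (t : Finset κ) (A : κ → Matrix ι ι ℝ) :
    fr (∑ c ∈ t, A c) ≤ ∑ c ∈ t, fr (A c) := by
  classical
  induction t using Finset.induction_on with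
  | empty => simp [fr_zero]
  | insert c t hc ih =>
    rw [Finset.sum_insert hc, Finset.sum_insert hc]
    exact (fr_add_le _ _).trans (by linarith)

lemma fr_sq (A : Matrix ι ι ℝ) : fr A ^ 2 = ∑ i, ∑ j, A i j ^ 2 := by
  rw [fr, EuclideanSpace.real_norm_sq_eq, Fintype.sum_prod_type]
  rfl

lemma fr_transpose (A : Matrix ι ι ℝ) : fr Aᵀ = fr A := by
  refine (pow_left_inj₀ (fr_nonneg _) (fr_nonneg _) two_ne_zero).1 ?_
  rw [fr_sq, fr_sq, Finset.sum_comm]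
  rfl

lemma fr_mul_le (A B : Matrix ι ι ℝ) : fr (A * B) ≤ fr A * fr B := by
  refine le_of_pow_le_pow_left₀ two_ne_zero (mul_nonneg (fr_nonneg _) (fr_nonneg _)) ?_
  rw [mul_pow, fr_sq, fr_sq, fr_sq, Finset.sum_comm (f := fun i j => B i j ^ 2),
    Finset.sum_mul_sum]
  refine Finset.sum_le_sum fun i _ => Finset.sum_le_sum fun j _ => ?_
  rw [Matrix.mul_apply]
  exact Finset.sum_mul_sq_le_sq_mul_sq _ _ _

lemma fr_congr_le (C A : Matrix ι ι ℝ) : fr (Cᵀ * A * C) ≤ fr C ^ 2 * fr A := by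
  calc _ ≤ fr (Cᵀ * A) * fr C := fr_mul_le _ _
    _ ≤ fr Cᵀ * fr A * fr C := mul_le_mul_of_nonneg_right (fr_mul_le _ _) (fr_nonneg _)
    _ = _ := by rw [fr_transpose]; ring

lemma mulVec_sq_le (A : Matrix ι ι ℝ) (v : ι → ℝ) :
    (A *ᵥ v) ⬝ᵥ (A *ᵥ v) ≤ fr A ^ 2 * (v ⬝ᵥ v) := by
  rw [fr_sq, Finset.sum_mul, dotProduct]
  refine Finset.sum_le_sum fun i _ => ?_
  have := Finset.sum_mul_sq_le_sq_mul_sq Finset.univ (fun j => A i j) v
  simpa only [mulVec, dotProduct, pow_two] using this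

lemma norm_mulVec_le (A : Matrix ι ι ℝ) (v : ι → ℝ) :
    ‖A *ᵥ v‖ ≤ Fintype.card ι * fr A * ‖v‖ := by
  have h0 := fr_nonneg A
  refine (pi_norm_le_iff_of_nonneg (by positivity)).2 fun i => ?_
  rw [Real.norm_eq_abs, mulVec, dotProduct]
  refine (Finset.abs_sum_le_sum_abs _ _).trans ?_
  calc ∑ j, |A i j * v j| ≤ ∑ _j : ι, fr A * ‖v‖ := Finset.sum_le_sum fun j _ => by
        rw [abs_mul]
        exact mul_le_mul (abs_le_fr A i j) (norm_le_pi_norm v j) (abs_nonneg _) h0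
    _ = _ := by simp [mul_assoc]

lemma ip_eq_inner (A B : Matrix ι ι ℝ) : ip A B = ⟪toW A, toW B⟫ := by
  rw [inner_eq]; rfl

lemma continuous_toW : Continuous (toW : Matrix ι ι ℝ → W ι) :=
  (PiLp.continuous_toLp 2 _).comp (continuous_pi fun p => (continuous_apply p.2).comp
    (continuous_apply p.1))

lemma continuous_fr : Continuous (fr : Matrix ι ι ℝ → ℝ) := continuous_toW.norm

lemma continuousOn_matrix {X : Type} [TopologicalSpace X] {w : X → Matrix ι ι ℝ} {s : Set X}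
    (h : ∀ i j, ContinuousOn (fun y => w y i j) s) : ContinuousOn w s :=
  continuousOn_pi.2 fun i => continuousOn_pi.2 fun j => h i j

lemma GM_nonneg (k : ℕ) (b A : Matrix ι ι ℝ) : 0 ≤ GM k b A := G_nonneg _ _ _

lemma PinG.mono {g : Matrix ι ι ℝ} {e e' m : ℝ} {A : Matrix ι ι ℝ} (h : PinG g e m A)
    (hm : 0 ≤ m) (hg : ∀ v, 0 ≤ v ⬝ᵥ g *ᵥ v) (he : e ≤ e') : PinG g e' m A := fun v =>
  ⟨(h v).1, (h v).2.trans (mul_le_mul_of_nonneg_right
    (mul_le_mul_of_nonneg_right (by linarith) hm) (hg v))⟩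

lemma pd_congr {f g : (ι → ℝ) → ℝ} {y : ι → ℝ} (h : f =ᶠ[nhds y] g) (i : ι) :
    pd i f y = pd i g y := by
  unfold pd; rw [h.fderiv_eq]

lemma NearAt.congr {c : ℝ} {w w' : (ι → ℝ) → Matrix ι ι ℝ} {y : ι → ℝ} {s : ℝ}
    {a : Matrix ι ι ℝ} (h : NearAt c w y s a) (he : ∀ z ∈ closedBall y s, w' z = w z) :
    NearAt c w' y s a := by
  unfold NearAt at h ⊢
  rwa [setIntegral_congr_fun measurableSet_closedBall fun z hz => by rw [he z hz]]

end Pool.Agent.Work.MP_bf98aa_gt.Mf
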