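import Pool.Agent.Work.MP_bf98aa_gt.Mf.Defs
import Pool.Agent.Work.MP_bf98aa_gt.Mf.Euc

/-!
Transition maps, fields given by their coefficients in one chart, finite covers by cubes.
-/

set_option autoImplicit false
set_option linter.unusedSectionVars false

open MeasureTheory Metric Matrix
open scoped Manifold ContDiff

namespace Pool.Agent.Work.MP_bf98aa_gt.Mf

/-- The domain of the transition map from the chart at `p` to the chart at `q`. -/
def dom (ι : Type) [Fintype ι] {M : Type} [TopologicalSpace M] [ChartedSpace (ι → ℝ) M]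
    (p q : M) : Set (ι → ℝ) :=
  (chartAt (ι → ℝ) p).target ∩ (chartAt (ι → ℝ) p).symm ⁻¹' (chartAt (ι → ℝ) q).source

/-- A finite cover by coordinate cubes. -/
structure Cover (ι : Type) [Fintype ι] (M : Type) [TopologicalSpace M]
    [ChartedSpace (ι → ℝ) M] where
  C : Finset M
  r : M → ℝ
  pos : ∀ p ∈ C, 0 < r p
  sub : ∀ p ∈ C, closedBall (chartAt (ι → ℝ) p p) (8 * r p) ⊆ (chartAt (ι → ℝ) p).target
  cover : ∀ x, ∃ p ∈ C, x ∈ (chartAt (ι → ℝ) p).source ∧
    chartAt (ι → ℝ) p x ∈ ball (chartAt (ι → ℝ) p p) (r p)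

variable {ι : Type} [Fintype ι] [DecidableEq ι] {M : Type} [TopologicalSpace M]
  [ChartedSpace (ι → ℝ) M]

/-- The transition map. -/
noncomputable def tr (p q : M) (y : ι → ℝ) : ι → ℝ :=
  chartAt (ι → ℝ) q ((chartAt (ι → ℝ) p).symm y)

/-- The Jacobian matrix of the transition map. -/
noncomputable def jac (p q : M) (y : ι → ℝ) : Matrix ι ι ℝ := jacM (tr p q) y

/-- The `i`-th coordinate differential of the chart at `c`. -/
noncomputable def cdif (c : M) (x : M) (i : ι) : TangentSpace 𝓘(ℝ, ι → ℝ) x →L[ℝ] ℝ :=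
  (ContinuousLinearMap.proj (R := ℝ) (φ := fun _ : ι => ℝ) i).comp
    (mfderiv 𝓘(ℝ, ι → ℝ) 𝓘(ℝ, ι → ℝ) (chartAt (ι → ℝ) c) x)

open Classical in
/-- The 1-form with coefficients `b` in the chart at `c`, zero outside the chart. -/
noncomputable def unc1 (c : M) (b : (ι → ℝ) → ι → ℝ) : Cov ι M := fun x =>
  if x ∈ (chartAt (ι → ℝ) c).source then ∑ i, b (chartAt (ι → ℝ) c x) i • cdif c x i else 0

open Classical in
/-- The bilinear field with coefficients `K` in the chart at `c`, zero outside the chart. -/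
noncomputable def unc2 (c : M) (K : (ι → ℝ) → Matrix ι ι ℝ) : Bil ι M := fun x =>
  if x ∈ (chartAt (ι → ℝ) c).source then
    ∑ i, ∑ j, K (chartAt (ι → ℝ) c x) i j • (cdif c x i).smulRight (cdif c x j) else 0

/-- A function read in the chart at `p`. -/
noncomputable def loc (f : M → ℝ) (p : M) (y : ι → ℝ) : ℝ := f ((chartAt (ι → ℝ) p).symm y)

open Classical in
/-- A function read in the chart at `p` and extended by zero. -/
noncomputable def ext (f : M → ℝ) (p : M) (y : ι → ℝ) : ℝ :=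
  if y ∈ (chartAt (ι → ℝ) p).target then f ((chartAt (ι → ℝ) p).symm y) else 0

/-- The cube of radius `a * r p` in the chart at `p`. -/
def Cover.cube (A : Cover ι M) (p : M) (a : ℝ) : Set (ι → ℝ) :=
  closedBall (chartAt (ι → ℝ) p p) (a * A.r p)

/-- A smooth partition of unity, supported in the cubes of size `b` and bounded below on the cubes
of size `a`. -/
structure Part (A : Cover ι M) (a b : ℝ) where
  χ : M → M → ℝ
  smooth : ∀ p, ContMDiff 𝓘(ℝ, ι → ℝ) 𝓘(ℝ, ℝ) ∞ (χ p)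
  nonneg : ∀ p x, 0 ≤ χ p x
  sum : ∀ x, ∑ p ∈ A.C, χ p x = 1
  supp : ∀ p ∈ A.C, ∀ x, χ p x ≠ 0 →
    x ∈ (chartAt (ι → ℝ) p).source ∧ chartAt (ι → ℝ) p x ∈ A.cube p b
  low : ∀ p ∈ A.C, ∀ x ∈ (chartAt (ι → ℝ) p).source, chartAt (ι → ℝ) p x ∈ A.cube p a →
    (A.C.card : ℝ)⁻¹ ≤ χ p x

/-- Global extensions of the coefficients of `w` from the cubes of size `4`. -/
def IsExt (A : Cover ι M) (w : Bil ι M) (V : M → (ι → ℝ) → Matrix ι ι ℝ) : Prop :=
  ∀ p ∈ A.C, SymOn Set.univ (V p) ∧ ∀ y ∈ A.cube p 4, V p y = coef w p y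

section
variable {A : Cover ι M} (χ : Part A 1 2) (P : Prof ι) (V : M → (ι → ℝ) → Matrix ι ι ℝ)

/-- The localised primitive. -/
noncomputable def bb (p : M) (s : ℝ) (y : ι → ℝ) (l : ι) : ℝ :=
  ext (χ.χ p) p y * beta P (V p) s y l

/-- The error term of the localisation. -/
noncomputable def rem (p : M) (s : ℝ) (y : ι → ℝ) : Matrix ι ι ℝ :=
  Matrix.of fun i j => pd i (ext (χ.χ p) p) y * beta P (V p) s y j
    - pd j (ext (χ.χ p) p) y * beta P (V p) s y i

/-- The mollification of `w` at scale `s` inside its cohomology class. -/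
noncomputable def moll (w : Bil ι M) (s : ℝ) : Bil ι M :=
  w + ∑ p ∈ A.C, unc2 p (dM (bb χ P V p s))

end

lemma Cover.cube_mono (A : Cover ι M) {p : M} (hp : p ∈ A.C) {a b : ℝ} (h : a ≤ b) :
    A.cube p a ⊆ A.cube p b :=
  closedBall_subset_closedBall (mul_le_mul_of_nonneg_right h (A.pos p hp).le)

lemma Cover.cube_sub (A : Cover ι M) {p : M} (hp : p ∈ A.C) {a : ℝ} (h : a ≤ 8) :
    A.cube p a ⊆ (chartAt (ι → ℝ) p).target :=
  (A.cube_mono hp h).trans (A.sub p hp)

lemma Cover.isCompact_cube (A : Cover ι M) (p : M) (a : ℝ) : IsCompact (A.cube p a) :=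
  isCompact_closedBall _ _

lemma Cover.ball_sub (A : Cover ι M) {p : M} {a s : ℝ} {y : ι → ℝ} (hy : y ∈ A.cube p a)
    (hs : s ≤ A.r p) : closedBall y s ⊆ A.cube p (a + 1) :=
  closedBall_subset_closedBall' (by
    have : dist y (chartAt (ι → ℝ) p p) ≤ a * A.r p := hy
    linarith)

lemma coef_add (w w' : Bil ι M) (p : M) (y : ι → ℝ) :
    coef (w + w') p y = coef w p y + coef w' p y := rfl

lemma coef_sub (w w' : Bil ι M) (p : M) (y : ι → ℝ) :
    coef (w - w') p y = coef w p y - coef w' p y := rfl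

lemma coef_smul (c : ℝ) (w : Bil ι M) (p : M) (y : ι → ℝ) :
    coef (c • w) p y = c • coef w p y := rfl

lemma coef_zero (p : M) (y : ι → ℝ) : coef (0 : Bil ι M) p y = 0 := rfl

lemma coef_sum {κ : Type} (t : Finset κ) (w : κ → Bil ι M) (p : M) (y : ι → ℝ) :
    coef (∑ c ∈ t, w c) p y = ∑ c ∈ t, coef (w c) p y := by
  classical
  induction t using Finset.induction_on with
  | empty => simp [coef_zero]
  | insert c t hc ih => rw [Finset.sum_insert hc, Finset.sum_insert hc, coef_add, ih]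

lemma coef1_add (a a' : Cov ι M) (p : M) (y : ι → ℝ) :
    coef1 (a + a') p y = coef1 a p y + coef1 a' p y := rfl

lemma coef1_smul (c : ℝ) (a : Cov ι M) (p : M) (y : ι → ℝ) :
    coef1 (c • a) p y = c • coef1 a p y := rfl

lemma coef1_zero (p : M) (y : ι → ℝ) : coef1 (0 : Cov ι M) p y = 0 := rfl

lemma coef1_sum {κ : Type} (t : Finset κ) (a : κ → Cov ι M) (p : M) (y : ι → ℝ) :
    coef1 (∑ c ∈ t, a c) p y = ∑ c ∈ t, coef1 (a c) p y := by
  classical
  induction t using Finset.induction_on with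
  | empty => simp [coef1_zero]
  | insert c t hc ih => rw [Finset.sum_insert hc, Finset.sum_insert hc, coef1_add, ih]

lemma isOpen_dom (p q : M) : IsOpen (dom ι p q) :=
  (chartAt (ι → ℝ) p).continuousOn_symm.isOpen_inter_preimage (chartAt (ι → ℝ) p).open_target
    (chartAt (ι → ℝ) q).open_source

lemma symm_tr {p q : M} {y : ι → ℝ} (hy : y ∈ dom ι p q) :
    (chartAt (ι → ℝ) q).symm (tr p q y) = (chartAt (ι → ℝ) p).symm y :=
  (chartAt (ι → ℝ) q).left_inv hy.2

lemma tr_mem_dom {p q : M} {y : ι → ℝ} (hy : y ∈ dom ι p q) : tr p q y ∈ dom ι q p :=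
  ⟨(chartAt (ι → ℝ) q).map_source hy.2, by
    rw [Set.mem_preimage, symm_tr hy]; exact (chartAt (ι → ℝ) p).map_target hy.1⟩

lemma tr_tr {p q : M} {y : ι → ℝ} (hy : y ∈ dom ι p q) : tr q p (tr p q y) = y := by
  rw [tr, symm_tr hy]; exact (chartAt (ι → ℝ) p).right_inv hy.1

lemma injOn_tr (p q : M) : Set.InjOn (tr p q) (dom ι p q) := fun y hy z hz h => by
  rw [← tr_tr hy, h, tr_tr hz]

lemma chart_mem_dom {p q x : M} (hp : x ∈ (chartAt (ι → ℝ) p).source)
    (hq : x ∈ (chartAt (ι → ℝ) q).source) : chartAt (ι → ℝ) p x ∈ dom ι p q :=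
  ⟨(chartAt (ι → ℝ) p).map_source hp, by
    rw [Set.mem_preimage, (chartAt (ι → ℝ) p).left_inv hp]; exact hq⟩

lemma tr_chart {p x : M} (q : M) (hp : x ∈ (chartAt (ι → ℝ) p).source) :
    tr p q (chartAt (ι → ℝ) p x) = chartAt (ι → ℝ) q x := by
  rw [tr, (chartAt (ι → ℝ) p).left_inv hp]

end Pool.Agent.Work.MP_bf98aa_gt.Mf
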