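import Pool.Agent.Work.MP_bf98aa_gt.Mf.Chart
import Pool.Agent.Work.MP_bf98aa_gt.Mf.Pull

/-!
Transition maps and the transformation rules of coefficients.

PLAN. contDiffOn_tr: contMDiffOn_chart, contMDiffOn_chart_symm, ContMDiffOn.comp, contMDiffOn_iff_contDiffOn. jac_mul: tr q p ∘ tr p q
is the identity near y (tr_tr, isOpen_dom), pd_comp for the components, pd_congr. cdif_cvec: unfold cdif cvec; chain rule
mfderiv_comp (mdifferentiableAt of charts: mdifferentiable_chart, or contMDiffOn_chart with mdifferentiableAt), mfderiv_eq_fderiv,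
fderiv_eq_jacM. sum_cdif: every tangent vector at x = symm y is the sum of its coordinates times the coordinate vectors:
mfderiv symm y ∘ mfderiv chart x = id (OpenPartialHomeomorph.MDifferentiable.symm_comp_deriv of mdifferentiable_chart), pi_eq_sum_univ'.
cdif_cvec_self: comp_symm_deriv, or jac p p y = 1. coef_tr: generalise: for x in the source of q and y' = chart q x one has
symm y' = x; state first, for a point x' with h : x' = symm y', that w x' u v = ∑ i j, cdif q x' i u * cdif q x' j v * coef w q y' i j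
(subst h, sum_cdif, map_sum); apply it with x' = (chartAt p).symm y (symm_tr), u, v coordinate vectors of p, cdif_cvec.
The tangent spaces are all definitionally ι → ℝ. contDiffOn_loc: ContMDiff.comp_contMDiffOn. pd_loc_tr: loc f p = loc f q ∘ tr p q near y,
pd_comp.
-/

set_option autoImplicit false
set_option linter.unusedSectionVars false

open MeasureTheory Metric Matrix
open scoped Manifold ContDiff

namespace Pool.Agent.Work.MP_bf98aa_gt.Mf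

variable {ι : Type} [Fintype ι] [DecidableEq ι] {M : Type} [TopologicalSpace M]
  [ChartedSpace (ι → ℝ) M] [IsManifold 𝓘(ℝ, ι → ℝ) ∞ M]

lemma ChartA_md (p : M) : (chartAt (ι → ℝ) p).MDifferentiable 𝓘(ℝ, ι → ℝ) 𝓘(ℝ, ι → ℝ) :=
  mdifferentiable_chart p

lemma contDiffOn_tr (p q : M) : ContDiffOn ℝ ∞ (tr p q : (ι → ℝ) → ι → ℝ) (dom ι p q) := by
  exact contMDiffOn_iff_contDiffOn.1
    ((contMDiffOn_chart (I := 𝓘(ℝ, ι → ℝ)) (n := ∞) (x := q)).comp'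
      (contMDiffOn_chart_symm (I := 𝓘(ℝ, ι → ℝ)) (n := ∞) (x := p)))

lemma contDiffAt_tr {p q : M} {y : ι → ℝ} (hy : y ∈ dom ι p q) : ContDiffAt ℝ ∞ (tr p q) y :=
  (contDiffOn_tr p q).contDiffAt ((isOpen_dom p q).mem_nhds hy)

lemma ChartA_diff {p q : M} {y : ι → ℝ} (hy : y ∈ dom ι p q) : DifferentiableAt ℝ (tr p q) y :=
  (contDiffAt_tr hy).differentiableAt (by simp)

lemma jac_mul {p q : M} {y : ι → ℝ} (hy : y ∈ dom ι p q) :
    jac q p (tr p q y) * jac p q y = 1 := by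
  ext i j
  have h1 := pd_comp (f := fun z => tr q p z i) (ChartA_diff hy)
    (differentiableAt_pi.1 (ChartA_diff (tr_mem_dom hy)) i) j
  have h2 : (fun z => tr q p (tr p q z) i) =ᶠ[nhds y] fun z => z i := by
    filter_upwards [(isOpen_dom p q).mem_nhds hy] with z hz
    rw [tr_tr hz]
  have h3 : pd j (fun z : ι → ℝ => z i) y = (1 : Matrix ι ι ℝ) i j := by
    unfold pd
    rw [(hasFDerivAt_apply i y).fderiv, Matrix.one_apply]
    simp [Pi.single_apply]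
  rw [pd_congr h2, h3] at h1
  rw [h1, Matrix.mul_apply]
  exact Finset.sum_congr rfl fun r _ => mul_comm _ _

lemma det_jac_ne {p q : M} {y : ι → ℝ} (hy : y ∈ dom ι p q) : (jac p q y).det ≠ 0 :=
  Matrix.det_ne_zero_of_left_inverse (jac_mul hy)

lemma jac_inv {p q : M} {y : ι → ℝ} (hy : y ∈ dom ι p q) : (jac p q y)⁻¹ = jac q p (tr p q y) :=
  Matrix.inv_eq_left_inv (jac_mul hy)

lemma cdif_cvec {p c : M} {y : ι → ℝ} (hy : y ∈ dom ι p c) (i j : ι) :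
    cdif c _ i (cvec p y j) = jac p c y i j := by
  have h1 : mfderiv 𝓘(ℝ, ι → ℝ) 𝓘(ℝ, ι → ℝ) (chartAt (ι → ℝ) c ∘ (chartAt (ι → ℝ) p).symm) y =
      (mfderiv 𝓘(ℝ, ι → ℝ) 𝓘(ℝ, ι → ℝ) (chartAt (ι → ℝ) c) ((chartAt (ι → ℝ) p).symm y)).comp
        (mfderiv 𝓘(ℝ, ι → ℝ) 𝓘(ℝ, ι → ℝ) (chartAt (ι → ℝ) p).symm y) :=
    mfderiv_comp y ((ChartA_md c).mdifferentiableAt hy.2) ((ChartA_md p).mdifferentiableAt_symm hy.1)
  have h2 : fderiv ℝ (tr p c) y (Pi.single j 1) i = jac p c y i j := by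
    rw [fderiv_eq_jacM (ChartA_diff hy), Matrix.mulVec_single_one]
    rfl
  rw [mfderiv_eq_fderiv] at h1
  rw [← h2]
  exact (congrArg (fun L : (ι → ℝ) →L[ℝ] ι → ℝ => L (Pi.single j 1) i) h1).symm

lemma cdif_cvec_self {p : M} {y : ι → ℝ} (hy : y ∈ (chartAt (ι → ℝ) p).target) (i j : ι) :
    cdif p _ i (cvec p y j) = if i = j then 1 else 0 := by
  have h := congrArg (fun L : (ι → ℝ) →L[ℝ] ι → ℝ => L (Pi.single j 1) i)
    ((ChartA_md p).comp_symm_deriv hy)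
  refine Eq.trans h ?_
  change (Pi.single j 1 : ι → ℝ) i = _
  rw [Pi.single_apply]

lemma sum_cdif {p : M} {y : ι → ℝ} (hy : y ∈ (chartAt (ι → ℝ) p).target)
    (u : TangentSpace 𝓘(ℝ, ι → ℝ) ((chartAt (ι → ℝ) p).symm y)) :
    ∑ i, cdif p _ i u • cvec p y i = u := by
  have h := congrArg (fun L : (ι → ℝ) →L[ℝ] ι → ℝ => L u)
    ((ChartA_md p).symm_comp_deriv ((chartAt (ι → ℝ) p).map_target hy))
  have e : mfderiv 𝓘(ℝ, ι → ℝ) 𝓘(ℝ, ι → ℝ) (chartAt (ι → ℝ) p).symm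
      (chartAt (ι → ℝ) p ((chartAt (ι → ℝ) p).symm y)) = (mfderiv 𝓘(ℝ, ι → ℝ) 𝓘(ℝ, ι → ℝ)
        (chartAt (ι → ℝ) p).symm y : (ι → ℝ) →L[ℝ] ι → ℝ) := by
    have k : ∀ z : ι → ℝ, z = y → mfderiv 𝓘(ℝ, ι → ℝ) 𝓘(ℝ, ι → ℝ) (chartAt (ι → ℝ) p).symm z =
        (mfderiv 𝓘(ℝ, ι → ℝ) 𝓘(ℝ, ι → ℝ) (chartAt (ι → ℝ) p).symm y :
          (ι → ℝ) →L[ℝ] ι → ℝ) := fun z hz => by subst hz; rfl
    exact k _ ((chartAt (ι → ℝ) p).right_inv hy)
  have k : ∀ (D : (ι → ℝ) →L[ℝ] ι → ℝ) (v : ι → ℝ), ∑ i, v i • D (Pi.single i 1) = D v := by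
    intro D v
    conv_rhs => rw [pi_eq_sum_univ' v, map_sum]
    exact Finset.sum_congr rfl fun i _ => (map_smul D _ _).symm
  refine (k (mfderiv 𝓘(ℝ, ι → ℝ) 𝓘(ℝ, ι → ℝ) (chartAt (ι → ℝ) p).symm y)
    (mfderiv 𝓘(ℝ, ι → ℝ) 𝓘(ℝ, ι → ℝ) (chartAt (ι → ℝ) p) ((chartAt (ι → ℝ) p).symm y) u)).trans ?_
  exact (congrArg (fun L : (ι → ℝ) →L[ℝ] ι → ℝ => L
    (mfderiv 𝓘(ℝ, ι → ℝ) 𝓘(ℝ, ι → ℝ) (chartAt (ι → ℝ) p) ((chartAt (ι → ℝ) p).symm y) u))
      e).symm.trans h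

lemma ChartA_one (a : Cov ι M) {q x : M} {y : ι → ℝ} (hy : y ∈ (chartAt (ι → ℝ) q).target)
    (h : x = (chartAt (ι → ℝ) q).symm y) (u : TangentSpace 𝓘(ℝ, ι → ℝ) x) :
    a x u = ∑ i, cdif q x i u * coef1 a q y i := by
  subst h
  conv_lhs => rw [← sum_cdif hy u, map_sum]
  exact Finset.sum_congr rfl fun i _ => by rw [map_smul, smul_eq_mul, coef1]

lemma ChartA_two (w : Bil ι M) {q x : M} {y : ι → ℝ} (hy : y ∈ (chartAt (ι → ℝ) q).target)
    (h : x = (chartAt (ι → ℝ) q).symm y) (u v : TangentSpace 𝓘(ℝ, ι → ℝ) x) :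
    w x u v = ∑ j, (∑ i, cdif q x i u * coef w q y i j) * cdif q x j v := by
  subst h
  conv_lhs => rw [← sum_cdif hy v, map_sum]
  refine Finset.sum_congr rfl fun j _ => ?_
  rw [map_smul, smul_eq_mul, mul_comm]
  congr 1
  conv_lhs => rw [← sum_cdif hy u, map_sum, _root_.sum_apply]
  exact Finset.sum_congr rfl fun i _ => by
    rw [map_smul, _root_.smul_apply, smul_eq_mul, coef, Matrix.of_apply]

lemma coef_tr (w : Bil ι M) {p q : M} {y : ι → ℝ} (hy : y ∈ dom ι p q) :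
    coef w p y = (jac p q y)ᵀ * coef w q (tr p q y) * jac p q y := by
  ext i j
  rw [coef, Matrix.of_apply, ChartA_two w (tr_mem_dom hy).1 (symm_tr hy).symm, Matrix.mul_apply]
  refine Finset.sum_congr rfl fun l _ => ?_
  rw [cdif_cvec hy, Matrix.mul_apply]
  congr 1
  exact Finset.sum_congr rfl fun r _ => by rw [cdif_cvec hy, Matrix.transpose_apply]

lemma coef1_tr (a : Cov ι M) {p q : M} {y : ι → ℝ} (hy : y ∈ dom ι p q) :
    coef1 a p y = (jac p q y)ᵀ *ᵥ coef1 a q (tr p q y) := by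
  ext i
  rw [coef1, ChartA_one a (tr_mem_dom hy).1 (symm_tr hy).symm, mulVec, dotProduct]
  exact Finset.sum_congr rfl fun r _ => by rw [cdif_cvec hy, Matrix.transpose_apply]

lemma contDiffOn_loc {f : M → ℝ} (hf : ContMDiff 𝓘(ℝ, ι → ℝ) 𝓘(ℝ, ℝ) ∞ f) (p : M) :
    ContDiffOn ℝ ∞ (loc f p : (ι → ℝ) → ℝ) (chartAt (ι → ℝ) p).target := by
  exact contMDiffOn_iff_contDiffOn.1
    (hf.comp_contMDiffOn (contMDiffOn_chart_symm (I := 𝓘(ℝ, ι → ℝ)) (n := ∞) (x := p)))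

lemma pd_loc_tr {f : M → ℝ} (hf : ContMDiff 𝓘(ℝ, ι → ℝ) 𝓘(ℝ, ℝ) ∞ f) {p q : M} {y : ι → ℝ}
    (hy : y ∈ dom ι p q) :
    (fun i => pd i (loc f p) y) = (jac p q y)ᵀ *ᵥ fun i => pd i (loc f q) (tr p q y) := by
  ext i
  have h1 : loc f p =ᶠ[nhds y] fun z => loc f q (tr p q z) := by
    filter_upwards [(isOpen_dom p q).mem_nhds hy] with z hz
    rw [loc, loc, symm_tr hz]
  have h2 : DifferentiableAt ℝ (loc f q) (tr p q y) :=
    ((contDiffOn_loc hf q).contDiffAt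
      ((chartAt (ι → ℝ) q).open_target.mem_nhds (tr_mem_dom hy).1)).differentiableAt (by simp)
  rw [pd_congr h1, pd_comp (ChartA_diff hy) h2]
  rfl

end Pool.Agent.Work.MP_bf98aa_gt.Mf
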