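import Pool.Agent.Work.MP_bf98aa_gt.Mf.ChartA
import Pool.Agent.Work.MP_bf98aa_gt.Mf.Alg2

/-!
The intrinsic notions read in a chart.

PLAN. vec p y a = ∑ i, a i • cvec p y i. bil_vec: map_sum, map_smul. exists_vec: sum_cdif. vec_eq_zero: apply cdif p _ j, cdif_cvec_self.
symOn: det ≠ 0 since otherwise a ≠ 0 with a ᵥ* A = 0 (exists_vecMul_eq_zero_iff) gives u = vec a ≠ 0 with w u v = 0 for all v.
posDef: Matrix.posDef_iff_dotProduct_mulVec or PosDef.of_dotProduct_mulVec_pos. pinG: G = coef g, A = coef w skew, T = (A v) ⬝ G⁻¹ (A v) ≥ 0.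
Upper bound: test with u = G⁻¹ A v: u ⬝ A v = T, u ⬝ G u = T, so T^2 ≤ (1 + e) m T (v ⬝ G v). Lower bound: for v ≠ 0 take u' = vec u ≠ 0 with
m (v G v) (u G u) ≤ (v ⬝ A u)^2 = (u ⬝ A v)^2 ≤ T (u G u) (cs_posDef). symplectic_of_exact: on the target
coef w' = coef w + dM (coef1 a p); smooth by contDiffOn_pd; closed by pd_congr, pd_add, closed_dM; skew and nondegenerate at x: take the chart
p, y = chart p x, obtain x = symm y (left_inv; generalise and subst), bil_vec, exists_vec. The Cohomologous lemmas: coef1_add, coef1_smul,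
coef1_zero, pd_add, pd_const_mul.
-/

set_option autoImplicit false
set_option linter.unusedSectionVars false

open MeasureTheory Metric Matrix
open scoped Manifold ContDiff

namespace Pool.Agent.Work.MP_bf98aa_gt.Mf

variable {ι : Type} [Fintype ι] [DecidableEq ι] {M : Type} [TopologicalSpace M]
  [ChartedSpace (ι → ℝ) M] [IsManifold 𝓘(ℝ, ι → ℝ) ∞ M]

/-- The tangent vector with coordinates `a`. -/
noncomputable def vec (p : M) (y a : ι → ℝ) :
    TangentSpace 𝓘(ℝ, ι → ℝ) ((chartAt (ι → ℝ) p).symm y) := ∑ i, a i • cvec p y i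

lemma bil_vec (w : Bil ι M) (p : M) (y a b : ι → ℝ) :
    w _ (vec p y a) (vec p y b) = a ⬝ᵥ coef w p y *ᵥ b := by
  simp only [vec, map_sum, map_smul, ContinuousLinearMap.sum_apply, ContinuousLinearMap.smul_apply,
    smul_eq_mul, dotProduct, mulVec, coef, of_apply, Finset.mul_sum]
  rw [Finset.sum_comm]
  exact Finset.sum_congr rfl fun i _ => Finset.sum_congr rfl fun j _ => by ring

lemma exists_vec {p : M} {y : ι → ℝ} (hy : y ∈ (chartAt (ι → ℝ) p).target)
    (u : TangentSpace 𝓘(ℝ, ι → ℝ) ((chartAt (ι → ℝ) p).symm y)) : ∃ a, u = vec p y a :=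
  ⟨fun i => cdif p _ i u, (sum_cdif hy u).symm⟩

lemma vec_eq_zero {p : M} {y : ι → ℝ} (hy : y ∈ (chartAt (ι → ℝ) p).target) {a : ι → ℝ} :
    vec p y a = 0 ↔ a = 0 := by
  refine ⟨fun h => funext fun j => ?_, fun h => by simp [vec, h]⟩
  simpa [vec, cdif_cvec_self hy] using congrArg (cdif p _ j) h

lemma IsSymplectic.symOn {w : Bil ι M} (h : IsSymplectic w) (p : M) :
    SymOn (chartAt (ι → ℝ) p).target (coef w p) := by
  refine ⟨h.1 p, fun y _ => Matrix.ext fun i j => h.2.1 _ _ _, fun y hy hd => ?_, h.2.2.2 p⟩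
  obtain ⟨a, ha, h0⟩ := Matrix.exists_vecMul_eq_zero_iff.2 hd
  refine ha ((vec_eq_zero hy).1 (h.2.2.1 _ _ fun v => ?_))
  obtain ⟨b, rfl⟩ := exists_vec hy v
  rw [bil_vec, dotProduct_mulVec, h0, zero_dotProduct]

lemma IsMetric.posDef {g : Bil ι M} (h : IsMetric g) {p : M} {y : ι → ℝ}
    (hy : y ∈ (chartAt (ι → ℝ) p).target) : (coef g p y).PosDef := by
  refine Matrix.PosDef.of_dotProduct_mulVec_pos (Matrix.ext fun i j => h.2.1 _ _ _) fun a ha => ?_
  rw [star_trivial, ← bil_vec]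
  exact h.2.2 _ _ fun k => ha ((vec_eq_zero hy).1 k)

lemma IsPinched.pinG {g w : Bil ι M} (hg : IsMetric g) (hw : IsSymplectic w) {e : ℝ} (he : 0 ≤ e)
    (h : IsPinched g e w) {p : M} {y : ι → ℝ} (hy : y ∈ (chartAt (ι → ℝ) p).target) :
    ∃ m : ℝ, 0 < m ∧ PinG (coef g p y) e m (coef w p y) := by
  obtain ⟨m, hm, h1, h2⟩ := h ((chartAt (ι → ℝ) p).symm y)
  have hG := hg.posDef hy
  have nn : ∀ {B : Matrix ι ι ℝ}, B.PosDef → ∀ v, 0 ≤ v ⬝ᵥ B *ᵥ v := fun hB v => by
    simpa using hB.posSemidef.dotProduct_mulVec_nonneg v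
  refine ⟨m, hm, fun v => ⟨?_, ?_⟩⟩
  · by_cases hv : v = 0
    · simp [hv]
    obtain ⟨u, hu, k⟩ := h2 (vec p y v) fun k => hv ((vec_eq_zero hy).1 k)
    have k0 := hg.2.2 _ u hu
    obtain ⟨a, rfl⟩ := exists_vec hy u
    rw [hw.2.1, neg_sq, bil_vec, bil_vec, bil_vec, dotProduct_comm a (coef w p y *ᵥ v)] at k
    rw [bil_vec] at k0
    exact le_of_mul_le_mul_right ((mul_assoc _ _ _).trans_le (k.trans (cs_posDef hG _ _))) k0
  · have k := h1 (vec p y ((coef g p y)⁻¹ *ᵥ (coef w p y *ᵥ v))) (vec p y v)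
    rw [bil_vec, bil_vec, bil_vec, mulVec_mulVec _ (coef g p y),
      mul_nonsing_inv _ hG.det_pos.ne'.isUnit, one_mulVec, dotProduct_comm] at k
    rcases (nn hG.inv (coef w p y *ᵥ v)).eq_or_lt with k0 | k0
    · exact k0 ▸ mul_nonneg (by positivity) (nn hG v)
    · refine le_of_mul_le_mul_right ?_ k0
      linarith

lemma ChartB_diff {p : M} {f : (ι → ℝ) → ℝ} (hf : ContDiffOn ℝ ∞ f (chartAt (ι → ℝ) p).target)
    {y : ι → ℝ} (hy : y ∈ (chartAt (ι → ℝ) p).target) : DifferentiableAt ℝ f y :=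
  (hf.contDiffAt ((chartAt (ι → ℝ) p).open_target.mem_nhds hy)).differentiableAt (by simp)

lemma ChartB_comb {w1 w2 w3 w4 w5 w6 : Bil ι M} (h : Cohomologous w1 w2) (h' : Cohomologous w3 w4)
    (s t : ℝ) (e : w5 - w6 = s • (w1 - w2) + t • (w3 - w4)) : Cohomologous w5 w6 := by
  obtain ⟨a, a1, a2⟩ := h
  obtain ⟨b, b1, b2⟩ := h'
  refine ⟨s • a + t • b, fun p i => (contDiffOn_const.mul (a1 p i)).add
    (contDiffOn_const.mul (b1 p i)), fun p y hy i j => ?_⟩
  have k : ∀ i j, pd i (fun z => coef1 (s • a + t • b) p z j) y =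
      s * pd i (fun z => coef1 a p z j) y + t * pd i (fun z => coef1 b p z j) y := fun i j => by
    rw [← pd_const_mul (ChartB_diff (a1 p j) hy), ← pd_const_mul (ChartB_diff (b1 p j) hy),
      ← pd_add ((ChartB_diff (a1 p j) hy).const_mul s) ((ChartB_diff (b1 p j) hy).const_mul t)]
    rfl
  have e' : coef w5 p y i j - coef w6 p y i j =
      s * (coef w1 p y i j - coef w2 p y i j) + t * (coef w3 p y i j - coef w4 p y i j) :=
    congrArg (fun w => coef w p y i j) e
  rw [k, k, e', a2 p y hy, b2 p y hy]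
  ring

lemma symplectic_of_exact {w w' : Bil ι M} (hw : IsSymplectic w) (h : Cohomologous w' w)
    (hd : ∀ x : M, ∃ p : M, x ∈ (chartAt (ι → ℝ) p).source ∧
      (coef w' p (chartAt (ι → ℝ) p x)).det ≠ 0) : IsSymplectic w' := by
  obtain ⟨a, a1, a2⟩ := h
  have e : ∀ p, ∀ y ∈ (chartAt (ι → ℝ) p).target, ∀ i j,
      coef w' p y i j = coef w p y i j + dM (coef1 a p) y i j := fun p y hy i j =>
    (sub_eq_iff_eq_add'.1 (a2 p y hy i j))
  have sm : ∀ p i j, ContDiffOn ℝ ∞ (fun y => dM (coef1 a p) y i j) (chartAt (ι → ℝ) p).target :=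
    fun p i j => (contDiffOn_pd (chartAt (ι → ℝ) p).open_target (a1 p j) i).sub
      (contDiffOn_pd (chartAt (ι → ℝ) p).open_target (a1 p i) j)
  have pt : ∀ P : (x : M) → Prop, (∀ p, ∀ y ∈ (chartAt (ι → ℝ) p).target,
      (coef w' p y).det ≠ 0 → P ((chartAt (ι → ℝ) p).symm y)) → ∀ x, P x := fun P k x => by
    obtain ⟨p, h1, h2⟩ := hd x
    exact (chartAt (ι → ℝ) p).left_inv h1 ▸ k p _ ((chartAt (ι → ℝ) p).map_source h1) h2
  refine ⟨fun p i j => ((hw.1 p i j).add (sm p i j)).congr fun y hy => e p y hy i j,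
    pt _ fun p y hy _ u v => ?_, pt _ fun p y hy k u hu => ?_, fun p y hy i j l => ?_⟩
  · obtain ⟨b, rfl⟩ := exists_vec hy u
    obtain ⟨c, rfl⟩ := exists_vec hy v
    have sk : (coef w' p y)ᵀ = -coef w' p y := Matrix.ext fun i j => by
      have := congrFun (congrFun ((hw.symOn p).skew y hy) i) j
      simp only [transpose_apply, Matrix.neg_apply, e p y hy, dM, of_apply] at this ⊢
      linarith
    rw [bil_vec, bil_vec, dotProduct_mulVec, ← mulVec_transpose, sk, neg_mulVec, neg_dotProduct,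
      dotProduct_comm]
  · obtain ⟨b, rfl⟩ := exists_vec hy u
    by_contra h0
    refine k (Matrix.exists_vecMul_eq_zero_iff.1 ⟨b, fun k => h0 ((vec_eq_zero hy).2 k), ?_⟩)
    have := hu (vec p y (b ᵥ* coef w' p y))
    rwa [bil_vec, dotProduct_mulVec, dotProduct_self_eq_zero] at this
  · have nb := (chartAt (ι → ℝ) p).open_target.mem_nhds hy
    have k : ∀ i j l, pd i (fun z => coef w' p z j l) y =
        pd i (fun z => coef w p z j l) y + pd i (fun z => dM (coef1 a p) z j l) y := fun i j l => by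
      rw [← pd_add (ChartB_diff (hw.1 p j l) hy) (ChartB_diff (sm p j l) hy)]
      exact pd_congr (Filter.mem_of_superset nb fun z hz => e p z hz j l) i
    have k1 := hw.2.2.2 p y hy i j l
    have k2 := closed_dM (b := coef1 a p) (fun i => (a1 p i).contDiffAt nb) i j l
    rw [k, k, k]
    linarith

lemma Cohomologous.refl (w : Bil ι M) : Cohomologous w w := by
  refine ⟨0, fun p i => contDiffOn_const (c := 0), fun p y _ i j => ?_⟩
  simp only [coef1_zero, Pi.zero_apply, pd_const, sub_self]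

lemma Cohomologous.trans {w1 w2 w3 : Bil ι M} (h : Cohomologous w1 w2) (h' : Cohomologous w2 w3) :
    Cohomologous w1 w3 := by
  exact ChartB_comb h h' 1 1 (by module)

lemma Cohomologous.interp {w1 w0 : Bil ι M} (h : Cohomologous w1 w0) (t : ℝ) :
    Cohomologous ((1 - t) • w1 + t • w0) w0 := by
  exact ChartB_comb h h (1 - t) 0 (by module)

lemma Cohomologous.sum {κ : Type} (w : Bil ι M) (t : Finset κ) {u : κ → Bil ι M}
    (h : ∀ c ∈ t, Cohomologous (u c) 0) : Cohomologous (w + ∑ c ∈ t, u c) w := by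
  classical
  induction t using Finset.induction_on with
  | empty => simpa using Cohomologous.refl w
  | insert c t hc ih =>
    rw [Finset.sum_insert hc]
    exact ChartB_comb (h c (Finset.mem_insert_self _ _))
      (ih fun d hd => h d (Finset.mem_insert_of_mem hd)) 1 1 (by module)

end Pool.Agent.Work.MP_bf98aa_gt.Mf
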