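import Pool.Agent.Work.MP_bf98aa_gt.Mf.ChartA

/-!
Finite covers by cubes and partitions of unity.

PLAN. exists_cover: for each p choose r p > 0 with closedBall (chart p p) (8 r p) in the open target (nhds_basis_closedBall);
the sets source ∩ chart ⁻¹' ball (chart p p) (r p) are neighbourhoods of p; IsCompact.elim_nhds_subcover. exists_part: for p in C the closed set
s = complement of the open set source ∩ chart ⁻¹' ball (chart p p) (b r p) and the compact set t = symm '' cube p a are disjoint;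
exists_contMDiffMap_zero_one_of_isClosed (or exists_smooth_zero_one_of_isClosed) gives φ p; put φ p = 0 for p not in C; S = ∑ φ p satisfies
1 ≤ S ≤ card C (cover, 1 ≤ a); χ p = φ p / S (ContMDiff.div₀). contDiff_ext: ContDiffAt at each point; in the target ext = loc nearby
(contDiffOn_loc), outside the closed cube ext vanishes nearby (ext_zero). pd_loc_far: χ p vanishes on the complement of the compact set
symm '' cube p b, which is open and contains symm y; pd_congr, pd_const. sum_pd_loc: the sum of the loc is constant 1, pd_sum.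
-/

set_option autoImplicit false
set_option linter.unusedSectionVars false

open MeasureTheory Metric Matrix
open scoped Manifold ContDiff

namespace Pool.Agent.Work.MP_bf98aa_gt.Mf

variable {ι : Type} [Fintype ι] [DecidableEq ι] {M : Type} [TopologicalSpace M]
  [ChartedSpace (ι → ℝ) M] [IsManifold 𝓘(ℝ, ι → ℝ) ∞ M]

variable [T2Space M] [CompactSpace M]

lemma Cover_open (p : M) (r : ℝ) :
    IsOpen ((chartAt (ι → ℝ) p).source ∩ chartAt (ι → ℝ) p ⁻¹' ball (chartAt (ι → ℝ) p p) r) :=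
  (chartAt (ι → ℝ) p).isOpen_inter_preimage isOpen_ball

lemma Cover_closed (A : Cover ι M) {p : M} (hp : p ∈ A.C) {a : ℝ} (ha : a ≤ 8) :
    IsClosed ((chartAt (ι → ℝ) p).symm '' A.cube p a) :=
  ((A.isCompact_cube p a).image_of_continuousOn
    ((chartAt (ι → ℝ) p).continuousOn_symm.mono (A.cube_sub hp ha))).isClosed

lemma Cover_bump (A : Cover ι M) {a b : ℝ} (hab : a < b) (hb : b ≤ 8) (p : M) :
    ∃ φ : M → ℝ, ContMDiff 𝓘(ℝ, ι → ℝ) 𝓘(ℝ, ℝ) ∞ φ ∧ (∀ x, 0 ≤ φ x ∧ φ x ≤ 1) ∧ (p ∈ A.C →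
      (∀ x, φ x ≠ 0 → x ∈ (chartAt (ι → ℝ) p).source ∧ chartAt (ι → ℝ) p x ∈ A.cube p b) ∧
      ∀ x ∈ (chartAt (ι → ℝ) p).source, chartAt (ι → ℝ) p x ∈ A.cube p a → φ x = 1) := by
  by_cases hp : p ∈ A.C
  swap
  · exact ⟨fun _ => 0, contMDiff_const, fun _ => ⟨le_rfl, zero_le_one⟩, fun h => absurd h hp⟩
  have ha : a ≤ 8 := hab.le.trans hb
  have hd : Disjoint ((chartAt (ι → ℝ) p).source ∩
      chartAt (ι → ℝ) p ⁻¹' ball (chartAt (ι → ℝ) p p) (b * A.r p))ᶜ
      ((chartAt (ι → ℝ) p).symm '' A.cube p a) := by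
    refine Set.disjoint_right.2 ?_
    rintro _ ⟨y, hy, rfl⟩ h
    have hy' := A.cube_sub hp ha hy
    refine h ⟨(chartAt (ι → ℝ) p).map_target hy', ?_⟩
    rw [Set.mem_preimage, (chartAt (ι → ℝ) p).right_inv hy']
    exact closedBall_subset_ball (mul_lt_mul_of_pos_right hab (A.pos p hp)) hy
  obtain ⟨f, h0, h1, hf⟩ := exists_contMDiffMap_zero_one_of_isClosed (n := ⊤) 𝓘(ℝ, ι → ℝ)
    (Cover_open p (b * A.r p)).isClosed_compl (Cover_closed A hp ha) hd
  refine ⟨f, f.contMDiff, fun x => hf x, fun _ => ⟨fun x hx => ?_, fun x hx hc => ?_⟩⟩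
  · by_contra h
    exact hx (h0 fun k => h ⟨k.1, ball_subset_closedBall k.2⟩)
  · exact h1 ⟨_, hc, (chartAt (ι → ℝ) p).left_inv hx⟩

lemma exists_cover : Nonempty (Cover ι M) := by
  have h : ∀ p : M, ∃ r : ℝ, 0 < r ∧
      closedBall (chartAt (ι → ℝ) p p) (8 * r) ⊆ (chartAt (ι → ℝ) p).target := fun p => by
    obtain ⟨ε, hε, h⟩ := Metric.nhds_basis_closedBall.mem_iff.1
      ((chartAt (ι → ℝ) p).open_target.mem_nhds (mem_chart_target _ p))
    exact ⟨ε / 8, by positivity, by rwa [mul_div_cancel₀ _ (by norm_num)]⟩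
  choose r hr hs using h
  obtain ⟨t, -, ht⟩ := isCompact_univ.elim_nhds_subcover (fun p : M =>
    (chartAt (ι → ℝ) p).source ∩ chartAt (ι → ℝ) p ⁻¹' ball (chartAt (ι → ℝ) p p) (r p))
    fun p _ => (Cover_open p _).mem_nhds ⟨mem_chart_source _ p, mem_ball_self (hr p)⟩
  refine ⟨⟨t, r, fun p _ => hr p, fun p _ => hs p, fun x => ?_⟩⟩
  have := ht (Set.mem_univ x)
  simp only [Set.mem_iUnion] at this
  obtain ⟨p, hp, h⟩ := this
  exact ⟨p, hp, h⟩

lemma exists_part (A : Cover ι M) {a b : ℝ} (ha : 1 ≤ a) (hab : a < b) (hb : b ≤ 8) :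
    Nonempty (Part A a b) := by
  choose φ hs h01 hC using Cover_bump A hab hb
  have h1 : ∀ x, 1 ≤ ∑ p ∈ A.C, φ p x := fun x => by
    obtain ⟨p, hp, hx, hc⟩ := A.cover x
    have e : φ p x = 1 := (hC p hp).2 x hx (A.cube_mono hp ha (by
      rw [Cover.cube, one_mul]
      exact ball_subset_closedBall hc))
    rw [← e]
    exact Finset.single_le_sum (f := fun p => φ p x) (fun q _ => (h01 q x).1) hp
  have h2 : ∀ x, ∑ p ∈ A.C, φ p x ≤ A.C.card := fun x => by
    have := Finset.sum_le_card_nsmul A.C (fun p => φ p x) 1 fun q _ => (h01 q x).2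
    simpa using this
  have h0 : ∀ x, 0 < ∑ p ∈ A.C, φ p x := fun x => one_pos.trans_le (h1 x)
  refine ⟨⟨fun p x => φ p x / ∑ q ∈ A.C, φ q x, fun p => ?_, fun p x => ?_, fun x => ?_,
    fun p hp x hx => ?_, fun p hp x hx hc => ?_⟩⟩
  · exact (hs p).div₀ (contMDiff_finsetSum fun q _ => hs q) fun x => (h0 x).ne'
  · exact div_nonneg (h01 p x).1 (h0 x).le
  · rw [← Finset.sum_div, div_self (h0 x).ne']
  · exact (hC p hp).1 x fun e => hx (by rw [e, zero_div])
  · rw [(hC p hp).2 x hx hc, one_div]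
    exact inv_anti₀ (h0 x) (h2 x)

variable {A : Cover ι M} {a b : ℝ} (χ : Part A a b)

lemma ext_eq_loc (f : M → ℝ) {p : M} {y : ι → ℝ} (hy : y ∈ (chartAt (ι → ℝ) p).target) :
    ext f p =ᶠ[nhds y] loc f p := by
  filter_upwards [(chartAt (ι → ℝ) p).open_target.mem_nhds hy] with z hz
  exact if_pos hz

lemma ext_zero {p : M} (hp : p ∈ A.C) {y : ι → ℝ} (hy : y ∉ A.cube p b) :
    ext (χ.χ p) p y = 0 := by
  unfold ext
  split_ifs with h
  · by_contra e
    have := (χ.supp p hp _ e).2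
    rw [(chartAt (ι → ℝ) p).right_inv h] at this
    exact hy this
  · rfl

lemma ext_nonneg (p q : M) (y : ι → ℝ) : 0 ≤ ext (χ.χ p) q y := by
  unfold ext
  split_ifs
  · exact χ.nonneg _ _
  · exact le_rfl

lemma ext_le_one {p : M} (hp : p ∈ A.C) (q : M) (y : ι → ℝ) : ext (χ.χ p) q y ≤ 1 := by
  unfold ext
  split_ifs
  · rw [← χ.sum ((chartAt (ι → ℝ) q).symm y)]
    exact Finset.single_le_sum (f := fun p => χ.χ p ((chartAt (ι → ℝ) q).symm y))
      (fun c _ => χ.nonneg c _) hp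
  · exact zero_le_one

lemma ext_low (ha : a ≤ 8) {p : M} (hp : p ∈ A.C) {y : ι → ℝ} (hy : y ∈ A.cube p a) :
    (A.C.card : ℝ)⁻¹ ≤ ext (χ.χ p) p y := by
  have hy' := A.cube_sub hp ha hy
  unfold ext
  rw [if_pos hy']
  refine χ.low p hp _ ((chartAt (ι → ℝ) p).map_target hy') ?_
  rwa [(chartAt (ι → ℝ) p).right_inv hy']

lemma contDiff_ext (hb : b ≤ 8) {p : M} (hp : p ∈ A.C) :
    ContDiff ℝ ∞ (ext (χ.χ p) p : (ι → ℝ) → ℝ) := by
  refine contDiff_iff_contDiffAt.2 fun y => ?_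
  by_cases hy : y ∈ (chartAt (ι → ℝ) p).target
  · exact ((contDiffOn_loc (χ.smooth p) p).contDiffAt
      ((chartAt (ι → ℝ) p).open_target.mem_nhds hy)).congr_of_eventuallyEq (ext_eq_loc _ hy)
  · refine (contDiffAt_const (c := (0 : ℝ))).congr_of_eventuallyEq ?_
    filter_upwards [(A.isCompact_cube p b).isClosed.isOpen_compl.mem_nhds
      fun h => hy (A.cube_sub hp hb h)] with z hz
    exact ext_zero χ hp hz

lemma pd_loc_far (hb : b ≤ 8) {p : M} (hp : p ∈ A.C) {q : M} {y : ι → ℝ}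
    (hy : y ∈ (chartAt (ι → ℝ) q).target) (h : y ∉ dom ι q p) (i : ι) :
    pd i (loc (χ.χ p) q) y = 0 := by
  have hK : (chartAt (ι → ℝ) q).symm y ∉ (chartAt (ι → ℝ) p).symm '' A.cube p b := by
    rintro ⟨z, hz, e⟩
    refine h ⟨hy, ?_⟩
    rw [Set.mem_preimage, ← e]
    exact (chartAt (ι → ℝ) p).map_target (A.cube_sub hp hb hz)
  have e : loc (χ.χ p) q =ᶠ[nhds y] fun _ => 0 := by
    filter_upwards [((chartAt (ι → ℝ) q).continuousAt_symm hy).preimage_mem_nhds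
      ((Cover_closed A hp hb).isOpen_compl.mem_nhds hK)] with z hz
    by_contra e
    obtain ⟨h1, h2⟩ := χ.supp p hp _ e
    exact hz ⟨_, h2, (chartAt (ι → ℝ) p).left_inv h1⟩
  rw [pd_congr e, pd_const]

lemma sum_pd_loc {q : M} {y : ι → ℝ} (hy : y ∈ (chartAt (ι → ℝ) q).target) (i : ι) :
    ∑ p ∈ A.C, pd i (loc (χ.χ p) q) y = 0 := by
  rw [← pd_sum A.C fun p _ => ((contDiffOn_loc (χ.smooth p) q).contDiffAt
    ((chartAt (ι → ℝ) q).open_target.mem_nhds hy)).differentiableAt (by simp)]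
  have e : (fun z : ι → ℝ => ∑ p ∈ A.C, loc (χ.χ p) q z) = fun _ => 1 :=
    funext fun z => χ.sum _
  rw [e, pd_const]

lemma pd_ext_bdd (hb : b ≤ 8) : ∃ K : ℝ, 0 < K ∧ ∀ p ∈ A.C, ∀ (i : ι) (y : ι → ℝ),
    |pd i (ext (χ.χ p) p) y| ≤ K := by
  have h : ∀ (p : M) (i : ι), ∃ K : ℝ, 0 ≤ K ∧
      (p ∈ A.C → ∀ y : ι → ℝ, |pd i (ext (χ.χ p) p) y| ≤ K) := fun p i => by
    by_cases hp : p ∈ A.C
    swap
    · exact ⟨0, le_rfl, fun h => absurd h hp⟩
    obtain ⟨K, hK⟩ := (contDiff_pd (contDiff_ext χ hb hp) i).continuous.bounded_above_of_compact_support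
      (hasCompactSupport_of_ball (pd_eq_zero_of_not_mem (fun y hy => ext_zero χ hp hy) i))
    exact ⟨K, (norm_nonneg _).trans (hK 0), fun _ y => hK y⟩
  choose K h0 hK using h
  have hs : ∀ p, 0 ≤ ∑ i, K p i := fun p => Finset.sum_nonneg fun i _ => h0 p i
  refine ⟨1 + ∑ p ∈ A.C, ∑ i, K p i,
    add_pos_of_pos_of_nonneg one_pos (Finset.sum_nonneg fun p _ => hs p), fun p hp i y => ?_⟩
  have h1 : K p i ≤ ∑ i, K p i :=
    Finset.single_le_sum (f := K p) (fun i _ => h0 p i) (Finset.mem_univ i)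
  have h2 : ∑ i, K p i ≤ ∑ p ∈ A.C, ∑ i, K p i :=
    Finset.single_le_sum (f := fun p => ∑ i, K p i) (fun p _ => hs p) hp
  linarith [hK p i hp y]

end Pool.Agent.Work.MP_bf98aa_gt.Mf
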