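import Pool.Agent.Work.MP_bf98aa_gt.Mf.Alg1
import Pool.Agent.Work.MP_bf98aa_gt.Mf.Pull

/-!
Comparison of the mean values of one form in two charts.

PLAN. J = jacM τ y, Q = closedBall y (s / L), D = N! Λ^N (inv_le_abs_det). For z in Q, with J' = jacM τ z,
Jᵀ a' J - a = (Jᵀ a' J - J'ᵀ a' J') - J'ᵀ (w' (τ z) - a') J' + (w z - a), and
Jᵀ a' J - J'ᵀ a' J' = (J - J')ᵀ a' J + J'ᵀ a' (J - J') has fr at most 2 Λ η fr a' (fr_mul_le, fr_transpose). Integrate over Q
(volume_real_cube, integral_comp_le, setIntegral_mono_set): with X = fr (Jᵀ a' J - a),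
X ≤ 2 Λ η fr a' + Λ^2 D L^N c fr a' + L^N c fr a. Also a' = J⁻¹ᵀ (Jᵀ a' J) J⁻¹, so fr a' ≤ Λ^2 (fr a + X) (fr_congr_le); choose c0 ≤ 1
with Λ^2 (2 Λ + Λ^2 D L^N) c0 ≤ 1 / 2 and absorb.
-/

set_option autoImplicit false
set_option linter.unusedSectionVars false

open MeasureTheory Metric Matrix
open scoped ContDiff RealInnerProductSpace

namespace Pool.Agent.Work.MP_bf98aa_gt.Mf

variable {ι : Type} [Fintype ι] [DecidableEq ι]

lemma Cross_point {Λ η : ℝ} {J J' a a' b : Matrix ι ι ℝ} (hJ : fr J ≤ Λ) (hJ' : fr J' ≤ Λ)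
    (hη : fr (J' - J) ≤ η) : fr (Jᵀ * a' * J - a) ≤
      2 * Λ * η * fr a' + Λ ^ 2 * fr (b - a') + fr (J'ᵀ * b * J' - a) := by
  have e : Jᵀ * a' * J - a = (J - J')ᵀ * a' * J + J'ᵀ * a' * (J - J') - J'ᵀ * (b - a') * J' +
      (J'ᵀ * b * J' - a) := by
    simp only [transpose_sub, Matrix.sub_mul, Matrix.mul_sub]
    abel
  rw [fr_sub_comm] at hη
  have h0 := fr_nonneg a'
  have h1 := fr_nonneg J
  have h2 := fr_nonneg J'
  have h3 := fr_nonneg (J - J')
  have h4 : fr ((J - J')ᵀ * a' * J) ≤ η * fr a' * Λ := by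
    refine (fr_mul_le _ _).trans ?_
    have := fr_mul_le (J - J')ᵀ a'
    rw [fr_transpose] at this
    exact mul_le_mul (this.trans (mul_le_mul_of_nonneg_right hη h0)) hJ h1
      (mul_nonneg (h3.trans hη) h0)
  have h5 : fr (J'ᵀ * a' * (J - J')) ≤ Λ * fr a' * η := by
    refine (fr_mul_le _ _).trans ?_
    have := fr_mul_le J'ᵀ a'
    rw [fr_transpose] at this
    exact mul_le_mul (this.trans (mul_le_mul_of_nonneg_right hJ' h0)) hη h3
      (mul_nonneg (h2.trans hJ') h0)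
  have h6 : fr (J'ᵀ * (b - a') * J') ≤ Λ ^ 2 * fr (b - a') :=
    (fr_congr_le _ _).trans (mul_le_mul_of_nonneg_right (pow_le_pow_left₀ h2 hJ' 2) (fr_nonneg _))
  rw [e]
  have h7 := fr_add_le ((J - J')ᵀ * a' * J + J'ᵀ * a' * (J - J') - J'ᵀ * (b - a') * J')
    (J'ᵀ * b * J' - a)
  have h8 := fr_sub_le ((J - J')ᵀ * a' * J + J'ᵀ * a' * (J - J')) (J'ᵀ * (b - a') * J')
  have h9 := fr_add_le ((J - J')ᵀ * a' * J) (J'ᵀ * a' * (J - J'))
  linarith

lemma Cross_back {Λ : ℝ} {J : Matrix ι ι ℝ} (hd : J.det ≠ 0) (hJ : fr J⁻¹ ≤ Λ)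
    (a a' : Matrix ι ι ℝ) : fr a' ≤ Λ ^ 2 * (fr a + fr (Jᵀ * a' * J - a)) := by
  have h1 : J * J⁻¹ = 1 := mul_nonsing_inv J (Ne.isUnit hd)
  have e : a' = J⁻¹ᵀ * (a + (Jᵀ * a' * J - a)) * J⁻¹ := by
    rw [add_sub_cancel, Matrix.mul_assoc, Matrix.mul_assoc, h1, Matrix.mul_one, ← Matrix.mul_assoc,
      ← transpose_mul, h1, transpose_one, Matrix.one_mul]
  conv_lhs => rw [e]
  exact (fr_congr_le _ _).trans (mul_le_mul (pow_le_pow_left₀ (fr_nonneg _) hJ 2) (fr_add_le _ _)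
    (fr_nonneg _) (sq_nonneg _))

lemma cross_chart {Λ L : ℝ} (hΛ : 1 ≤ Λ) (hL : 1 ≤ L) : ∃ C c0 : ℝ, 0 < C ∧ 0 < c0 ∧
    ∀ (c η s : ℝ) (τ : (ι → ℝ) → ι → ℝ) (w w' : (ι → ℝ) → Matrix ι ι ℝ) (y : ι → ℝ)
      (a a' : Matrix ι ι ℝ), 0 ≤ c → c ≤ c0 → η ≤ c0 → 0 < s →
    ContinuousOn w (closedBall y s) → ContinuousOn w' (closedBall (τ y) s) →
    Set.InjOn τ (closedBall y (s / L)) →
    (∀ z ∈ closedBall y (s / L), ContDiffAt ℝ ∞ τ z ∧ τ z ∈ closedBall (τ y) s ∧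
      (jacM τ z).det ≠ 0 ∧ fr (jacM τ z) ≤ Λ ∧ fr (jacM τ z)⁻¹ ≤ Λ ∧
      fr (jacM τ z - jacM τ y) ≤ η ∧ w z = (jacM τ z)ᵀ * w' (τ z) * jacM τ z) →
    NearAt c w y s a → NearAt c w' (τ y) s a' →
    fr ((jacM τ y)ᵀ * a' * jacM τ y - a) ≤ C * (c + η) * fr a ∧ fr a' ≤ C * fr a := by
  obtain ⟨D, hD⟩ : ∃ D : ℝ, D = (Fintype.card ι).factorial * Λ ^ Fintype.card ι := ⟨_, rfl⟩
  obtain ⟨M, hM⟩ : ∃ M : ℝ, M = L ^ Fintype.card ι := ⟨_, rfl⟩
  have hD0 : 0 ≤ D := by rw [hD]; positivity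
  have hM0 : 0 < M := by rw [hM]; positivity
  have hK0 : 0 < 2 * Λ + Λ ^ 2 * D * M := by positivity
  refine ⟨(2 * Λ + Λ ^ 2 * D * M) * (2 * Λ ^ 2 * (1 + M)) + M + 2 * Λ ^ 2 * (1 + M),
    min 1 (1 / (2 * Λ ^ 2 * (2 * Λ + Λ ^ 2 * D * M))), by positivity, by positivity, ?_⟩
  intro c η s τ w w' y a a' hc0 hc hη hs hw hw' hi hz hn hn'
  have hr : 0 < s / L := by positivity
  have hQ : closedBall y (s / L) ⊆ closedBall y s :=
    closedBall_subset_closedBall (div_le_self hs.le hL)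
  obtain ⟨-, -, y1, y2, y3, y4, -⟩ := hz y (mem_closedBall_self hr.le)
  have hη0 : 0 ≤ η := (fr_nonneg _).trans y4
  have hf : ContinuousOn (fun z => fr (w z - a)) (closedBall y s) :=
    continuous_fr.comp_continuousOn (hw.sub continuousOn_const)
  have hf' : ContinuousOn (fun z => fr (w' z - a')) (closedBall (τ y) s) :=
    continuous_fr.comp_continuousOn (hw'.sub continuousOn_const)
  have hτ : ContinuousOn τ (closedBall y (s / L)) := fun z h =>
    (hz z h).1.continuousAt.continuousWithinAt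
  have i1 : IntegrableOn (fun z => fr (w z - a)) (closedBall y (s / L)) :=
    (hf.mono hQ).integrableOn_compact (isCompact_closedBall _ _)
  have i2 : IntegrableOn (fun z => fr (w' (τ z) - a')) (closedBall y (s / L)) :=
    (hf'.comp hτ fun z h => (hz z h).2.1).integrableOn_compact (isCompact_closedBall _ _)
  have i3 : ∀ t : ℝ, IntegrableOn (fun _ : ι → ℝ => t) (closedBall y (s / L)) := fun t =>
    continuousOn_const.integrableOn_compact (isCompact_closedBall _ _)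
  have h1 : ∫ z in closedBall y (s / L), fr (w z - a) ≤ c * fr a * s ^ Fintype.card ι :=
    (setIntegral_mono_set (hf.integrableOn_compact (isCompact_closedBall _ _))
      (Filter.Eventually.of_forall fun z => fr_nonneg _) hQ.eventuallyLE).trans hn
  have h2 : ∫ z in closedBall y (s / L), fr (w' (τ z) - a') ≤
      D * (c * fr a' * s ^ Fintype.card ι) :=
    (integral_comp_le (isCompact_closedBall _ _) (isCompact_closedBall _ _) (fun z h => (hz z h).1)
      hi (fun z h => (hz z h).2.1)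
      (fun z h => hD ▸ inv_le_abs_det (hz z h).2.2.1 (hz z h).2.2.2.2.1) hD0 hf'
      fun _ _ => fr_nonneg _).trans (mul_le_mul_of_nonneg_left hn' hD0)
  have h3 := setIntegral_mono_on (i3 (fr ((jacM τ y)ᵀ * a' * jacM τ y - a)))
    (((i3 (2 * Λ * η * fr a')).add (i2.const_mul (Λ ^ 2))).add i1) measurableSet_closedBall
    fun z h => by
      have := Cross_point (a := a) (a' := a') (b := w' (τ z)) y2 (hz z h).2.2.2.1
        (hz z h).2.2.2.2.2.1
      rwa [← (hz z h).2.2.2.2.2.2] at this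
  rw [integral_add' ((i3 _).add (i2.const_mul _)) i1, integral_add' (i3 _) (i2.const_mul _),
    integral_const_mul (Λ ^ 2), setIntegral_const, setIntegral_const, volume_real_cube _ hr.le,
    smul_eq_mul, smul_eq_mul] at h3
  have hV : 0 < (2 * (s / L)) ^ Fintype.card ι := by positivity
  have h4 : s ^ Fintype.card ι ≤ (2 * (s / L)) ^ Fintype.card ι * M := by
    rw [hM, ← mul_pow]
    refine pow_le_pow_left₀ hs.le ?_ _
    rw [mul_assoc, div_mul_cancel₀ _ (by positivity)]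
    linarith
  have h5 := Cross_back y1 y3 a a'
  have hA := fr_nonneg a
  have hA' := fr_nonneg a'
  generalize fr ((jacM τ y)ᵀ * a' * jacM τ y - a) = X at *
  generalize fr a = A at *
  generalize fr a' = A' at *
  have h6 : X ≤ (2 * Λ * η + Λ ^ 2 * D * M * c) * A' + M * c * A := by
    refine le_of_mul_le_mul_left ?_ hV
    have k1 := mul_le_mul_of_nonneg_left h2 (sq_nonneg Λ)
    have k2 := mul_le_mul_of_nonneg_left h4 (mul_nonneg hc0 hA)
    have k3 := mul_le_mul_of_nonneg_left h4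
      (mul_nonneg (mul_nonneg (sq_nonneg Λ) hD0) (mul_nonneg hc0 hA'))
    linarith
  have hc1 := hc.trans (min_le_left _ _)
  have hc2 := (le_div_iff₀ (by positivity)).1 (hc.trans (min_le_right _ _))
  have hη2 := (le_div_iff₀ (by positivity)).1 (hη.trans (min_le_right _ _))
  have hP : 0 ≤ Λ ^ 2 * D * M := by positivity
  generalize Λ ^ 2 * D * M = P at *
  have h7 : Λ ^ 2 * (2 * Λ * η + P * c) ≤ 1 / 2 := by
    refine le_of_mul_le_mul_left ?_ hK0
    have k1 := mul_le_mul_of_nonneg_left hc2 hP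
    have k2 := mul_le_mul_of_nonneg_left hη2 (by linarith : 0 ≤ 2 * Λ)
    linarith
  have h8 : A' ≤ 2 * Λ ^ 2 * (1 + M) * A := by
    have k1 := mul_le_mul_of_nonneg_left h6 (sq_nonneg Λ)
    have k2 := mul_le_mul_of_nonneg_right h7 hA'
    have k3 := mul_le_mul_of_nonneg_left hc1 (mul_nonneg (mul_nonneg (sq_nonneg Λ) hM0.le) hA)
    linarith
  constructor
  · have k1 : 2 * Λ * η + P * c ≤ (2 * Λ + P) * (c + η) := by
      have := mul_nonneg (by linarith : 0 ≤ 2 * Λ) hc0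
      have := mul_nonneg hP hη0
      linarith
    have k2 := mul_le_mul k1 h8 hA' (by positivity)
    have k3 : 0 ≤ M * η * A := by positivity
    have k4 : 0 ≤ 2 * Λ ^ 2 * (1 + M) * (c + η) * A := by positivity
    linarith
  · have k3 : 0 ≤ M * A := by positivity
    have k4 : 0 ≤ (2 * Λ + P) * (2 * Λ ^ 2 * (1 + M)) * A := by positivity
    linarith

end Pool.Agent.Work.MP_bf98aa_gt.Mf
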