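import Pool.Agent.Work.MP_bf98aa_gt.Defs

/-!
Differential forms of degree one and two and Riemannian metrics on a smooth manifold `M` modelled
on `ℝ^ι`. A field of (bi)linear forms on the tangent spaces is tested through its coefficients in
the charts `chartAt p` of the manifold.
-/

set_option autoImplicit false

open scoped Manifold ContDiff

namespace Pool.Agent.Work.MP_bf98aa_gt.Mf

/-- Fields of linear forms on the tangent spaces. -/
abbrev Cov (ι : Type) [Fintype ι] (M : Type) [TopologicalSpace M] [ChartedSpace (ι → ℝ) M] :=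
  (x : M) → TangentSpace 𝓘(ℝ, ι → ℝ) x →L[ℝ] ℝ

/-- Fields of bilinear forms on the tangent spaces. -/
abbrev Bil (ι : Type) [Fintype ι] (M : Type) [TopologicalSpace M] [ChartedSpace (ι → ℝ) M] :=
  (x : M) → TangentSpace 𝓘(ℝ, ι → ℝ) x →L[ℝ] TangentSpace 𝓘(ℝ, ι → ℝ) x →L[ℝ] ℝ

variable {ι : Type} [Fintype ι] [DecidableEq ι] {M : Type} [TopologicalSpace M]
  [ChartedSpace (ι → ℝ) M]

/-- The `i`-th coordinate vector of the chart at `p`, at the point with coordinates `y`. -/
noncomputable def cvec (p : M) (y : ι → ℝ) (i : ι) :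
    TangentSpace 𝓘(ℝ, ι → ℝ) ((chartAt (ι → ℝ) p).symm y) :=
  mfderiv 𝓘(ℝ, ι → ℝ) 𝓘(ℝ, ι → ℝ) (chartAt (ι → ℝ) p).symm y (Pi.single i 1)

/-- Coefficients of a field of linear forms in the chart at `p`. -/
noncomputable def coef1 (a : Cov ι M) (p : M) (y : ι → ℝ) (i : ι) : ℝ := a _ (cvec p y i)

/-- Coefficients of a field of bilinear forms in the chart at `p`. -/
noncomputable def coef (w : Bil ι M) (p : M) (y : ι → ℝ) : Matrix ι ι ℝ :=
  Matrix.of fun i j => w _ (cvec p y i) (cvec p y j)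

/-- A symplectic form: smooth coefficients, skew, nondegenerate, closed. -/
def IsSymplectic (w : Bil ι M) : Prop :=
  (∀ p i j, ContDiffOn ℝ ∞ (fun y => coef w p y i j) (chartAt (ι → ℝ) p).target) ∧
  (∀ x u v, w x u v = -w x v u) ∧
  (∀ x u, (∀ v, w x u v = 0) → u = 0) ∧
  ∀ p, ∀ y ∈ (chartAt (ι → ℝ) p).target, ∀ i j l,
    pd i (fun z => coef w p z j l) y + pd j (fun z => coef w p z l i) y
      + pd l (fun z => coef w p z i j) y = 0

/-- A continuous Riemannian metric. -/
def IsMetric (g : Bil ι M) : Prop :=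
  (∀ p i j, ContinuousOn (fun y => coef g p y i j) (chartAt (ι → ℝ) p).target) ∧
  (∀ x u v, g x u v = g x v u) ∧ ∀ x u, u ≠ 0 → 0 < g x u u

/-- At every point the squares of the singular values of `w` with respect to `g` lie in an interval
`[m, (1 + e) m]`, where `m > 0` may depend on the point. -/
def IsPinched (g : Bil ι M) (e : ℝ) (w : Bil ι M) : Prop :=
  ∀ x, ∃ m : ℝ, 0 < m ∧ (∀ u v, w x u v ^ 2 ≤ (1 + e) * m * (g x u u * g x v v)) ∧
    ∀ u, u ≠ 0 → ∃ v, v ≠ 0 ∧ m * (g x u u * g x v v) ≤ w x u v ^ 2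

/-- The difference is the exterior derivative of a smooth 1-form. -/
def Cohomologous (w w' : Bil ι M) : Prop :=
  ∃ a : Cov ι M, (∀ p i, ContDiffOn ℝ ∞ (fun y => coef1 a p y i) (chartAt (ι → ℝ) p).target) ∧
    ∀ p, ∀ y ∈ (chartAt (ι → ℝ) p).target, ∀ i j, coef w p y i j - coef w' p y i j
      = pd i (fun z => coef1 a p z j) y - pd j (fun z => coef1 a p z i) y

/-- A family of fields whose coefficients are jointly smooth in the parameter and the point. -/
def SmoothFamily (H : ℝ → Bil ι M) : Prop :=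
  ∀ p i j, ContDiffOn ℝ ∞ (fun z : ℝ × (ι → ℝ) => coef (H z.1) p z.2 i j)
    (Set.univ ×ˢ (chartAt (ι → ℝ) p).target)

end Pool.Agent.Work.MP_bf98aa_gt.Mf
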