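import Pool.Agent.Work.MP_bf98aa_gt.Mf.Defs

/-!
Uniform closeness of two fields of bilinear forms.
-/

set_option autoImplicit false

namespace Pool.Agent.Work.MP_bf98aa_gt.Mf

variable {ι : Type} [Fintype ι] {M : Type} [TopologicalSpace M] [ChartedSpace (ι → ℝ) M]

/-- At every point the two fields differ by at most `e` in the norm given by `g`. -/
def IsClose (g : Bil ι M) (e : ℝ) (w w' : Bil ι M) : Prop :=
  ∀ x u v, (w x u v - w' x u v) ^ 2 ≤ e ^ 2 * (g x u u * g x v v)

end Pool.Agent.Work.MP_bf98aa_gt.Mf
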