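import Pool.Agent.Work.MP_bf98aa_gt.Mf.Pull

/-!
Extension of symplectic forms from a cube to the whole space.

PLAN. exists_theta: for example θ t = ∫ s in 0..t, ψ s with ψ s = φ s + (1 - φ s) / (4 (1 + s^2)), φ a ContDiffBump at 0 with radii
1 and 3/2 (contDiff of a primitive: contDiff_infty_iff_deriv with intervalIntegral.deriv_integral_right or
Continuous.deriv_integral; integral_one_div_one_add_sq, arctan < π / 2 < 2; ψ ≤ φ + 1 / (4 (1 + s^2))); or
θ t = φ t * t + (1 - φ t) * (2 t / sqrt (t^2 + 1)) with φ monotone on each side. exists_ext: τ y i = y0 i + r * θ ((y i - y0 i) / r),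
jacM τ y = diagonal (deriv θ ((y i - y0 i) / r)), SymOn.pull with U' = univ; on the cube τ y = y and jacM τ y = 1.
contDiffOn_Fm, piola_on: take r with closedBall y (2 r) ⊆ U and the extension w'; w = w' near y; smooth_piola, piola
(../Piola.lean), pd_congr, pd_const_mul; Fm k A i j = -(sqrt N ^ k) * (dens A * A⁻¹ i j).
-/

set_option autoImplicit false
set_option linter.unusedSectionVars false

open MeasureTheory Metric Matrix
open scoped ContDiff RealInnerProductSpace

namespace Pool.Agent.Work.MP_bf98aa_gt.Mf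

variable {ι : Type} [Fintype ι] [DecidableEq ι]

lemma Theta_bump_int {φ : ℝ → ℝ} (hc : Continuous φ) (h1 : ∀ s, |φ s| ≤ 1)
    (h0 : ∀ s, 3 / 2 ≤ |s| → φ s = 0) (t : ℝ) : |∫ s in (0 : ℝ)..t, φ s| ≤ 3 / 2 := by
  have key : ∀ c : ℝ, |c| ≤ 3 / 2 → |∫ s in (0 : ℝ)..c, φ s| ≤ 3 / 2 := fun c hc' => by
    have := intervalIntegral.norm_integral_le_of_norm_le_const (a := 0) (b := c) (f := φ) (C := 1)
      fun s _ => h1 s
    rw [Real.norm_eq_abs, sub_zero, one_mul] at this
    exact this.trans hc'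
  have split : ∀ c : ℝ, |c| ≤ 3 / 2 → (∀ s ∈ Set.uIcc c t, 3 / 2 ≤ |s|) →
      |∫ s in (0 : ℝ)..t, φ s| ≤ 3 / 2 := fun c hc' hz => by
    rw [← intervalIntegral.integral_add_adjacent_intervals (b := c) (hc.intervalIntegrable _ _)
      (hc.intervalIntegrable _ _),
      intervalIntegral.integral_congr (a := c) (b := t) (g := fun _ => 0)
        fun s hs => h0 s (hz s hs)]
    simpa using key c hc'
  rcases le_total t (-(3 / 2)) with h | h
  · refine split (-(3 / 2)) (by rw [abs_neg, abs_of_pos (by norm_num)]) fun s hs => ?_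
    rw [Set.uIcc_of_ge h] at hs
    exact le_abs.2 (Or.inr (by linarith [hs.2]))
  rcases le_total t (3 / 2) with h' | h'
  · exact key t (abs_le.2 ⟨h, h'⟩)
  · refine split (3 / 2) (by rw [abs_of_pos (by norm_num)]) fun s hs => ?_
    rw [Set.uIcc_of_le h'] at hs
    exact le_abs.2 (Or.inl hs.1)

lemma exists_theta : ∃ θ : ℝ → ℝ, ContDiff ℝ ∞ θ ∧ (∀ t, 0 < deriv θ t) ∧ (∀ t, |θ t| ≤ 2) ∧
    ∀ t, |t| ≤ 1 → θ t = t ∧ deriv θ t = 1 := by
  let φ : ContDiffBump (0 : ℝ) := ⟨1, 3 / 2, one_pos, by norm_num⟩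
  have hφ : ContDiff ℝ ∞ (φ : ℝ → ℝ) := φ.contDiff
  have h0 : ∀ s, 0 ≤ φ s := fun s => φ.nonneg
  have h1 : ∀ s, φ s ≤ 1 := fun s => φ.le_one
  have hin : ∀ s, |s| ≤ 1 → φ s = 1 := fun s hs =>
    φ.one_of_mem_closedBall (by simpa [φ] using hs)
  have hout : ∀ s, 3 / 2 ≤ |s| → φ s = 0 := fun s hs =>
    φ.zero_of_le_dist (by simpa [φ] using hs)
  have hq : ContDiff ℝ ∞ fun s : ℝ => 1 / (1 + s ^ 2) :=
    contDiff_const.div (by fun_prop) fun s => by positivity
  have hq0 : ∀ s : ℝ, 0 < 1 / (1 + s ^ 2) := fun s => by positivity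
  set ψ : ℝ → ℝ := fun s => φ s + (1 - φ s) * (1 / (1 + s ^ 2)) / 4 with hψ
  have hψs : ContDiff ℝ ∞ ψ := hφ.add (((contDiff_const.sub hφ).mul hq).div_const 4)
  have hψc : Continuous ψ := hψs.continuous
  have hψ0 : ∀ s, 0 < ψ s := fun s => by
    have a0 := h0 s
    have a1 := h1 s
    have a2 := hq0 s
    simp only [hψ]
    rcases a0.eq_or_lt with h | h
    · rw [← h]; positivity
    · have : 0 ≤ (1 - φ s) * (1 / (1 + s ^ 2)) / 4 :=
        div_nonneg (mul_nonneg (by linarith) a2.le) (by norm_num)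
      linarith
  have hd : ∀ t, HasDerivAt (fun u => ∫ s in (0 : ℝ)..u, ψ s) (ψ t) t := fun t =>
    (hψc.integral_hasStrictDerivAt 0 t).hasDerivAt
  have hdd : deriv (fun u => ∫ s in (0 : ℝ)..u, ψ s) = ψ := funext fun t => (hd t).deriv
  refine ⟨fun u => ∫ s in (0 : ℝ)..u, ψ s, ?_, fun t => ?_, fun t => ?_, fun t ht => ⟨?_, ?_⟩⟩
  · exact contDiff_infty_iff_deriv.2 ⟨fun t => (hd t).differentiableAt, by rw [hdd]; exact hψs⟩
  · rw [hdd]; exact hψ0 t
  · have hi1 : IntervalIntegrable (φ : ℝ → ℝ) volume 0 t := hφ.continuous.intervalIntegrable _ _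
    have hi2 : IntervalIntegrable (fun s : ℝ => 1 / (1 + s ^ 2) / 4) volume 0 t :=
      (hq.continuous.div_const 4).intervalIntegrable _ _
    have hb := intervalIntegral.norm_integral_le_abs_of_norm_le (μ := volume) (a := 0) (b := t)
      (f := ψ) (g := fun s => φ s + 1 / (1 + s ^ 2) / 4) (Filter.Eventually.of_forall fun s => by
        rw [Real.norm_eq_abs, abs_of_pos (hψ0 s)]
        have := mul_nonneg (h0 s) (hq0 s).le
        simp only [hψ]
        linarith) (hi1.add hi2)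
    rw [intervalIntegral.integral_add hi1 hi2, intervalIntegral.integral_div,
      integral_one_div_one_add_sq, Real.arctan_zero, sub_zero, Real.norm_eq_abs] at hb
    have b1 := Theta_bump_int hφ.continuous (fun s => by rw [abs_of_nonneg (h0 s)]; exact h1 s)
      hout t
    have b2 := Real.arctan_lt_pi_div_two t
    have b3 := Real.neg_pi_div_two_lt_arctan t
    have b4 := Real.pi_lt_four
    rw [abs_le] at b1
    exact hb.trans (abs_le.2 ⟨by linarith [b1.1], by linarith [b1.2]⟩)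
  · have : ∫ s in (0 : ℝ)..t, ψ s = ∫ _ in (0 : ℝ)..t, (1 : ℝ) :=
      intervalIntegral.integral_congr fun s hs => by
        have hs' : |s| ≤ 1 := by
          have := Set.abs_sub_left_of_mem_uIcc hs
          rw [sub_zero, sub_zero] at this
          exact this.trans ht
        simp [hψ, hin s hs']
    simpa using this
  · rw [hdd]; simp [hψ, hin t ht]

lemma Theta_jac {θ : ℝ → ℝ} (hθ : ContDiff ℝ ∞ θ) (y0 : ι → ℝ) {r : ℝ} (hr : 0 < r) (y : ι → ℝ) :
    jacM (fun z i => y0 i + r * θ ((z i - y0 i) / r)) y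
      = Matrix.diagonal fun i => deriv θ ((y i - y0 i) / r) := by
  ext i j
  have h1 : HasFDerivAt (fun z : ι → ℝ => (z i - y0 i) / r)
      (r⁻¹ • ContinuousLinearMap.proj (R := ℝ) (φ := fun _ : ι => ℝ) i) y := by
    have := ((hasFDerivAt_apply (𝕜 := ℝ) i y).sub_const (y0 i)).const_mul r⁻¹
    simpa only [div_eq_inv_mul] using this
  have h2 : HasDerivAt θ (deriv θ ((y i - y0 i) / r)) ((y i - y0 i) / r) :=
    (hθ.differentiable (by simp) _).hasDerivAt
  have h3 := ((h2.comp_hasFDerivAt y h1).const_mul r).const_add (y0 i)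
  have h4 : pd j (fun z : ι → ℝ => y0 i + r * θ ((z i - y0 i) / r)) y = _ :=
    congrArg (fun L : (ι → ℝ) →L[ℝ] ℝ => L (Pi.single j 1)) h3.fderiv
  rw [jacM, Matrix.of_apply, h4, Matrix.diagonal_apply]
  by_cases hij : i = j
  · subst hij
    simp
    field_simp
  · simp [hij]

lemma exists_ext {U : Set (ι → ℝ)} (hU : IsOpen U) {w : (ι → ℝ) → Matrix ι ι ℝ} (h : SymOn U w)
    {y0 : ι → ℝ} {r : ℝ} (hr : 0 < r) (hs : closedBall y0 (2 * r) ⊆ U) :
    ∃ w', SymOn Set.univ w' ∧ ∀ y ∈ closedBall y0 r, w' y = w y := by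
  obtain ⟨θ, hθ, hpos, hbd, hid⟩ := exists_theta
  set τ : (ι → ℝ) → ι → ℝ := fun z i => y0 i + r * θ ((z i - y0 i) / r) with hτ
  have hτs : ContDiff ℝ ∞ τ := contDiff_pi.2 fun i =>
    contDiff_const.add (contDiff_const.mul (hθ.comp
      (((contDiff_apply ℝ ℝ i).sub contDiff_const).div_const r)))
  have hJ : ∀ y, jacM τ y = Matrix.diagonal fun i => deriv θ ((y i - y0 i) / r) :=
    Theta_jac hθ y0 hr
  have hm : Set.MapsTo τ Set.univ U := fun y _ => hs (by
    rw [mem_closedBall, dist_pi_le_iff (by positivity)]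
    intro i
    rw [Real.dist_eq]
    simp only [hτ, add_sub_cancel_left]
    rw [abs_mul, abs_of_pos hr, mul_comm 2 r]
    exact mul_le_mul_of_nonneg_left (hbd _) hr.le)
  refine ⟨_, h.pull hU isOpen_univ hτs.contDiffOn hm fun y _ => ?_, fun y hy => ?_⟩
  · rw [hJ, Matrix.det_diagonal]
    exact Finset.prod_ne_zero_iff.2 fun i _ => (hpos _).ne'
  · have hb : ∀ i, |(y i - y0 i) / r| ≤ 1 := fun i => by
      rw [abs_div, abs_of_pos hr, div_le_one hr, ← Real.dist_eq]
      exact (dist_le_pi_dist y y0 i).trans hy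
    have e1 : τ y = y := funext fun i => by
      simp only [hτ]
      rw [(hid _ (hb i)).1]
      field_simp
      ring
    have e2 : jacM τ y = 1 := by
      rw [hJ, ← Matrix.diagonal_one]
      exact congrArg _ (funext fun i => (hid _ (hb i)).2)
    simp only [e1, e2, Matrix.transpose_one, Matrix.one_mul, Matrix.mul_one]

lemma Theta_local {U : Set (ι → ℝ)} (hU : IsOpen U) {w : (ι → ℝ) → Matrix ι ι ℝ} (h : SymOn U w)
    {y : ι → ℝ} (hy : y ∈ U) : ∃ w', SymOn Set.univ w' ∧ w =ᶠ[nhds y] w' := by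
  obtain ⟨ε, hε, hb⟩ := Metric.isOpen_iff.1 hU y hy
  obtain ⟨w', h1, h2⟩ := exists_ext hU h (y0 := y) (r := ε / 4) (by positivity)
    ((closedBall_subset_ball (by linarith)).trans hb)
  exact ⟨w', h1, Filter.eventually_of_mem (closedBall_mem_nhds y (by positivity : 0 < ε / 4))
    fun z hz => (h2 z hz).symm⟩

lemma Theta_Fm_apply (k : ℕ) (A : Matrix ι ι ℝ) (i j : ι) :
    Fm k A i j = -(√(Fintype.card ι : ℝ) ^ k) * (dens A * A⁻¹ i j) := by
  simp only [Fm, Matrix.smul_apply, smul_eq_mul]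
  ring

lemma Theta_smoothForm {w : (ι → ℝ) → Matrix ι ι ℝ} (h : SymOn Set.univ w) : SmoothForm w :=
  fun i j => contDiffOn_univ.1 (h.smooth i j)

lemma contDiffOn_Fm (k : ℕ) {U : Set (ι → ℝ)} (hU : IsOpen U) {w : (ι → ℝ) → Matrix ι ι ℝ}
    (h : SymOn U w) (i j : ι) : ContDiffOn ℝ ∞ (fun y => Fm k (w y) i j) U := by
  intro y hy
  obtain ⟨w', h1, h2⟩ := Theta_local hU h hy
  have h3 : ContDiff ℝ ∞ fun z => Fm k (w' z) i j := by
    simp only [Theta_Fm_apply]
    exact contDiff_const.mul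
      (smooth_piola (Theta_smoothForm h1) (fun x => h1.det x trivial) i j)
  refine (h3.contDiffAt.congr_of_eventuallyEq ?_).contDiffWithinAt
  filter_upwards [h2] with z hz
  rw [hz]

lemma piola_on (k : ℕ) {U : Set (ι → ℝ)} (hU : IsOpen U) {w : (ι → ℝ) → Matrix ι ι ℝ}
    (h : SymOn U w) {y : ι → ℝ} (hy : y ∈ U) (j : ι) :
    ∑ i, pd i (fun z => Fm k (w z) i j) y = 0 := by
  obtain ⟨w', h1, h2⟩ := Theta_local hU h hy
  have hs := Theta_smoothForm h1
  have hn : ∀ x, (w' x).det ≠ 0 := fun x => h1.det x trivial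
  have h3 : ∀ i, pd i (fun z => Fm k (w z) i j) y
      = -(√(Fintype.card ι : ℝ) ^ k) * pd i (fun z => dens (w' z) * (w' z)⁻¹ i j) y := fun i => by
    rw [← pd_const_mul ((smooth_piola hs hn i j).differentiable (by simp) y)]
    refine pd_congr ?_ i
    filter_upwards [h2] with z hz
    rw [hz, Theta_Fm_apply]
  simp only [h3]
  rw [← Finset.mul_sum, piola hs (fun x => h1.skew x trivial) hn (fun x => h1.closed x trivial) y j,
    mul_zero]

end Pool.Agent.Work.MP_bf98aa_gt.Mf
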