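import Pool.Agent.Work.MP_bf98aa_gt.Mf.ChartB

/-!
Uniform bounds for the transition maps and for the background data.

PLAN. unif_pair: K = {y ∈ cube p 2 ∩ dom p q | tr p q y ∈ cube q 2} is compact: it is the image under chart p of the compact set
symm p '' cube p 2 ∩ symm q '' cube q 2 (M is T2). IsCompact.exists_cthickening_subset_open gives δ with the compact set
K' = cthickening δ K inside dom p q. On K' the maps jac p q and (jac p q)⁻¹ = jac q p ∘ tr p q (jac_inv) are continuous (contDiffOn_jacM),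
so bounded by Λ and jac is uniformly continuous. ‖fderiv (tr p q) z‖ ≤ N Λ (fderiv_eq_jacM, norm_mulVec_le), so
Convex.norm_image_sub_le_of_norm_fderiv_le on closedBall y (s / L) with L = N Λ + 1. unif_tr: finitely many pairs; the statement of unif_pair is
monotone: it holds for every larger Λ and L and every smaller ρ (Finset induction or Finset.sup'/exists_le).
unif_metric: bd_of_compact with IsMetric.posDef, Bd.mono; fr (coef w0 p y) is continuous and positive on the compact cube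
(det ≠ 0 and card ι ≠ 0 give a nonzero matrix); IsCompact.uniformContinuousOn_of_continuous.
-/

set_option autoImplicit false
set_option linter.unusedSectionVars false

open MeasureTheory Metric Matrix
open scoped Manifold ContDiff

namespace Pool.Agent.Work.MP_bf98aa_gt.Mf

variable {ι : Type} [Fintype ι] [DecidableEq ι] {M : Type} [TopologicalSpace M]
  [ChartedSpace (ι → ℝ) M] [IsManifold 𝓘(ℝ, ι → ℝ) ∞ M]

variable [T2Space M]

/-- The uniform properties of a transition map near a point. -/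
def TrOk (Λ L η ρ : ℝ) (p q : M) (y : ι → ℝ) : Prop :=
  ∀ s : ℝ, 0 < s → s ≤ ρ → ∀ z ∈ closedBall y (s / L), z ∈ dom ι p q ∧
    tr p q z ∈ closedBall (tr p q y) s ∧ fr (jac p q z) ≤ Λ ∧ fr (jac p q z)⁻¹ ≤ Λ ∧
    fr (jac p q z - jac p q y) ≤ η

lemma TrOk.mono {Λ L η ρ Λ' L' ρ' : ℝ} {p q : M} {y : ι → ℝ} (h : TrOk Λ L η ρ p q y)
    (h0 : 0 < L) (hΛ : Λ ≤ Λ') (hL : L ≤ L') (hρ : ρ' ≤ ρ) : TrOk Λ' L' η ρ' p q y := by
  intro s hs hsρ z hz
  obtain ⟨h1, h2, h3, h4, h5⟩ := h s hs (hsρ.trans hρ) z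
    (closedBall_subset_closedBall (div_le_div_of_nonneg_left hs.le h0 hL) hz)
  exact ⟨h1, h2, h3.trans hΛ, h4.trans hΛ, h5⟩

lemma Unif_uc {K : Set (ι → ℝ)} (hK : IsCompact K) {w : (ι → ℝ) → Matrix ι ι ℝ}
    (hw : ContinuousOn w K) {η : ℝ} (hη : 0 < η) :
    ∃ ρ : ℝ, 0 < ρ ∧ ∀ y ∈ K, ∀ z ∈ K, dist z y ≤ ρ → fr (w z - w y) ≤ η := by
  obtain ⟨ρ, h0, h1⟩ := Metric.uniformContinuousOn_iff_le.1
    (hK.uniformContinuousOn_of_continuous (continuous_toW.comp_continuousOn hw)) η hη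
  refine ⟨ρ, h0, fun y hy z hz h => ?_⟩
  have h2 := h1 z hz y hy h
  rw [dist_eq_norm] at h2
  exact h2

lemma Unif_bd {K : Set (ι → ℝ)} (hK : IsCompact K) {f : (ι → ℝ) → ℝ} (hf : ContinuousOn f K) :
    ∃ C : ℝ, ∀ y ∈ K, f y ≤ C := by
  obtain ⟨C, hC⟩ := hK.bddAbove_image hf
  exact ⟨C, fun y hy => hC ⟨y, hy, rfl⟩⟩

lemma Unif_up {κ : Type} (t : Finset κ) (P : κ → ℝ → Prop)
    (hm : ∀ i a b, a ≤ b → P i a → P i b) (h : ∀ i ∈ t, ∃ a, P i a) :
    ∃ a, 1 ≤ a ∧ ∀ i ∈ t, P i a := by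
  classical
  induction t using Finset.induction_on with
  | empty => exact ⟨1, le_rfl, by simp⟩
  | insert j t _ ih =>
    obtain ⟨a, h1, h2⟩ := ih fun i hi => h i (Finset.mem_insert_of_mem hi)
    obtain ⟨b, h3⟩ := h j (Finset.mem_insert_self _ _)
    refine ⟨max a b, h1.trans (le_max_left _ _), fun i hi => ?_⟩
    rcases Finset.mem_insert.1 hi with rfl | hi
    · exact hm _ _ _ (le_max_right _ _) h3
    · exact hm _ _ _ (le_max_left _ _) (h2 i hi)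

lemma Unif_down {κ : Type} (t : Finset κ) (P : κ → ℝ → Prop)
    (hm : ∀ i a b, b ≤ a → P i a → P i b) (h : ∀ i ∈ t, ∃ a, 0 < a ∧ P i a) :
    ∃ a, 0 < a ∧ ∀ i ∈ t, P i a := by
  classical
  induction t using Finset.induction_on with
  | empty => exact ⟨1, one_pos, by simp⟩
  | insert j t _ ih =>
    obtain ⟨a, h1, h2⟩ := ih fun i hi => h i (Finset.mem_insert_of_mem hi)
    obtain ⟨b, h0, h3⟩ := h j (Finset.mem_insert_self _ _)
    refine ⟨min a b, lt_min h1 h0, fun i hi => ?_⟩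
    rcases Finset.mem_insert.1 hi with rfl | hi
    · exact hm _ _ _ (min_le_right _ _) h3
    · exact hm _ _ _ (min_le_left _ _) (h2 i hi)

lemma Unif_jac (p q : M) : ContinuousOn (jac p q : (ι → ℝ) → Matrix ι ι ℝ) (dom ι p q) :=
  continuousOn_matrix fun i j =>
    (contDiffOn_jacM (isOpen_dom p q) (contDiffOn_tr p q) i j).continuousOn

lemma Unif_jac_inv (p q : M) :
    ContinuousOn (fun z : ι → ℝ => (jac p q z)⁻¹) (dom ι p q) :=
  ((Unif_jac q p).comp (contDiffOn_tr p q).continuousOn fun _ hz => tr_mem_dom hz).congr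
    fun _ hz => jac_inv hz

lemma Unif_cpt (A : Cover ι M) {p q : M} (hp : p ∈ A.C) (hq : q ∈ A.C) :
    ∃ K : Set (ι → ℝ), IsCompact K ∧ K ⊆ dom ι p q ∧
      ∀ y ∈ A.cube p 2, y ∈ dom ι p q → tr p q y ∈ A.cube q 2 → y ∈ K := by
  have h1 : ∀ c ∈ A.C, IsCompact ((chartAt (ι → ℝ) c).symm '' A.cube c 2) ∧
      (chartAt (ι → ℝ) c).symm '' A.cube c 2 ⊆ (chartAt (ι → ℝ) c).source := fun c hc => by
    have h2 := A.cube_sub hc (a := 2) (by norm_num)
    refine ⟨(A.isCompact_cube c 2).image_of_continuousOn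
      ((chartAt (ι → ℝ) c).continuousOn_symm.mono h2), ?_⟩
    rintro _ ⟨y, hy, rfl⟩
    exact (chartAt (ι → ℝ) c).map_target (h2 hy)
  refine ⟨chartAt (ι → ℝ) p '' ((chartAt (ι → ℝ) p).symm '' A.cube p 2 ∩
    (chartAt (ι → ℝ) q).symm '' A.cube q 2), ?_, ?_, fun y hy hd ht => ?_⟩
  · exact ((h1 p hp).1.inter (h1 q hq).1).image_of_continuousOn
      ((chartAt (ι → ℝ) p).continuousOn.mono fun x hx => (h1 p hp).2 hx.1)
  · rintro _ ⟨x, hx, rfl⟩
    exact chart_mem_dom ((h1 p hp).2 hx.1) ((h1 q hq).2 hx.2)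
  · exact ⟨_, ⟨⟨y, hy, rfl⟩, ⟨_, ht, symm_tr hd⟩⟩, (chartAt (ι → ℝ) p).right_inv hd.1⟩

lemma unif_pair (A : Cover ι M) {p q : M} (hp : p ∈ A.C) (hq : q ∈ A.C) :
    ∃ Λ L : ℝ, 1 ≤ Λ ∧ 1 ≤ L ∧ ∀ η : ℝ, 0 < η → ∃ ρ : ℝ, 0 < ρ ∧
    ∀ y ∈ A.cube p 2, y ∈ dom ι p q → tr p q y ∈ A.cube q 2 → TrOk Λ L η ρ p q y := by
  obtain ⟨K, hK, hs, hm⟩ := Unif_cpt A hp hq
  obtain ⟨δ, hδ, hsub⟩ := hK.exists_cthickening_subset_open (isOpen_dom p q) hs
  have hK' : IsCompact (cthickening δ K) := hK.cthickening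
  obtain ⟨C1, h1⟩ := Unif_bd hK' (continuous_fr.comp_continuousOn ((Unif_jac p q).mono hsub))
  obtain ⟨C2, h2⟩ := Unif_bd hK' (continuous_fr.comp_continuousOn ((Unif_jac_inv p q).mono hsub))
  obtain ⟨Λ, l0, l1, l2⟩ : ∃ Λ : ℝ, 1 ≤ Λ ∧ C1 ≤ Λ ∧ C2 ≤ Λ :=
    ⟨max 1 (max C1 C2), le_max_left _ _, le_max_of_le_right (le_max_left _ _),
      le_max_of_le_right (le_max_right _ _)⟩
  have hN : (0 : ℝ) ≤ Fintype.card ι * Λ := by positivity
  have hL : (1 : ℝ) ≤ Fintype.card ι * Λ + 1 := by linarith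
  refine ⟨Λ, Fintype.card ι * Λ + 1, l0, hL, fun η hη => ?_⟩
  obtain ⟨ρ, r0, r1⟩ := Unif_uc hK' ((Unif_jac p q).mono hsub) hη
  refine ⟨min δ ρ, lt_min hδ r0, fun y hy hd ht s s0 s1 z hz => ?_⟩
  have e0 : 0 ≤ s / (Fintype.card ι * Λ + 1) := by positivity
  have e1 : s / (Fintype.card ι * Λ + 1) ≤ s := div_le_self s0.le hL
  have hb : closedBall y (s / (Fintype.card ι * Λ + 1)) ⊆ cthickening δ K :=
    (closedBall_subset_closedBall (e1.trans (s1.trans (min_le_left _ _)))).trans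
      (closedBall_subset_cthickening (hm y hy hd ht) δ)
  have hy' := mem_closedBall_self (x := y) e0
  have hdiff : ∀ x ∈ closedBall y (s / (Fintype.card ι * Λ + 1)),
      DifferentiableAt ℝ (tr p q) x := fun x hx =>
    (contDiffAt_tr (hsub (hb hx))).differentiableAt (by simp)
  refine ⟨hsub (hb hz), ?_, (h1 z (hb hz)).trans l1, (h2 z (hb hz)).trans l2,
    r1 y (hb hy') z (hb hz) ((mem_closedBall.1 hz).trans (e1.trans (s1.trans (min_le_right _ _))))⟩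
  have h3 := Convex.norm_image_sub_le_of_norm_fderiv_le (C := Fintype.card ι * Λ + 1) hdiff
    (fun x hx => ContinuousLinearMap.opNorm_le_bound _ (by linarith) fun v => by
      rw [fderiv_eq_jacM (hdiff x hx)]
      refine (norm_mulVec_le _ v).trans (mul_le_mul_of_nonneg_right ?_ (norm_nonneg _))
      have h4 : fr (jacM (tr p q) x) ≤ Λ := (h1 x (hb hx)).trans l1
      have h5 := mul_le_mul_of_nonneg_left h4 (Nat.cast_nonneg (Fintype.card ι))
      linarith)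
    (convex_closedBall _ _) hy' hz
  rw [mem_closedBall, dist_eq_norm] at hz ⊢
  refine h3.trans ?_
  rwa [le_div_iff₀' (by linarith)] at hz

lemma unif_tr (A : Cover ι M) : ∃ Λ L : ℝ, 1 ≤ Λ ∧ 1 ≤ L ∧ ∀ η : ℝ, 0 < η → ∃ ρ : ℝ, 0 < ρ ∧
    ∀ p ∈ A.C, ∀ q ∈ A.C, ∀ y ∈ A.cube p 2, y ∈ dom ι p q → tr p q y ∈ A.cube q 2 →
    TrOk Λ L η ρ p q y := by
  obtain ⟨a, h1, h2⟩ := Unif_up (A.C ×ˢ A.C) (fun x a => 1 ≤ a ∧ ∀ η : ℝ, 0 < η → ∃ ρ : ℝ, 0 < ρ ∧
      ∀ y ∈ A.cube x.1 2, y ∈ dom ι x.1 x.2 → tr x.1 x.2 y ∈ A.cube x.2 2 →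
        TrOk a a η ρ x.1 x.2 y)
    (fun x a b hab h => ⟨h.1.trans hab, fun η hη => by
      obtain ⟨ρ, r0, r1⟩ := h.2 η hη
      exact ⟨ρ, r0, fun y hy hd ht =>
        (r1 y hy hd ht).mono (one_pos.trans_le h.1) hab hab le_rfl⟩⟩)
    fun x hx => by
      obtain ⟨Λ, L, l1, l2, h⟩ := unif_pair A (Finset.mem_product.1 hx).1
        (Finset.mem_product.1 hx).2
      refine ⟨max Λ L, l1.trans (le_max_left _ _), fun η hη => ?_⟩
      obtain ⟨ρ, r0, r1⟩ := h η hη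
      exact ⟨ρ, r0, fun y hy hd ht => (r1 y hy hd ht).mono (one_pos.trans_le l2)
        (le_max_left _ _) (le_max_right _ _) le_rfl⟩
  refine ⟨a, a, h1, h1, fun η hη => ?_⟩
  obtain ⟨ρ, r0, r1⟩ := Unif_down (A.C ×ˢ A.C) (fun x ρ =>
      ∀ y ∈ A.cube x.1 2, y ∈ dom ι x.1 x.2 → tr x.1 x.2 y ∈ A.cube x.2 2 →
        TrOk a a η ρ x.1 x.2 y)
    (fun x b c hbc h y hy hd ht => (h y hy hd ht).mono (one_pos.trans_le h1) le_rfl le_rfl hbc)
    fun x hx => (h2 x hx).2 η hη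
  exact ⟨ρ, r0, fun p hp q hq => r1 (p, q) (Finset.mem_product.2 ⟨hp, hq⟩)⟩

lemma unif_cont (A : Cover ι M) {g : Bil ι M}
    (hg : ∀ p i j, ContinuousOn (fun y => coef g p y i j) (chartAt (ι → ℝ) p).target) {η : ℝ}
    (hη : 0 < η) : ∃ ρ : ℝ, 0 < ρ ∧ ∀ p ∈ A.C, ∀ y ∈ A.cube p 4, ∀ z ∈ A.cube p 4, dist z y ≤ ρ →
    fr (coef g p z - coef g p y) ≤ η := by
  exact Unif_down A.C (fun p ρ => ∀ y ∈ A.cube p 4, ∀ z ∈ A.cube p 4, dist z y ≤ ρ →
      fr (coef g p z - coef g p y) ≤ η)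
    (fun p a b hab h y hy z hz hd => h y hy z hz (hd.trans hab))
    fun p hp => Unif_uc (A.isCompact_cube p 4)
      ((continuousOn_matrix (hg p)).mono (A.cube_sub hp (by norm_num))) hη

lemma Unif_pos (hN : Fintype.card ι ≠ 0) {B : Matrix ι ι ℝ} (h : B.det ≠ 0) : 0 < fr B := by
  refine (fr_nonneg B).lt_of_ne fun e => h ?_
  have h1 : B = 0 := by
    ext i j
    exact abs_nonpos_iff.1 ((abs_le_fr B i j).trans e.ge)
  have := Fintype.card_pos_iff.1 (Nat.pos_of_ne_zero hN)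
  rw [h1, det_zero]

lemma unif_metric (hN : Fintype.card ι ≠ 0) (A : Cover ι M) {g w0 : Bil ι M} (hg : IsMetric g)
    (hw : IsSymplectic w0) : ∃ Λ : ℝ, 1 ≤ Λ ∧ ∀ p ∈ A.C, ∀ y ∈ A.cube p 4,
    Bd Λ (coef g p y) ∧ Λ⁻¹ ≤ fr (coef w0 p y) ∧ fr (coef w0 p y) ≤ Λ := by
  obtain ⟨a, h1, h2⟩ := Unif_up A.C (fun p a => ∀ y ∈ A.cube p 4,
      Bd a (coef g p y) ∧ (fr (coef w0 p y))⁻¹ ≤ a ∧ fr (coef w0 p y) ≤ a)
    (fun p a b hab h y hy => ⟨(h y hy).1.mono hab, (h y hy).2.1.trans hab, (h y hy).2.2.trans hab⟩)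
    fun p hp => by
      have hs := A.cube_sub hp (a := 4) (by norm_num)
      have hK := A.isCompact_cube p 4
      have hc : ContinuousOn (fun y => fr (coef w0 p y)) (A.cube p 4) :=
        continuous_fr.comp_continuousOn
          ((continuousOn_matrix fun i j => (hw.1 p i j).continuousOn).mono hs)
      obtain ⟨a, ha⟩ := bd_of_compact hK ((continuousOn_matrix (hg.1 p)).mono hs)
        fun y hy => hg.posDef (hs hy)
      obtain ⟨b, hb⟩ := Unif_bd hK (hc.inv₀ fun y hy => (Unif_pos hN ((hw.symOn p).det y (hs hy))).ne')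
      obtain ⟨c, hc⟩ := Unif_bd hK hc
      exact ⟨max a (max b c), fun y hy => ⟨(ha y hy).mono (le_max_left _ _),
        (hb y hy).trans (le_max_of_le_right (le_max_left _ _)),
        (hc y hy).trans (le_max_of_le_right (le_max_right _ _))⟩⟩
  refine ⟨a, h1, fun p hp y hy => ⟨(h2 p hp y hy).1, ?_, (h2 p hp y hy).2.2⟩⟩
  exact inv_le_of_inv_le₀ (Unif_pos hN ((hw.symOn p).det y (A.cube_sub hp (by norm_num) hy)))
    (h2 p hp y hy).2.1

lemma exists_rad (A : Cover ι M) : ∃ ρ : ℝ, 0 < ρ ∧ ∀ p ∈ A.C, ρ ≤ A.r p := by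
  exact Unif_down A.C (fun p ρ => ρ ≤ A.r p) (fun p a b hab h => hab.trans h)
    fun p hp => ⟨A.r p, A.pos p hp, le_rfl⟩

end Pool.Agent.Work.MP_bf98aa_gt.Mf
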