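import Pool.Agent.Work.MP_bf98aa_gt.Mf.Stokes
import Pool.Agent.Work.MP_bf98aa_gt.Mf.Unif
import Pool.Agent.Work.MP_bf98aa_gt.Mf.Theta
import Pool.Agent.Work.MP_bf98aa_gt.Mf.Alg3
import Pool.Agent.Work.MP_bf98aa_gt.Mf.DefsC

/-!
The global energy estimate and its local consequence.

PLAN. flux_Fm: contDiffOn_Fm, Fm_skew, piola_on (with IsSymplectic.symOn, pd_sub), coef_tr, Fm_congr, det_jac_ne, tr_mem_dom.
global_energy: χ : Part A 3 4 (exists_part), Λ from unif_metric, c, C, e0 from coercive_G. On the target dM (coef1 α p) = coef w p - coef w0 p. So by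
stokes 0 = ∑ p, ∫ ext (χ p) p * ip (D p) (coef w p - coef w0 p) (ext vanishes outside cube p 4, ext_zero; restrict all integrals to the compact
cube, where everything is continuous), and pointwise c ext * GM ≤ ext * ip + C e^2 (IsPinched.pinG, ext_nonneg, ext_le_one). Hence
c ∑ p, ∫ in cube p 4, ext * GM ≤ C e^2 ∑ p, volume.real (cube p 4); each term is at least (card C)⁻¹ ∫ in cube p 3, GM (ext_low).
energy_small: b = coef w0 p y, Q = closedBall y s ⊆ cube p 3 (Cover.ball_sub, exists_rad). GM k b (w z) ≤ C1 (GM k (w0 z) (w z) + GM k (w0 z) b)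
(GM_transfer) and GM k (w0 z) b ≤ (Λ^k + 1) η^2 for fr (w0 z - b) ≤ η ≤ 1 (unif_cont). So the integral is at most
C1 C e^2 + C1 (Λ^k + 1) η^2 (2 s)^N; use Λ⁻¹ ≤ fr b; choose η, then e1 with C1 C e1^2 ≤ (d / 2) Λ⁻¹^(k+2) σ^N.
-/

set_option autoImplicit false
set_option linter.unusedSectionVars false

open MeasureTheory Metric Matrix
open scoped Manifold ContDiff

namespace Pool.Agent.Work.MP_bf98aa_gt.Mf

variable {ι : Type} [Fintype ι] [DecidableEq ι] {M : Type} [TopologicalSpace M]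
  [ChartedSpace (ι → ℝ) M] [IsManifold 𝓘(ℝ, ι → ℝ) ∞ M] [T2Space M] [CompactSpace M]

lemma Energy_GM {X : Type} [TopologicalSpace X] (k : ℕ) {a b : X → Matrix ι ι ℝ} {s : Set X}
    (ha : ContinuousOn a s) (hb : ContinuousOn b s) : ContinuousOn (fun x => GM k (a x) (b x)) s := by
  have h1 := (continuous_toW.comp_continuousOn ha)
  have h2 := (continuous_toW.comp_continuousOn hb).sub h1
  exact ((h1.norm.pow k).add (h2.norm.pow k)).mul (h2.norm.pow 2)

lemma Energy_coef {w : Bil ι M} (hw : IsSymplectic w) (p : M) :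
    ContinuousOn (coef w p) (chartAt (ι → ℝ) p).target :=
  continuousOn_matrix fun i j => (hw.1 p i j).continuousOn

lemma Energy_int {K : Set (ι → ℝ)} (hK : IsCompact K) {f : (ι → ℝ) → ℝ} (hf : ContinuousOn f K) :
    IntegrableOn f K := hf.integrableOn_compact hK

lemma Energy_le (k : ℕ) {a b : Matrix ι ι ℝ} {Λ η : ℝ} (ha : fr a ≤ Λ) (h : fr (a - b) ≤ η)
    (h1 : η ≤ 1) : GM k a b ≤ (Λ ^ k + 1) * η := by
  rw [fr_sub_comm] at h
  have h0 := fr_nonneg (b - a)
  have a1 : fr a ^ k ≤ Λ ^ k := pow_le_pow_left₀ (fr_nonneg a) ha k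
  have a2 : fr (b - a) ^ k ≤ 1 := pow_le_one₀ h0 (h.trans h1)
  have a3 : fr (b - a) ^ 2 ≤ η := by nlinarith
  have a4 : 0 ≤ fr a ^ k := pow_nonneg (fr_nonneg a) k
  exact mul_le_mul (add_le_add a1 a2) a3 (by positivity) (by linarith)

lemma flux_Fm (k : ℕ) {w w0 : Bil ι M} (hw : IsSymplectic w) (hw0 : IsSymplectic w0) :
    Flux fun (p : M) (y : ι → ℝ) => Fm k (coef w p y) - Fm k (coef w0 p y) := by
  have o := fun p : M => (chartAt (ι → ℝ) p).open_target
  have s1 := fun p i j => contDiffOn_Fm k (o p) (hw.symOn p) i j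
  have s0 := fun p i j => contDiffOn_Fm k (o p) (hw0.symOn p) i j
  refine ⟨fun p i j => (s1 p i j).sub (s0 p i j), fun p y hy => ?_, fun p y hy j => ?_,
    fun p q y hy => ?_⟩
  · rw [transpose_sub, Fm_skew k ((hw.symOn p).skew y hy) ((hw.symOn p).det y hy),
      Fm_skew k ((hw0.symOn p).skew y hy) ((hw0.symOn p).det y hy), neg_sub']
  · have e : ∀ i, pd i (fun z => (Fm k (coef w p z) - Fm k (coef w0 p z)) i j) y =
        pd i (fun z => Fm k (coef w p z) i j) y - pd i (fun z => Fm k (coef w0 p z) i j) y :=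
      fun i => pd_sub
        (((s1 p i j).contDiffAt ((o p).mem_nhds hy)).differentiableAt (by simp))
        (((s0 p i j).contDiffAt ((o p).mem_nhds hy)).differentiableAt (by simp)) i
    simp only [e]
    rw [Finset.sum_sub_distrib, piola_on k (o p) (hw.symOn p) hy,
      piola_on k (o p) (hw0.symOn p) hy, sub_self]
  · have hy' := (tr_mem_dom hy).1
    rw [coef_tr w hy, coef_tr w0 hy, Fm_congr k (det_jac_ne hy) ((hw.symOn q).det _ hy'),
      Fm_congr k (det_jac_ne hy) ((hw0.symOn q).det _ hy'), Matrix.mul_sub, Matrix.sub_mul,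
      smul_sub]

/-- `w` is cohomologous to a symplectic form close to `w0`. -/
def CohNear (g : Bil ι M) (e : ℝ) (w w0 : Bil ι M) : Prop :=
  ∃ w1, IsSymplectic w1 ∧ IsClose g e w1 w0 ∧ Cohomologous w w1

lemma IsClose.fr_le {g w1 w0 : Bil ι M} {e Λ : ℝ} (he : 0 ≤ e) (h : IsClose g e w1 w0) {p : M}
    {y : ι → ℝ} (hB : Bd Λ (coef g p y)) :
    fr (coef w1 p y - coef w0 p y) ≤ (Fintype.card ι : ℝ) ^ 2 * Λ ^ 2 * e := by
  have h0 := hB.nonneg
  obtain ⟨B, -, hg, h1, -⟩ := hB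
  have h2 : ∀ i, coef g p y i i ≤ Λ ^ 2 := fun i => by
    refine (le_abs_self _).trans ((abs_le_fr _ i i).trans ?_)
    rw [hg]
    refine (fr_mul_le _ _).trans ?_
    rw [fr_transpose, ← sq]
    exact pow_le_pow_left₀ (fr_nonneg _) h1 2
  have h3 : ∀ i, 0 ≤ coef g p y i i := fun i => by simpa using h0 (Pi.single i 1)
  rw [mul_assoc]
  refine fr_le_card fun i j => abs_le_of_sq_le_sq' ?_ (by positivity) |> abs_le.2
  refine (h _ (cvec p y i) (cvec p y j)).trans ?_
  rw [mul_pow, mul_comm, sq (Λ ^ 2)]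
  exact mul_le_mul_of_nonneg_right (mul_le_mul (h2 i) (h2 j) (h3 j) (by positivity)) (sq_nonneg e)

lemma global_energy (k : ℕ) (hN : Fintype.card ι = 2 * (k + 2)) (A : Cover ι M) {g w0 : Bil ι M}
    (hg : IsMetric g) (hw0 : IsSymplectic w0) (hp0 : IsPinched g 0 w0) :
    ∃ C e0 : ℝ, 0 < C ∧ 0 < e0 ∧ ∀ e : ℝ, 0 ≤ e → e ≤ e0 → ∀ w : Bil ι M, IsSymplectic w →
    IsPinched g e w → CohNear g e w w0 → ∀ p ∈ A.C,
    ∫ z in A.cube p 3, GM k (coef w0 p z) (coef w p z) ≤ C * e ^ 2 := by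
  obtain ⟨χ⟩ := exists_part A (a := 3) (b := 4) (by norm_num) (by norm_num) (by norm_num)
  obtain ⟨Λ, hΛ, hm⟩ := unif_metric (by omega) A hg hw0
  obtain ⟨c, C', e0, c0, C0', e00, hc⟩ := coercive_near k hN hΛ
  obtain ⟨T, hT⟩ : ∃ T : ℝ, T = (Fintype.card ι : ℝ) ^ 2 * Λ ^ 2 + 1 := ⟨_, rfl⟩
  have T1 : 1 ≤ T := by rw [hT]; exact le_add_of_nonneg_left (by positivity)
  have T0 : 0 < T := by linarith
  obtain ⟨C, hC⟩ : ∃ C : ℝ, C = C' * T ^ 2 := ⟨_, rfl⟩
  have C0 : 0 < C := by rw [hC]; positivity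
  have V0 : 0 ≤ ∑ q ∈ A.C, volume.real (A.cube q 4) :=
    Finset.sum_nonneg fun _ _ => measureReal_nonneg
  refine ⟨((A.C.card : ℝ) + 1) * (C * (∑ q ∈ A.C, volume.real (A.cube q 4) + 1) / c), e0 / T,
    by positivity, by positivity, fun e he he0 w hw hp ⟨w1, hw1, hcl, α, hα, hd⟩ p hpC => ?_⟩
  rw [le_div_iff₀ T0] at he0
  have hF := flux_Fm k hw hw1
  have hS := stokes χ (by norm_num) hF hα
  have sub : ∀ q ∈ A.C, A.cube q 4 ⊆ (chartAt (ι → ℝ) q).target := fun q hq =>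
    A.cube_sub hq (by norm_num)
  have cx : ∀ q ∈ A.C, Continuous (ext (χ.χ q) q : (ι → ℝ) → ℝ) := fun q hq =>
    (contDiff_ext χ (by norm_num) hq).continuous
  have cG : ∀ q ∈ A.C, ContinuousOn (fun z => GM k (coef w0 q z) (coef w q z)) (A.cube q 4) :=
    fun q hq => (Energy_GM k (Energy_coef hw0 q) (Energy_coef hw q)).mono (sub q hq)
  have iG : ∀ q ∈ A.C, IntegrableOn
      (fun z => ext (χ.χ q) q z * GM k (coef w0 q z) (coef w q z)) (A.cube q 4) := fun q hq =>
    Energy_int (A.isCompact_cube q 4) ((cx q hq).continuousOn.mul (cG q hq))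
  have h1 : ∀ q ∈ A.C, c * ∫ z in A.cube q 4, ext (χ.χ q) q z * GM k (coef w0 q z) (coef w q z) ≤
      (∫ y, ext (χ.χ q) q y * ip (Fm k (coef w q y) - Fm k (coef w1 q y)) (dM (coef1 α q) y)) +
        C * e ^ 2 * volume.real (A.cube q 4) := fun q hq => by
    have mK : MeasurableSet (A.cube q 4) := measurableSet_closedBall
    have ci : ContinuousOn (fun y => ip (Fm k (coef w q y) - Fm k (coef w1 q y))
        (coef w q y - coef w1 q y)) (chartAt (ι → ℝ) q).target :=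
      continuousOn_finsetSum _ fun i _ => continuousOn_finsetSum _ fun j _ =>
        (hF.smooth q i j).continuousOn.mul
          ((hw.1 q i j).continuousOn.sub (hw1.1 q i j).continuousOn)
    have ii : IntegrableOn (fun y => ext (χ.χ q) q y * ip (Fm k (coef w q y) - Fm k (coef w1 q y))
        (coef w q y - coef w1 q y)) (A.cube q 4) :=
      Energy_int (A.isCompact_cube q 4) ((cx q hq).continuousOn.mul (ci.mono (sub q hq)))
    have ic := Energy_int (A.isCompact_cube q 4) (f := fun _ => C * e ^ 2) continuousOn_const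
    have e1 : ∫ y, ext (χ.χ q) q y * ip (Fm k (coef w q y) - Fm k (coef w1 q y))
        (dM (coef1 α q) y) = ∫ y in A.cube q 4, ext (χ.χ q) q y *
          ip (Fm k (coef w q y) - Fm k (coef w1 q y)) (coef w q y - coef w1 q y) := by
      rw [← setIntegral_eq_integral_of_forall_compl_eq_zero (s := A.cube q 4) fun y hy => by
        rw [ext_zero χ hq hy, zero_mul]]
      refine setIntegral_congr_fun mK fun y hy => ?_
      have : dM (coef1 α q) y = coef w q y - coef w1 q y :=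
        Matrix.ext fun i j => (hd q y (sub q hq hy) i j).symm
      simp only [this]
    have e2 : C * e ^ 2 * volume.real (A.cube q 4) = ∫ _ in A.cube q 4, C * e ^ 2 := by
      rw [setIntegral_const, smul_eq_mul, mul_comm]
    rw [e1, e2, ← integral_const_mul, ← integral_add ii ic]
    refine setIntegral_mono_on ((iG q hq).const_mul c) (ii.add ic) mK fun y hy => ?_
    have hy' := sub q hq hy
    obtain ⟨m, m1, m2⟩ := hp.pinG hg hw he hy'
    obtain ⟨m0, m3, m4⟩ := hp0.pinG hg hw0 le_rfl hy'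
    have k0 := hc (e * T) (by positivity) he0 _ _ _ _ m m0 (hm q hq y hy).1 (hm q hq y hy).2.1
      (hm q hq y hy).2.2 ((hw.symOn q).skew y hy') ((hw1.symOn q).skew y hy') m1 m3
      (m2.mono m1.le (hm q hq y hy).1.nonneg (le_mul_of_one_le_right he T1)) m4
      ((hcl.fr_le he (hm q hq y hy).1).trans (by rw [hT]; nlinarith))
    rw [show C' * (e * T) ^ 2 = C * e ^ 2 by rw [hC]; ring] at k0
    have k1 := mul_le_mul_of_nonneg_left k0 (ext_nonneg χ q q y)
    have k2 := mul_le_mul_of_nonneg_right (ext_le_one χ hq q y) (by positivity : 0 ≤ C * e ^ 2)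
    linarith
  have h2 := Finset.sum_le_sum h1
  rw [Finset.sum_add_distrib, hS, zero_add, ← Finset.mul_sum, ← Finset.mul_sum] at h2
  have n0 : ∀ q z, 0 ≤ ext (χ.χ q) q z * GM k (coef w0 q z) (coef w q z) := fun q z =>
    mul_nonneg (ext_nonneg χ q q z) (GM_nonneg _ _ _)
  have h3 := Finset.single_le_sum (f := fun q => ∫ z in A.cube q 4,
    ext (χ.χ q) q z * GM k (coef w0 q z) (coef w q z))
    (fun q _ => integral_nonneg fun z => n0 q z) hpC
  have s34 : A.cube p 3 ⊆ A.cube p 4 := A.cube_mono hpC (by norm_num)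
  have h4 := setIntegral_mono_set (iG p hpC) (Filter.Eventually.of_forall fun z => n0 p z)
    s34.eventuallyLE
  have h5 : (A.C.card : ℝ)⁻¹ * ∫ z in A.cube p 3, GM k (coef w0 p z) (coef w p z) ≤
      ∫ z in A.cube p 3, ext (χ.χ p) p z * GM k (coef w0 p z) (coef w p z) := by
    rw [← integral_const_mul]
    exact setIntegral_mono_on
      ((Energy_int (A.isCompact_cube p 3) ((cG p hpC).mono s34)).const_mul _)
      ((iG p hpC).mono_set s34) measurableSet_closedBall fun y hy =>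
      mul_le_mul_of_nonneg_right (ext_low χ (by norm_num) hpC hy) (GM_nonneg _ _ _)
  have n1 : (0 : ℝ) < A.C.card := Nat.cast_pos.2 (Finset.card_pos.2 ⟨p, hpC⟩)
  have h6 := (inv_mul_le_iff₀ n1).1 (h5.trans (h4.trans (h3.trans ((le_div_iff₀' c0).2 h2))))
  refine h6.trans ?_
  rw [mul_assoc ((A.C.card : ℝ) + 1)]
  refine mul_le_mul (by linarith) ?_ (by positivity) (by positivity)
  rw [div_mul_eq_mul_div]
  refine div_le_div_of_nonneg_right ?_ c0.le
  have : 0 ≤ C * e ^ 2 := by positivity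
  nlinarith

lemma energy_small (k : ℕ) (hN : Fintype.card ι = 2 * (k + 2)) (A : Cover ι M) {g w0 : Bil ι M}
    (hg : IsMetric g) (hw0 : IsSymplectic w0) (hp0 : IsPinched g 0 w0) {d : ℝ} (hd : 0 < d) :
    ∃ ρ : ℝ, 0 < ρ ∧ ∀ σ : ℝ, 0 < σ → ∃ e1 : ℝ, 0 < e1 ∧ ∀ e : ℝ, 0 ≤ e → e ≤ e1 →
    ∀ w : Bil ι M, IsSymplectic w → IsPinched g e w → CohNear g e w w0 →
    ∀ p ∈ A.C, ∀ y ∈ A.cube p 2, ∀ s : ℝ, σ ≤ s → s ≤ ρ →
    ∫ z in closedBall y s, GM k (coef w0 p y) (coef w p z)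
      ≤ d * fr (coef w0 p y) ^ (k + 2) * s ^ Fintype.card ι := by
  obtain ⟨Λ, hΛ, hm⟩ := unif_metric (by omega) A hg hw0
  obtain ⟨C, e0, C0, e00, hE⟩ := global_energy k hN A hg hw0 hp0
  obtain ⟨C1, C10, hT⟩ := GM_transfer (ι := ι) k
  obtain ⟨ρ1, ρ10, hρ1⟩ := exists_rad A
  have Λ0 : 0 < Λ := by linarith
  have L0 : 0 < d / 2 * Λ⁻¹ ^ (k + 2) := by positivity
  have B0 : 0 < C1 * (Λ ^ k + 1) * 2 ^ Fintype.card ι := by positivity
  obtain ⟨η, η0, η1, η2⟩ : ∃ η : ℝ, 0 < η ∧ η ≤ 1 ∧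
      η * (C1 * (Λ ^ k + 1) * 2 ^ Fintype.card ι) ≤ d / 2 * Λ⁻¹ ^ (k + 2) :=
    ⟨min 1 (_ / _), lt_min one_pos (div_pos L0 B0), min_le_left _ _,
      (le_div_iff₀ B0).1 (min_le_right _ _)⟩
  obtain ⟨ρ2, ρ20, hρ2⟩ := unif_cont A (fun p i j => (hw0.1 p i j).continuousOn) η0
  refine ⟨min ρ1 ρ2, lt_min ρ10 ρ20, fun σ σ0 => ?_⟩
  have D0 : 0 < C1 * C := mul_pos C10 C0
  refine ⟨min e0 (min 1 (d / 2 * Λ⁻¹ ^ (k + 2) * σ ^ Fintype.card ι / (C1 * C))),
    lt_min e00 (lt_min one_pos (by positivity)), fun e he he1 w hw hp hc p hpC y hy s hs hsρ => ?_⟩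
  have s0 : 0 < s := σ0.trans_le hs
  have a1 : e ≤ 1 := he1.trans ((min_le_right _ _).trans (min_le_left _ _))
  have a2 := (le_div_iff₀ D0).1 (he1.trans ((min_le_right _ _).trans (min_le_right _ _)))
  have h1 := hE e he (he1.trans (min_le_left _ _)) w hw hp hc p hpC
  have q3 : closedBall y s ⊆ A.cube p 3 := by
    have := A.ball_sub hy (hsρ.trans ((min_le_left _ _).trans (hρ1 p hpC)))
    rwa [show (2 : ℝ) + 1 = 3 by norm_num] at this
  have s34 : A.cube p 3 ⊆ A.cube p 4 := A.cube_mono hpC (by norm_num)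
  have sub : A.cube p 3 ⊆ (chartAt (ι → ℝ) p).target := A.cube_sub hpC (by norm_num)
  have y4 : y ∈ A.cube p 4 := A.cube_mono hpC (by norm_num) hy
  have i3 := Energy_int (A.isCompact_cube p 3)
    ((Energy_GM k (Energy_coef hw0 p) (Energy_coef hw p)).mono sub)
  have iQ := i3.mono_set q3
  have ic := Energy_int (isCompact_closedBall y s) (f := fun _ => (Λ ^ k + 1) * η)
    continuousOn_const
  have h2 := setIntegral_mono_set i3 (Filter.Eventually.of_forall fun z => GM_nonneg _ _ _)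
    q3.eventuallyLE
  have h3 : ∫ z in closedBall y s, GM k (coef w0 p y) (coef w p z) ≤
      ∫ z in closedBall y s, C1 * (GM k (coef w0 p z) (coef w p z) + (Λ ^ k + 1) * η) := by
    refine setIntegral_mono_on (Energy_int (isCompact_closedBall y s) (Energy_GM k
      continuousOn_const ((Energy_coef hw p).mono (q3.trans sub)))) ((iQ.add ic).const_mul C1)
      measurableSet_closedBall fun z hz => (hT _ (coef w0 p z) _).trans ?_
    have z4 := s34 (q3 hz)
    exact mul_le_mul_of_nonneg_left (add_le_add le_rfl (Energy_le k (hm p hpC z z4).2.2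
      (hρ2 p hpC y y4 z z4 ((mem_closedBall.1 hz).trans (hsρ.trans (min_le_right _ _)))) η1)) C10.le
  rw [integral_const_mul, integral_add iQ ic, setIntegral_const, smul_eq_mul,
    volume_real_cube y s0.le, mul_pow] at h3
  have b1 : σ ^ Fintype.card ι ≤ s ^ Fintype.card ι := pow_le_pow_left₀ σ0.le hs _
  have b2 : Λ⁻¹ ^ (k + 2) ≤ fr (coef w0 p y) ^ (k + 2) :=
    pow_le_pow_left₀ (by positivity) (hm p hpC y y4).2.1 _
  have b3 : 0 < s ^ Fintype.card ι := by positivity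
  have b4 := mul_le_mul_of_nonneg_right η2 b3.le
  have b5 := mul_le_mul_of_nonneg_left b1 L0.le
  have b6 := mul_le_mul_of_nonneg_left (h2.trans h1) C10.le
  have b7 : C1 * C * e ^ 2 ≤ C1 * C * e := mul_le_mul_of_nonneg_left (by nlinarith) D0.le
  have b8 := mul_le_mul_of_nonneg_right (mul_le_mul_of_nonneg_left b2 hd.le) b3.le
  linarith

end Pool.Agent.Work.MP_bf98aa_gt.Mf
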