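import Pool.Agent.Work.MP_bf98aa_gt.Mf.LocOsc

/-!
The decay lemma for systems on a set.
-/

set_option autoImplicit false
set_option linter.unusedSectionVars false

open MeasureTheory Metric Matrix
open scoped ContDiff RealInnerProductSpace

namespace Pool.Agent.Work.MP_bf98aa_gt.Mf

variable {ι : Type} [Fintype ι] [DecidableEq ι]

lemma select_in (k : ℕ) : ∃ C q0 : ℝ, 0 < C ∧ 0 < q0 ∧ ∀ w : (ι → ℝ) → W ι, Continuous w →
    ∀ (b : W ι) (x : ι → ℝ) (r q l : ℝ), 0 < r → 0 ≤ q → q ≤ q0 → 0 ≤ l →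
    En k w b x r ≤ (q * ‖b‖ ^ (k + 2) + l) * r ^ Fintype.card ι →
    ∃ y ∈ closedBall x r, En k w (w y) x r ≤ C * (q * ‖w y‖ ^ (k + 2) + l) * r ^ Fintype.card ι := by
  obtain ⟨C1, hC1, h1⟩ := En_transfer (ι := ι) k
  obtain ⟨C, hC, h⟩ := G_transfer (E := W ι) k
  refine ⟨4 * C1 * (C + 1), 1 / (2 * C), by positivity, by positivity, ?_⟩
  intro w hw b x r q l hr hq hq0 hl hE
  obtain ⟨y, hy0, hy⟩ := (isCompact_closedBall x r).exists_isMinOn
    (nonempty_closedBall.2 hr.le) (continuous_G k b (hw.sub continuous_const)).continuousOn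
  refine ⟨y, hy0, ?_⟩
  have h2 : ∫ _ in closedBall x r, G k b (w y - b) ≤ En k w b x r :=
    setIntegral_mono_on (Sel_const _ x r) (Sel_int k hw b x r) measurableSet_closedBall
      fun z hz => hy hz
  rw [setIntegral_const, volume_real_cube x hr.le, smul_eq_mul, mul_pow] at h2
  have h3 : (1 : ℝ) ≤ 2 ^ Fintype.card ι := one_le_pow₀ (by norm_num)
  have hR : 0 < r ^ Fintype.card ι := pow_pos hr _
  have h4 := h1 w hw (w y) b x r hr.le
  have h5 := (h (w y) b b).2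
  have hG := G_nonneg k b (w y - b)
  have hA : 0 ≤ ‖w y‖ ^ (k + 2) := by positivity
  generalize r ^ Fintype.card ι = R at *
  generalize (2 : ℝ) ^ Fintype.card ι = T at *
  generalize G k b (w y - b) = G0 at *
  generalize ‖w y‖ ^ (k + 2) = A at *
  generalize ‖b‖ ^ (k + 2) = B at *
  generalize En k w b x r = Eb at *
  generalize En k w (w y) x r = Ey at *
  have h6 : G0 * R ≤ Eb := by
    have := mul_le_mul_of_nonneg_right h3 (mul_nonneg hG hR.le)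
    nlinarith
  have h7 : G0 ≤ q * B + l := le_of_mul_le_mul_right (h6.trans hE) hR
  have h8 : q * C ≤ 1 / 2 := by
    rw [le_div_iff₀ (by positivity)] at hq0
    linarith
  have h9 : q * B ≤ q * C * A + q * C * G0 := by
    have := mul_le_mul_of_nonneg_left h5 hq
    linarith
  have h10 : q * C * G0 ≤ 1 / 2 * G0 := mul_le_mul_of_nonneg_right h8 hG
  have h11 : q * B + l ≤ 2 * (C + 1) * (q * A + l) := by
    have := mul_nonneg hq hA
    have := mul_nonneg hC.le hl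
    nlinarith
  have h12 : Eb + G0 * R ≤ 2 * (2 * (C + 1) * (q * A + l) * R) := by
    have := mul_le_mul_of_nonneg_right h11 hR.le
    linarith
  have h13 := mul_le_mul_of_nonneg_left h12 hC1.le
  calc Ey ≤ _ := h4.trans h13
    _ = _ := by ring

lemma decay_unit_on (k : ℕ) : ∃ θ : ℝ, 0 < θ ∧ θ < 1 ∧ ∃ d0 : ℝ, 0 < d0 ∧ ∀ d : ℝ, 0 < d → d ≤ d0 →
    ∃ e0 : ℝ, 0 < e0 ∧ ∀ e : ℝ, 0 ≤ e → e ≤ e0 → ∀ (S : Set (ι → ℝ)) (w F : (ι → ℝ) → W ι),
    SysOn S k e w F → closedBall 0 1 ⊆ S → ∀ y0 ∈ S, ‖w y0‖ = 1 → En k w (w y0) 0 1 ≤ d →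
    GoodIn k d w 0 θ := by
  obtain ⟨P⟩ := exists_prof (ι := ι)
  obtain ⟨Co, hCo, hosc⟩ := osc_unit_on P k
  obtain ⟨Ce, ee, hCe, hee, hen⟩ := energy_lemma_on (ι := ι) k
  obtain ⟨Ct, hCt, htr⟩ := En_transfer (ι := ι) k
  obtain ⟨Cs, q0, hCs, hq0, hsel⟩ := select_in (ι := ι) k
  obtain ⟨K, hK⟩ : ∃ K, K = Ce * (16 * Co ^ 2 * (2 ^ k + 1) + 2 ^ (k + 2) + Ct * (1 + 8 * Co ^ 2)) :=
    ⟨_, rfl⟩
  have hK0 : 0 < K := by rw [hK]; positivity
  obtain ⟨θ, hθ, hθ1, hθ2⟩ : ∃ θ : ℝ, 0 < θ ∧ θ ≤ 1 / 4 ∧ θ ≤ (1 / 2) ^ (k + 2) / (Cs * K) :=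
    ⟨min _ _, lt_min (by norm_num) (by positivity), min_le_left _ _, min_le_right _ _⟩
  obtain ⟨ρ, hρ⟩ : ∃ ρ, ρ = θ ^ (Fintype.card ι + 2) := ⟨_, rfl⟩
  have hρ0 : 0 < ρ := by rw [hρ]; positivity
  have hρ1 : ρ ≤ θ := by
    rw [hρ]
    exact pow_le_of_le_one hθ.le (by linarith) (by omega)
  obtain ⟨σ, hσ, hσ1, hσ2⟩ : ∃ σ : ℝ, 0 < σ ∧ σ ≤ 1 / (4 * Co) ∧
      σ ≤ ρ ^ (Fintype.card ι + 5) / 2 :=
    ⟨min _ _, lt_min (by positivity) (by positivity), min_le_left _ _, min_le_right _ _⟩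
  refine ⟨θ, hθ, by linarith, min (min θ (Cs * q0)) (σ ^ 2),
    lt_min (lt_min hθ (by positivity)) (by positivity), fun d hd hd0 => ⟨min d ee, lt_min hd hee, ?_⟩⟩
  intro e he he0 S w F hS hT y0 hy0 hy hE
  obtain ⟨⟨d1, d2⟩, d3⟩ : (d ≤ θ ∧ d ≤ Cs * q0) ∧ d ≤ σ ^ 2 := by simpa only [le_min_iff] using hd0
  obtain ⟨e1, e2⟩ := le_min_iff.1 he0
  have hw := hS.sw.continuous
  obtain ⟨o1, o2⟩ := hosc e d ρ he (by linarith) hd (by linarith) hρ0 (by linarith) S w F hS hT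
    y0 hy0 hy hE
  have t0 := Real.sqrt_nonneg d
  have t1 : √d ≤ σ := Real.sqrt_le_iff.2 ⟨hσ.le, d3⟩
  have t2 : √d ^ 2 = d := Real.sq_sqrt hd.le
  generalize √d = t at o1 o2 t0 t1 t2
  subst t2
  have t3 : Co * t ≤ 1 / 4 := by
    have := t1.trans hσ1
    rw [le_div_iff₀ (by positivity)] at this
    linarith
  have t4 : Co * (t + ρ⁻¹ ^ (Fintype.card ι + 5) * (t ^ 2 + e)) ≤ 2 * Co * t := by
    have a1 : ρ⁻¹ ^ (Fintype.card ι + 5) * (t ^ 2 + e) ≤ t := by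
      rw [inv_pow, inv_mul_le_iff₀ (by positivity)]
      nlinarith [mul_le_mul_of_nonneg_right (t1.trans hσ2) t0]
    nlinarith
  have hskew := skewW_av P.t0 hw hS.skw 0 ρ
  generalize av P.p0 w 0 ρ = b at o1 o2 hskew
  replace o1 := o1.trans t4
  have b1 := abs_le.1 ((abs_norm_sub_norm_le b (w y0)).trans o1)
  rw [hy] at b1
  have g1 : G k (w y0) (b - w y0) ≤ 8 * Co ^ 2 * t ^ 2 := by
    have a1 : ‖b - w y0‖ ^ k ≤ 1 := pow_le_one₀ (norm_nonneg _) (by linarith)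
    have a2 := pow_le_pow_left₀ (norm_nonneg _) o1 2
    rw [G, hy, one_pow]
    nlinarith [mul_le_mul_of_nonneg_right a1 (sq_nonneg ‖b - w y0‖)]
  have g2 : En k w b 0 (3 * θ) ≤ Ct * (1 + 8 * Co ^ 2) * t ^ 2 := by
    refine (En_mono k hw b (closedBall_subset_closedBall (by linarith : 3 * θ ≤ 1))).trans
      ((htr w hw b (w y0) 0 1 zero_le_one).trans ?_)
    rw [one_pow, mul_one, mul_assoc]
    exact mul_le_mul_of_nonneg_left (by linarith) hCt.le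
  have g3 := hen P e he e2 S w F hS b hskew 0 θ ρ (4 * Co * t * θ) hθ hρ0 hρ1 (by positivity)
    ((closedBall_subset_closedBall (by linarith)).trans hT) fun y hy' => by
      refine (o2 y (closedBall_subset_closedBall (by linarith) hy')).trans ?_
      rw [mem_closedBall_zero_iff] at hy'
      exact (mul_le_mul t4 hy' (norm_nonneg _) (by positivity)).trans (le_of_eq (by ring))
  rw [hρ] at g3
  have g4 := g3.trans (DecayB_arith k _ hCe hCo hθ hθ1 t0 t3 d1 he e1 (norm_nonneg b)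
    (by linarith [b1.2]) g2)
  rw [← hK] at g4
  obtain ⟨y, hy1, hy⟩ := hsel w hw b 0 θ (t ^ 2 / Cs) 0 hθ (by positivity)
    (by rw [div_le_iff₀ hCs]; linarith) le_rfl (g4.trans (by
      refine mul_le_mul_of_nonneg_right ?_ (by positivity)
      have a1 : (1 / 2 : ℝ) ^ (k + 2) ≤ ‖b‖ ^ (k + 2) :=
        pow_le_pow_left₀ (by norm_num) (by linarith [b1.1]) _
      rw [le_div_iff₀ (by positivity)] at hθ2
      rw [add_zero, div_mul_eq_mul_div, le_div_iff₀ hCs]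
      nlinarith [mul_le_mul_of_nonneg_left (hθ2.trans a1) (sq_nonneg t)]))
  refine ⟨y, hy1, hy.trans (le_of_eq ?_)⟩
  field_simp
  ring

end Pool.Agent.Work.MP_bf98aa_gt.Mf
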