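import Pool.Agent.Work.MP_bf98aa_gt.Mf.Euc

/-!
The energy lemma for systems on a set.
-/

set_option autoImplicit false
set_option linter.unusedSectionVars false

open MeasureTheory Metric Matrix
open scoped ContDiff RealInnerProductSpace

namespace Pool.Agent.Work.MP_bf98aa_gt.Mf

variable {ι : Type} [Fintype ι] [DecidableEq ι]

lemma EL_B_on {k : ℕ} {w F : (ι → ℝ) → W ι} (hw : Continuous w) (hF : Continuous F) {b b' : W ι}
    {C a : ℝ} (hC : 0 ≤ C)
    (x u : ι → ℝ) {r : ℝ} (h : ∀ y ∈ closedBall x (2 * r), ∀ z,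
      ‖z‖ * ‖F y - b'‖ ≤ C * (G k b z + G k b (w y - b) + a)) (hr : 0 < r) (hu : ‖u‖ ≤ r) :
    ∫ y in closedBall x (2 * r), ‖w (y + u) - b‖ * ‖F y - b'‖ ≤
      C * (2 * En k w b x (3 * r) + a * (4 * r) ^ Fintype.card ι) := by
  have c1 : Continuous fun y => G k b (w (y + u) - b) := continuous_G k b (by fun_prop)
  have c2 : Continuous fun y => G k b (w y - b) := continuous_G k b (by fun_prop)
  refine (setIntegral_mono_on (EL_io (by fun_prop) x _) (EL_io (by fun_prop) x _)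
    measurableSet_closedBall fun y hy => h y hy (w (y + u) - b)).trans ?_
  have c3 : Continuous fun y => G k b (w (y + u) - b) + G k b (w y - b) := c1.add c2
  rw [integral_const_mul, integral_add (EL_io c3 x _) (EL_io continuous_const x _),
    integral_add (EL_io c1 x _) (EL_io c2 x _), EL_shift, setIntegral_const,
    volume_real_cube x (by positivity), smul_eq_mul]
  refine mul_le_mul_of_nonneg_left ?_ hC
  have h1 : En k w b (x + u) (2 * r) ≤ En k w b x (3 * r) :=
    En_mono k hw b (closedBall_subset_closedBall' (by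
      rw [dist_eq_norm, add_sub_cancel_left]
      linarith))
  have h2 : ∫ y in closedBall x (2 * r), G k b (w y - b) ≤ En k w b x (3 * r) :=
    En_mono k hw b (closedBall_subset_closedBall (by linarith))
  rw [show 2 * (2 * r) = 4 * r by ring]
  linarith

lemma energy_lemma_on (k : ℕ) : ∃ C e0 : ℝ, 0 < C ∧ 0 < e0 ∧ ∀ P : Prof ι, ∀ e : ℝ, 0 ≤ e → e ≤ e0 →
    ∀ (S : Set (ι → ℝ)) (w F : (ι → ℝ) → W ι), SysOn S k e w F → ∀ b : W ι, SkewW b →
    ∀ (x : ι → ℝ) (r ρ s : ℝ), 0 < r → 0 < ρ → ρ ≤ r → 0 ≤ s → closedBall x (2 * r) ⊆ S →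
    (∀ y ∈ closedBall x (2 * r), ‖av P.p0 w y ρ - b‖ ≤ s) →
    En k w b x r ≤ C * (s ^ 2 * ‖b‖ ^ k + s ^ (k + 2) + e ^ 2 * ‖b‖ ^ (k + 2)) * r ^ Fintype.card ι
      + C * (ρ / r) * En k w b x (3 * r) := by
  obtain ⟨c, C1, e1, hc, hC1, he1, hco⟩ := coercive (E := W ι) k
  obtain ⟨C2, hC2, hys⟩ := young_s (E := W ι) k (half_pos hc)
  obtain ⟨C3, hC3, hyz⟩ := young_z (E := W ι) k
  obtain ⟨Λ, hΛ, hcut⟩ := exists_cutoff (ι := ι)
  refine ⟨2 / c * ((C1 + C2 + 2 * (Fintype.card ι : ℝ) ^ 3 * Λ * C3) * 4 ^ Fintype.card ι +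
    2 * (2 * (Fintype.card ι : ℝ) ^ 3 * Λ * C3)), min e1 1, by positivity, lt_min he1 one_pos, ?_⟩
  intro P e he he0 S w F hS b hb x r ρ s hr hρ hρr hs hsub hA
  obtain ⟨φ, hφ, p0, p1, p2, p3, p4⟩ := hcut x r hr
  have he1' := he0.trans (min_le_left _ _)
  have he2 := he0.trans (min_le_right _ _)
  have hw := hS.sw.continuous
  have hF := hS.sF.continuous
  have hφc := hφ.continuous
  have hb' : SkewW (‖b‖ ^ k • b) := fun i j => by
    simp only [PiLp.smul_apply, smul_eq_mul, hb i j, mul_neg]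
  have hEn := En_nonneg k w b x (3 * r)
  obtain ⟨hI, hM⟩ := EL_fub P hw (D := fun y => F y - ‖b‖ ^ k • b) (by fun_prop) hφc p3 ρ
    (M := 2 * (Fintype.card ι : ℝ) ^ 3 * ρ * (Λ / r) * (C3 * (2 * En k w b x (3 * r) +
      e ^ 2 * ‖b‖ ^ (k + 2) * (4 * r) ^ Fintype.card ι))) fun v hv => by
      have hv' : ‖ρ • v‖ ≤ ρ := by
        rw [norm_smul, Real.norm_of_nonneg hρ.le]
        exact mul_le_of_le_one_right hρ.le hv
      refine (translate_estimate hS.sw hS.sF hS.skw hS.skF hS.closed hS.coclosed hφ p3 p4 b _ hb'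
        (ρ • v) fun t ht => EL_B_on hw hF hC3.le x _
          (fun y hy z => hyz e he he2 (w y) (F y) b z (hS.near y (hsub hy))) hr ?_).trans ?_
      · rw [norm_smul, Real.norm_of_nonneg ht.1]
        exact (mul_le_of_le_one_left (norm_nonneg _) ht.2).trans (hv'.trans hρr)
      · gcongr
  have hcs := hasCompactSupport_of_ball p3
  have cG : Continuous fun y => G k b (w y - b) := continuous_G k b (by fun_prop)
  have i1 : Integrable φ := hφc.integrable_of_hasCompactSupport hcs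
  have i2 : Integrable fun y => φ y * G k b (w y - b) :=
    (hφc.mul cG).integrable_of_hasCompactSupport hcs.mul_right
  have hpt : ∀ y, c / 2 * (φ y * G k b (w y - b)) ≤
      φ y * (C2 * (s ^ 2 * ‖b‖ ^ k + s ^ (k + 2) + e ^ 2 * ‖b‖ ^ (k + 2)) +
        C1 * (e ^ 2 * ‖b‖ ^ (k + 2))) - φ y * ⟪av P.p0 w y ρ - w y, F y - ‖b‖ ^ k • b⟫ := by
    intro y
    by_cases hy : y ∈ closedBall x (2 * r)
    · rw [← mul_sub, mul_left_comm]
      refine mul_le_mul_of_nonneg_left ?_ (p0 y)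
      have a1 := hco e he he1' (w y) (F y) b (hS.near y (hsub hy))
      have a2 := hys e he he2 (w y) (F y) b s hs (hS.near y (hsub hy))
      have a3 := (real_inner_le_norm (av P.p0 w y ρ - b) (F y - ‖b‖ ^ k • b)).trans
        (mul_le_mul_of_nonneg_right (hA y hy) (norm_nonneg _))
      have a4 : ⟪F y - ‖b‖ ^ k • b, w y - b⟫ = ⟪av P.p0 w y ρ - b, F y - ‖b‖ ^ k • b⟫ -
          ⟪av P.p0 w y ρ - w y, F y - ‖b‖ ^ k • b⟫ := by
        rw [← inner_sub_left, sub_sub_sub_cancel_left, real_inner_comm]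
      linarith
    · simp only [p3 y hy, zero_mul, mul_zero, sub_zero, le_refl]
  have h3 := integral_mono (i2.const_mul _) ((i1.mul_const _).sub hI) hpt
  rw [integral_const_mul] at h3
  erw [integral_sub (i1.mul_const _) hI] at h3
  rw [integral_mul_const] at h3
  have h1 : En k w b x r ≤ ∫ y, φ y * G k b (w y - b) := by
    rw [En, ← setIntegral_congr_fun (f := fun y => φ y * G k b (w y - b)) measurableSet_closedBall
      fun y hy => by simp only [p2 y hy, one_mul]]
    exact setIntegral_le_integral i2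
      (Filter.Eventually.of_forall fun y => mul_nonneg (p0 y) (G_nonneg _ _ _))
  have h2 : ∫ y, φ y ≤ 4 ^ Fintype.card ι * r ^ Fintype.card ι := by
    rw [← setIntegral_eq_integral_of_forall_compl_eq_zero p3]
    refine (setIntegral_mono (EL_io hφc x _) (EL_io continuous_const x _) p1).trans_eq ?_
    rw [setIntegral_const, volume_real_cube x (by positivity), smul_eq_mul, mul_one, ← mul_pow]
    congr 1
    ring
  refine EL_arith (E := e ^ 2 * ‖b‖ ^ (k + 2)) hc hC1 hC2 (by positivity) (by positivity)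
    (by positivity) (le_add_of_nonneg_left (by positivity)) (by positivity) (by positivity)
    ((div_le_one hr).2 hρr) hEn h1 h2 (h3.trans ?_)
  have h4 := (abs_le.1 hM).1
  rw [mul_pow 4 r] at h4
  have e : 2 * (Fintype.card ι : ℝ) ^ 3 * ρ * (Λ / r) * (C3 * (2 * En k w b x (3 * r) +
      e ^ 2 * ‖b‖ ^ (k + 2) * (4 ^ Fintype.card ι * r ^ Fintype.card ι))) =
      2 * (Fintype.card ι : ℝ) ^ 3 * Λ * C3 * (ρ / r) * (2 * En k w b x (3 * r) +
        e ^ 2 * ‖b‖ ^ (k + 2) * (4 ^ Fintype.card ι * r ^ Fintype.card ι)) := by ring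
  linarith

end Pool.Agent.Work.MP_bf98aa_gt.Mf
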