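import Pool.Agent.Work.MP_bf98aa_gt.Mf.LocDecay

/-!
Iteration of the decay lemma for systems on a set.
-/

set_option autoImplicit false
set_option linter.unusedSectionVars false

open MeasureTheory Metric Matrix
open scoped ContDiff RealInnerProductSpace

namespace Pool.Agent.Work.MP_bf98aa_gt.Mf

variable {ι : Type} [Fintype ι] [DecidableEq ι]

lemma SysOn.scale {S : Set (ι → ℝ)} {k : ℕ} {e : ℝ} {w F : (ι → ℝ) → W ι} (h : SysOn S k e w F)
    (x : ι → ℝ) {r c : ℝ} (hc : 0 < c) : SysOn ((fun y => x + r • y) ⁻¹' S) k e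
      (fun y => c • w (x + r • y)) fun y => c ^ (k + 1) • F (x + r • y) := by
  have hn : ∀ a : W ι, ‖c • a‖ = c * ‖a‖ := fun a => by
    rw [norm_smul, Real.norm_of_nonneg hc.le]
  refine ⟨Iter_smooth h.sw x r c, Iter_smooth h.sF x r _, fun y i j => ?_, fun y i j => ?_,
    fun y i j l => ?_, fun y j => ?_, fun y hy => ?_, fun y hy i j => ?_,
    fun y => smul_ne_zero hc.ne' (h.ne _)⟩
  · simp only [PiLp.smul_apply, smul_eq_mul]
    rw [h.skw _ i j, mul_neg]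
  · simp only [PiLp.smul_apply, smul_eq_mul]
    rw [h.skF _ i j, mul_neg]
  · rw [Iter_pd h.sw, Iter_pd h.sw, Iter_pd h.sw, ← mul_add, ← mul_add, h.closed, mul_zero]
  · simp only [Iter_pd h.sF]
    rw [← Finset.mul_sum, h.coclosed, mul_zero]
  · have e1 : c ^ (k + 1) • F (x + r • y) - ‖c • w (x + r • y)‖ ^ k • c • w (x + r • y) =
        c ^ (k + 1) • (F (x + r • y) - ‖w (x + r • y)‖ ^ k • w (x + r • y)) := by
      rw [hn, smul_sub, smul_smul, smul_smul]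
      congr 2
      ring
    rw [e1, norm_smul, Real.norm_of_nonneg (pow_pos hc _).le, hn, mul_pow, mul_left_comm]
    exact mul_le_mul_of_nonneg_left (h.near _ hy) (pow_pos hc _).le
  · have h1 := mul_le_mul_of_nonneg_left (h.pin (x + r • y) hy i j) (pow_pos hc 2).le
    rw [← abs_of_pos (pow_pos hc 2), ← abs_mul, abs_of_pos (pow_pos hc 2)] at h1
    rw [hn]
    have e1 : ∑ l, (c • w (x + r • y)) (i, l) * (c • w (x + r • y)) (j, l) =
        c ^ 2 * ∑ l, w (x + r • y) (i, l) * w (x + r • y) (j, l) := by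
      rw [Finset.mul_sum]
      refine Finset.sum_congr rfl fun l _ => ?_
      simp only [PiLp.smul_apply, smul_eq_mul]
      ring
    have e2 : (if i = j then (c * ‖w (x + r • y)‖) ^ 2 else 0) =
        c ^ 2 * if i = j then ‖w (x + r • y)‖ ^ 2 else 0 := by
      split_ifs <;> ring
    rw [e1, e2, mul_left_comm _ (c ^ 2), ← mul_sub, mul_pow, mul_left_comm e]
    exact h1

lemma good_step_on (k : ℕ) : ∃ θ : ℝ, 0 < θ ∧ θ < 1 ∧ ∃ d0 : ℝ, 0 < d0 ∧ ∀ d : ℝ, 0 < d → d ≤ d0 →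
    ∃ e0 : ℝ, 0 < e0 ∧ ∀ e : ℝ, 0 ≤ e → e ≤ e0 → ∀ (S : Set (ι → ℝ)) (w F : (ι → ℝ) → W ι),
    SysOn S k e w F → ∀ (x : ι → ℝ) (r : ℝ), 0 < r → closedBall x r ⊆ S → GoodIn k d w x r →
    GoodIn k d w x (θ * r) := by
  obtain ⟨θ, h0, h1, d0, hd0, H⟩ := decay_unit_on (ι := ι) k
  refine ⟨θ, h0, h1, d0, hd0, fun d hd hd' => ?_⟩
  obtain ⟨e0, he0, H'⟩ := H d hd hd'
  refine ⟨e0, he0, fun e he he' S w F hS x r hr hT ⟨y1, hy0, hy1⟩ => ?_⟩
  have hn : 0 < ‖w y1‖ := norm_pos_iff.2 (hS.ne y1)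
  have hc : 0 < ‖w y1‖⁻¹ := inv_pos.2 hn
  have e1 : x + r • r⁻¹ • (y1 - x) = y1 := by
    rw [smul_smul, mul_inv_cancel₀ hr.ne', one_smul, add_sub_cancel]
  have hK : 0 < ‖w y1‖⁻¹ ^ (k + 2) * r⁻¹ ^ Fintype.card ι := by positivity
  have hm : ∀ (t : ℝ) (y : ι → ℝ), y ∈ closedBall (0 : ι → ℝ) t → x + r • y ∈ closedBall x (t * r) :=
    fun t y hy => by
      rw [mem_closedBall_iff_norm, add_sub_cancel_left, norm_smul, Real.norm_of_nonneg hr.le,
        mul_comm t]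
      exact mul_le_mul_of_nonneg_left (mem_closedBall_zero_iff.1 hy) hr.le
  obtain ⟨y, hy2, hy⟩ := H' e he he' _ _ _ (hS.scale x (r := r) hc)
    (fun y hy => hT (by simpa using hm 1 y hy)) (r⁻¹ • (y1 - x))
    (by
      show x + r • r⁻¹ • (y1 - x) ∈ S
      rw [e1]; exact hT hy0)
    (by
      show ‖‖w y1‖⁻¹ • w (x + r • r⁻¹ • (y1 - x))‖ = 1
      rw [e1, norm_smul, Real.norm_of_nonneg hc.le, inv_mul_cancel₀ hn.ne'])
    (by
      show En k _ (‖w y1‖⁻¹ • w (x + r • r⁻¹ • (y1 - x))) 0 1 ≤ d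
      rw [e1, En_scale k w _ x hr hc, mul_one]
      refine (mul_le_mul_of_nonneg_left hy1 hK.le).trans_eq ?_
      rw [inv_pow, inv_pow]
      field_simp)
  refine ⟨x + r • y, hm θ y hy2, ?_⟩
  rw [En_scale k w _ x hr hc, norm_smul, Real.norm_of_nonneg hc.le, mul_comm r θ] at hy
  refine le_of_mul_le_mul_left (hy.trans_eq ?_) hK
  rw [mul_pow, mul_pow, inv_pow r]
  field_simp

lemma near_of_energy_W (k : ℕ) {c : ℝ} (hc : 0 < c) : ∃ d : ℝ, 0 < d ∧
    ∀ (w : (ι → ℝ) → W ι) (x : ι → ℝ) (s : ℝ) (a : W ι), 0 < s → 0 < ‖a‖ →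
    ContinuousOn w (closedBall x s) → En k w a x s ≤ d * ‖a‖ ^ (k + 2) * s ^ Fintype.card ι →
    ∫ z in closedBall x s, ‖w z - a‖ ≤ c * ‖a‖ * s ^ Fintype.card ι := by
  have ht : 0 < c / (2 * 2 ^ Fintype.card ι) := by positivity
  refine ⟨c * (c / (2 * 2 ^ Fintype.card ι)) / 2, by positivity, fun w x s a hs ha hw hE => ?_⟩
  have hz : ContinuousOn (fun u => w u - a) (closedBall x s) := hw.sub continuousOn_const
  have hK := isCompact_closedBall x s
  have hG : IntegrableOn (fun u => G k a (w u - a)) (closedBall x s) :=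
    ((continuous_G k a continuous_id).comp_continuousOn hz).integrableOn_compact hK
  have hc' : IntegrableOn (fun _ => c / (2 * 2 ^ Fintype.card ι) * ‖a‖) (closedBall x s) :=
    continuousOn_const.integrableOn_compact hK
  have h2 := integral_mono (hz.norm.integrableOn_compact hK) (hc'.add (hG.div_const _))
    fun u => Near_pt k (w u - a) ha ht
  simp only [Pi.add_apply] at h2
  rw [integral_add hc' (hG.div_const _), integral_div, setIntegral_const, volume_real_cube x hs.le,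
    smul_eq_mul] at h2
  have h3 := div_le_div_of_nonneg_right hE (mul_pos ht (pow_pos ha (k + 1))).le
  refine (h2.trans (add_le_add_right h3 _)).trans_eq ?_
  rw [mul_pow]
  field_simp
  ring

lemma local_thm (k : ℕ) {c : ℝ} (hc : 0 < c) : ∃ d e0 : ℝ, 0 < d ∧ 0 < e0 ∧
    ∀ e : ℝ, 0 ≤ e → e ≤ e0 → ∀ (S : Set (ι → ℝ)) (w F : (ι → ℝ) → W ι), SysOn S k e w F →
    ∀ (x : ι → ℝ) (r : ℝ) (b : W ι), 0 < r → closedBall x r ⊆ S →
    En k w b x r ≤ d * ‖b‖ ^ (k + 2) * r ^ Fintype.card ι →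
    ∀ s : ℝ, 0 < s → s ≤ r → ∃ y ∈ closedBall x r,
      ∫ z in closedBall x s, ‖w z - w y‖ ≤ c * ‖w y‖ * s ^ Fintype.card ι := by
  obtain ⟨θ, h0, h1, d0, hd0, H⟩ := good_step_on (ι := ι) k
  obtain ⟨d2, hd2, hne⟩ := near_of_energy_W (ι := ι) k hc
  obtain ⟨Cs, q0, hCs, hq0, hsel⟩ := select_in (ι := ι) k
  obtain ⟨d1, hd1, hd10, hd12⟩ : ∃ d1 : ℝ, 0 < d1 ∧ d1 ≤ d0 ∧ d1 ≤ d2 * θ ^ Fintype.card ι :=
    ⟨min _ _, lt_min hd0 (by positivity), min_le_left _ _, min_le_right _ _⟩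
  obtain ⟨e0, he0, H'⟩ := H d1 hd1 hd10
  refine ⟨min q0 (d1 / Cs), e0, lt_min hq0 (by positivity), he0,
    fun e he he' S w F hS x r b hr hT hE s hs hsr => ?_⟩
  have hw := hS.sw.continuous
  have hle : ∀ j : ℕ, θ ^ j * r ≤ r := fun j =>
    mul_le_of_le_one_left hr.le (pow_le_one₀ h0.le h1.le)
  have key : ∀ j : ℕ, GoodIn k d1 w x (θ ^ j * r) := by
    intro j
    induction j with
    | zero =>
      obtain ⟨y, hy, hy'⟩ := hsel w hw b x r (min q0 (d1 / Cs)) 0 hr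
        (lt_min hq0 (by positivity)).le (min_le_left _ _) le_rfl (by rwa [add_zero])
      rw [pow_zero, one_mul]
      refine ⟨y, hy, hy'.trans (mul_le_mul_of_nonneg_right ?_ (by positivity))⟩
      rw [add_zero, ← mul_assoc]
      refine mul_le_mul_of_nonneg_right ?_ (by positivity)
      rw [← le_div_iff₀' hCs]
      exact min_le_right _ _
    | succ j ih =>
      have := H' e he he' S w F hS x _ (by positivity)
        ((closedBall_subset_closedBall (hle j)).trans hT) ih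
      rwa [← mul_assoc, ← pow_succ'] at this
  obtain ⟨j, hj1, hj2⟩ := exists_nat_pow_near_of_lt_one (div_pos hs hr) ((div_le_one hr).2 hsr) h0 h1
  rw [lt_div_iff₀ hr] at hj1
  rw [div_le_iff₀ hr] at hj2
  obtain ⟨y, hy, hy'⟩ := key j
  refine ⟨y, closedBall_subset_closedBall (hle j) hy, hne w x s (w y) hs
    (norm_pos_iff.2 (hS.ne y)) hw.continuousOn
    ((En_mono k hw _ (closedBall_subset_closedBall hj2)).trans (hy'.trans ?_))⟩
  have h2 : (θ * (θ ^ j * r)) ^ Fintype.card ι ≤ s ^ Fintype.card ι :=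
    pow_le_pow_left₀ (by positivity) (by rw [← mul_assoc, ← pow_succ']; exact hj1.le) _
  calc d1 * ‖w y‖ ^ (k + 2) * (θ ^ j * r) ^ Fintype.card ι
      ≤ d2 * θ ^ Fintype.card ι * ‖w y‖ ^ (k + 2) * (θ ^ j * r) ^ Fintype.card ι := by gcongr
    _ = d2 * ‖w y‖ ^ (k + 2) * (θ * (θ ^ j * r)) ^ Fintype.card ι := by rw [mul_pow θ]; ring
    _ ≤ _ := by gcongr

end Pool.Agent.Work.MP_bf98aa_gt.Mf
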