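import Pool.Agent.Work.MP_bf98aa_gt.Mf.LocEL

/-!
Oscillation of the mollified form for systems on a set.
-/

set_option autoImplicit false
set_option linter.unusedSectionVars false

open MeasureTheory Metric Matrix
open scoped ContDiff RealInnerProductSpace

namespace Pool.Agent.Work.MP_bf98aa_gt.Mf

variable {ι : Type} [Fintype ι] [DecidableEq ι]

lemma DecayA_int_on {f g : (ι → ℝ) → ℝ} (hf : Continuous f) (hg : Continuous g) {c α : ℝ}
    (h : ∀ y ∈ closedBall (0 : ι → ℝ) 1, f y ≤ c + α * g y) :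
    ∫ y in closedBall (0 : ι → ℝ) 1, f y ≤
      2 ^ Fintype.card ι * c + α * ∫ y in closedBall (0 : ι → ℝ) 1, g y := by
  have i : ∀ u : (ι → ℝ) → ℝ, Continuous u → IntegrableOn u (closedBall (0 : ι → ℝ) 1) :=
    fun u hu => hu.continuousOn.integrableOn_compact (isCompact_closedBall _ _)
  refine (setIntegral_mono_on (i f hf) (i (fun y => c + α * g y) (by fun_prop))
    measurableSet_closedBall h).trans_eq ?_
  rw [integral_add (i _ continuous_const) (i (fun y => α * g y) (by fun_prop)),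
    integral_const_mul, setIntegral_const, volume_real_cube _ zero_le_one, mul_one, smul_eq_mul]

lemma osc_unit_on (P : Prof ι) (k : ℕ) : ∃ C : ℝ, 0 < C ∧ ∀ e d ρ : ℝ, 0 ≤ e → e ≤ 1 → 0 < d → d ≤ 1 →
    0 < ρ → ρ ≤ 1 / 2 → ∀ (T : Set (ι → ℝ)) (w F : (ι → ℝ) → W ι), SysOn T k e w F →
    closedBall 0 1 ⊆ T → ∀ y0 ∈ T, ‖w y0‖ = 1 →
    En k w (w y0) 0 1 ≤ d →
    ‖av P.p0 w 0 ρ - w y0‖ ≤ C * (√d + ρ⁻¹ ^ (Fintype.card ι + 5) * (d + e)) ∧
    ∀ y ∈ closedBall (0 : ι → ℝ) (1 / 2), ‖av P.p0 w y ρ - av P.p0 w 0 ρ‖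
      ≤ C * (√d + ρ⁻¹ ^ (Fintype.card ι + 5) * (d + e)) * ‖y‖ := by
  obtain ⟨C1, hC1, H1⟩ := ha_vector P k
  obtain ⟨C2, hC2, H2⟩ := remainder_le (E := W ι) k
  refine ⟨C1 * ((C2 + 1) * (2 ^ Fintype.card ι + 1)), by positivity,
    fun e d ρ he he1 hd hd1 hρ hρ' T w F S hT y0 hy0 ha hE => ?_⟩
  set a := w y0
  have hw := S.sw.contDiff
  have hη : ContDiff ℝ ∞ fun y => w y - a := hw.sub contDiff_const
  have hh : ContDiff ℝ ∞ fun y => F y - a - (w y - a) - ((k : ℝ) * ⟪a, w y - a⟫) • a :=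
    ((S.sF.contDiff.sub contDiff_const).sub hη).sub
      ((contDiff_const.mul (contDiff_const.inner ℝ hη)).smul contDiff_const)
  have hL : Lin k a (fun y => w y - a)
      fun y => F y - a - (w y - a) - ((k : ℝ) * ⟪a, w y - a⟫) • a := by
    refine ⟨contDiff_euclidean.1 hη, contDiff_euclidean.1 hh, fun x i j => ?_,
      fun x i j l => ?_, ?_⟩
    · rw [PiLp.sub_apply, PiLp.sub_apply, S.skw x i j, S.skw y0 i j]
      ring
    · simp only [DecayA_pd S.sw]
      exact S.closed x i j l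
    · have e : (fun y => w y - a + ((k : ℝ) * ⟪a, w y - a⟫) • a +
          (F y - a - (w y - a) - ((k : ℝ) * ⟪a, w y - a⟫) • a)) = fun y => F y - a := by
        funext y
        abel
      rw [e]
      intro x j
      simp only [DecayA_pd S.sF]
      exact S.coclosed x j
  have hG : Continuous fun y => G k a (w y - a) := continuous_G k a hη.continuous
  have ht : 0 < √d := Real.sqrt_pos.2 hd
  have ht1 : √d ≤ 1 := Real.sqrt_le_one.2 hd1
  have i1 : (∫ y in closedBall (0 : ι → ℝ) 1, ‖w y - a‖) ≤ (2 ^ Fintype.card ι + 1) * √d := by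
    refine (DecayA_int hη.continuous.norm hG (c := √d) (α := (√d)⁻¹) fun y => ?_).trans ?_
    · have h1 := pow_mul_sq_le_G k a (w y - a)
      rw [ha, one_pow, one_mul] at h1
      rw [← sub_le_iff_le_add', ← div_eq_inv_mul, le_div_iff₀ ht]
      nlinarith [sq_nonneg (‖w y - a‖ - √d), mul_nonneg (norm_nonneg (w y - a)) ht.le]
    · have h1 : (√d)⁻¹ * En k w a 0 1 ≤ √d := by
        rw [← div_eq_inv_mul, div_le_iff₀ ht, Real.mul_self_sqrt hd.le]
        exact hE
      unfold En at h1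
      linarith
  have i2 : (∫ y in closedBall (0 : ι → ℝ) 1,
      ‖F y - a - (w y - a) - ((k : ℝ) * ⟪a, w y - a⟫) • a‖) ≤
        C2 * (d + 2 ^ Fintype.card ι * e) := by
    refine (DecayA_int_on hh.continuous.norm hG (c := C2 * e) (α := C2) fun y hy => ?_).trans ?_
    · have h1 := H2 e he he1 a (w y - a) (F y) ha (by simpa using S.near y (hT hy))
      linarith
    · have h1 := mul_le_mul_of_nonneg_left hE hC2.le
      unfold En at h1
      linarith
  obtain ⟨k1, k2⟩ := H1 e he a _ _ ha (S.skw y0) (S.pin y0 hy0) hL _ _ i1 i2 ρ hρ hρ'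
  have hav : ∀ y, av P.p0 (fun y => w y - a) y ρ = av P.p0 w y ρ - a := fun y => by
    rw [av_sub P.t0 hw.continuous continuous_const, av_const, P.one, one_smul]
  simp only [hav, sub_sub_sub_cancel_right] at k1 k2
  have key := mul_le_mul_of_nonneg_left (DecayA_num (V := 2 ^ Fintype.card ι)
    (R := ρ⁻¹ ^ (Fintype.card ι + 5)) (by positivity) (by positivity) hC2.le he hd.le ht.le ht1)
    hC1.le
  rw [← mul_assoc C1 (_ * _)] at key
  exact ⟨k1.trans key, fun y hy =>
    (k2 y hy).trans (mul_le_mul_of_nonneg_right key (norm_nonneg y))⟩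

end Pool.Agent.Work.MP_bf98aa_gt.Mf
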