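import Pool.Agent.Work.MP_bf98aa_gt.Mf.Unc
import Pool.Agent.Work.MP_bf98aa_gt.Mf.Cover
import Pool.Agent.Work.MP_bf98aa_gt.Mf.ChartB
import Pool.Agent.Work.MP_bf98aa_gt.Mf.Beta

/-!
The mollification inside the cohomology class: formal properties.

PLAN. contDiff_bb: contDiff_ext, contDiff_beta (SymOn univ gives SmoothForm by contDiffOn_univ). bb_zero: ext_zero. dM_bb: pd_mul, dM_beta.
moll_zero: bb at s = 0 vanishes (beta_zero), dM 0 = 0, unc2 p 0 = 0. moll_smooth: coef_add, coef_sum, smooth_unc2 with K = cube p 2; the entries of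
dM (bb s) y are jointly smooth: pd i (fun z => f (s, z)) y = fderiv f (s, y) (0, single i 1) (contDiff_pd_param), and vanish outside the closed cube.
moll_coh: Cohomologous.sum, coh_unc2. coef_moll: coef_unc2, dM_bb; if tr q p y is outside cube p 2 then ext and its derivatives vanish there
(pd_eq_zero_of_not_mem); on the cube V p = coef w p and Jᵀ coef w p (tr) J = coef w q y (coef_tr); sum_ext_tr.
sum_ext_tr: x = symm q y; the p-th term equals χ p x (symm_tr; if the condition fails then χ p x = 0 by supp, tr unfolds to chart p x).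
-/

set_option autoImplicit false
set_option linter.unusedSectionVars false

open MeasureTheory Metric Matrix
open scoped Manifold ContDiff

namespace Pool.Agent.Work.MP_bf98aa_gt.Mf

variable {ι : Type} [Fintype ι] [DecidableEq ι] {M : Type} [TopologicalSpace M]
  [ChartedSpace (ι → ℝ) M] [IsManifold 𝓘(ℝ, ι → ℝ) ∞ M] [T2Space M] [CompactSpace M]

variable {A : Cover ι M} (χ : Part A 1 2) (P : Prof ι) {V : M → (ι → ℝ) → Matrix ι ι ℝ}
  {w : Bil ι M}

lemma contDiff_pd_param {f : ℝ × (ι → ℝ) → ℝ} (hf : ContDiff ℝ ∞ f) (i : ι) :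
    ContDiff ℝ ∞ fun z : ℝ × (ι → ℝ) => pd i (fun y => f (z.1, y)) z.2 := by
  exact (ContDiff.fderiv (f := fun (z : ℝ × (ι → ℝ)) y => f (z.1, y)) (m := ∞)
    (hf.comp (contDiff_fst.fst.prodMk contDiff_snd)) contDiff_snd (by simp)).clm_apply
      contDiff_const

lemma contDiff_bb (hV : IsExt A w V) {p : M} (hp : p ∈ A.C) (l : ι) :
    ContDiff ℝ ∞ fun z : ℝ × (ι → ℝ) => bb χ P V p z.1 z.2 l := by
  exact ((contDiff_ext χ (by norm_num) hp).comp contDiff_snd).mul
    (contDiff_beta P (fun i j => contDiffOn_univ.1 ((hV p hp).1.smooth i j)) l)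

lemma bb_zero {p : M} (hp : p ∈ A.C) (s : ℝ) {y : ι → ℝ} (hy : y ∉ A.cube p 2) :
    bb χ P V p s y = 0 := by
  funext l
  rw [bb, ext_zero χ hp hy, zero_mul, Pi.zero_apply]

lemma dM_bb (hV : IsExt A w V) {p : M} (hp : p ∈ A.C) (s : ℝ) (y : ι → ℝ) :
    dM (bb χ P V p s) y = ext (χ.χ p) p y • (avM P (V p) y s - V p y) + rem χ P V p s y := by
  have h1 : DifferentiableAt ℝ (ext (χ.χ p) p : (ι → ℝ) → ℝ) y :=
    (contDiff_ext χ (by norm_num) hp).differentiable (by simp) y
  have h2 : ∀ l, DifferentiableAt ℝ (fun z => beta P (V p) s z l) y := fun l =>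
    ((contDiff_beta P (fun i j => contDiffOn_univ.1 ((hV p hp).1.smooth i j)) l).comp
      (contDiff_const.prodMk contDiff_id)).differentiable (by simp) y
  rw [← dM_beta P (hV p hp).1]
  ext i j
  simp only [dM, bb, rem, Matrix.add_apply, Matrix.smul_apply, Matrix.of_apply, smul_eq_mul,
    pd_mul h1 (h2 _)]
  ring

lemma Moll_far {p : M} (hp : p ∈ A.C) (s : ℝ) {y : ι → ℝ} (hy : y ∉ A.cube p 2) :
    dM (bb χ P V p s) y = 0 := by
  have h : ∀ i j, pd i (fun z => bb χ P V p s z j) y = 0 := fun i j =>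
    pd_eq_zero_of_not_mem (fun z hz => congrFun (bb_zero χ P hp s hz) j) i y hy
  ext i j
  simp only [dM, Matrix.of_apply, h, sub_zero, Matrix.zero_apply]

lemma moll_zero : moll χ P V w 0 = w := by
  have h : ∀ p, unc2 p (dM (bb χ P V p 0)) = 0 := fun p => by
    funext x
    have h0 : ∀ y i j, dM (bb χ P V p 0) y i j = 0 := fun y i j => by
      simp [dM, bb, beta_zero, pd_const]
    rw [unc2]
    split_ifs
    · exact Finset.sum_eq_zero fun i _ => Finset.sum_eq_zero fun j _ => by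
        rw [h0]
        ext u v
        simp
    · rfl
  simp only [moll, h, Finset.sum_const_zero, add_zero]

lemma moll_smooth (hw : IsSymplectic w) (hV : IsExt A w V) : SmoothFamily (moll χ P V w) := by
  intro q i j
  simp only [moll, coef_add, coef_sum, Matrix.add_apply, Matrix.sum_apply]
  refine ((hw.1 q i j).comp contDiffOn_snd fun z hz => hz.2).add
    (ContDiffOn.sum fun p hp => smooth_unc2 (B := fun s => dM (bb χ P V p s)) (A.isCompact_cube p 2)
      (A.cube_sub hp (by norm_num)) (fun i j => ?_) (fun s y hy => Moll_far χ P hp s hy) q i j)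
  exact (contDiff_pd_param (contDiff_bb χ P hV hp j) i).sub
    (contDiff_pd_param (contDiff_bb χ P hV hp i) j)

lemma moll_coh (hV : IsExt A w V) (s : ℝ) : Cohomologous (moll χ P V w s) w := by
  exact Cohomologous.sum w A.C fun p hp => coh_unc2 (A.isCompact_cube p 2)
    (A.cube_sub hp (by norm_num))
    (fun i => (contDiff_bb χ P hV hp i).comp (contDiff_const.prodMk contDiff_id))
    fun y hy => bb_zero χ P hp s hy

open Classical in
lemma sum_ext_tr {q : M} {y : ι → ℝ} (hy : y ∈ (chartAt (ι → ℝ) q).target) :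
    ∑ p ∈ A.C.filter (fun p => y ∈ dom ι q p ∧ tr q p y ∈ A.cube p 2),
      ext (χ.χ p) p (tr q p y) = 1 := by
  refine Eq.trans ?_ (χ.sum ((chartAt (ι → ℝ) q).symm y))
  rw [Finset.sum_filter]
  refine Finset.sum_congr rfl fun p hp => ?_
  split_ifs with h
  · rw [ext, if_pos (tr_mem_dom h.1).1, symm_tr h.1]
  · by_contra h'
    obtain ⟨h1, h2⟩ := χ.supp p hp _ (Ne.symm h')
    exact h ⟨⟨hy, h1⟩, h2⟩

open Classical in
lemma coef_moll (hV : IsExt A w V) (s : ℝ) {q : M} {y : ι → ℝ}
    (hy : y ∈ (chartAt (ι → ℝ) q).target) : coef (moll χ P V w s) q y =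
    ∑ p ∈ A.C.filter (fun p => y ∈ dom ι q p ∧ tr q p y ∈ A.cube p 2),
      (jac q p y)ᵀ * (ext (χ.χ p) p (tr q p y) • avM P (V p) (tr q p y) s
        + rem χ P V p s (tr q p y)) * jac q p y := by
  have h1 : coef w q y = ∑ p ∈ A.C.filter (fun p => y ∈ dom ι q p ∧ tr q p y ∈ A.cube p 2),
      ext (χ.χ p) p (tr q p y) • coef w q y := by
    rw [← Finset.sum_smul, sum_ext_tr χ hy, one_smul]
  rw [moll, coef_add, coef_sum, h1, Finset.sum_filter, Finset.sum_filter, ← Finset.sum_add_distrib]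
  refine Finset.sum_congr rfl fun p hp => ?_
  rw [coef_unc2 p _ hy]
  by_cases h : y ∈ dom ι q p ∧ tr q p y ∈ A.cube p 2
  · rw [if_pos h, if_pos h, if_pos h.1, dM_bb χ P hV hp, coef_tr w h.1,
      (hV p hp).2 _ (A.cube_mono hp (by norm_num) h.2)]
    simp only [smul_sub, Matrix.mul_add, Matrix.add_mul, Matrix.mul_sub, Matrix.sub_mul,
      Matrix.mul_smul, Matrix.smul_mul]
    abel
  · rw [if_neg h, if_neg h, zero_add]
    split_ifs with h2
    · rw [Moll_far χ P hp s fun h3 => h ⟨h2, h3⟩, Matrix.mul_zero, Matrix.zero_mul]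
    · rfl

end Pool.Agent.Work.MP_bf98aa_gt.Mf
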