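import Pool.Agent.Work.MP_bf98aa_gt.Mf.Moll
import Pool.Agent.Work.MP_bf98aa_gt.Mf.Unif
import Pool.Agent.Work.MP_bf98aa_gt.Mf.BetaB
import Pool.Agent.Work.MP_bf98aa_gt.Mf.Cross

/-!
The mollification is close to the local mean values.

PLAN. Λ, L from unif_tr; C1, c0 from cross_chart; C2 from avM_near; C3 from beta_bound; K from pd_ext_bdd; n = card C, N = card ι. With T the
filtered index set of coef_moll and sum_ext_tr, coef moll - a0 = ∑ p ∈ T, (χp • (Jᵀ avM J - a0) + Jᵀ rem J). For p ∈ T, y' = tr q p y ∈ cube p 2 and a' with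
NearAt c (coef w p) y' s a': all cubes of radius ≤ ρ1 around y, y' lie in the cubes of size 3 (exists_rad, Cover.ball_sub), where V = coef w
(NearAt.congr) and coef w is continuous; cross_chart with τ = tr q p (TrOk, contDiffAt_tr, det_jac_ne, injOn_tr, coef_tr; jac = jacM tr by rfl).
fr (Jᵀ avM J - a0) ≤ Λ^2 C2 c fr a' + C1 (c + η) fr a0 ≤ (Λ^2 C2 C1 c + C1 (c + η)) fr a0 and
fr (Jᵀ rem J) ≤ Λ^2 N^2 (2 K C3 s fr a') (fr_congr_le, fr_le_card). fr_sum_le, ext_nonneg, ext_le_one; choose c = η and ρ1 small.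
-/

set_option autoImplicit false
set_option linter.unusedSectionVars false

open MeasureTheory Metric Matrix
open scoped Manifold ContDiff

namespace Pool.Agent.Work.MP_bf98aa_gt.Mf

variable {ι : Type} [Fintype ι] [DecidableEq ι] {M : Type} [TopologicalSpace M]
  [ChartedSpace (ι → ℝ) M] [IsManifold 𝓘(ℝ, ι → ℝ) ∞ M] [T2Space M] [CompactSpace M]

lemma MollB_small {X c : ℝ} (hX : 0 ≤ X) (hc : 0 < c) :
    ∃ δ : ℝ, 0 < δ ∧ ∀ t : ℝ, t ≤ δ → X * t ≤ c := by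
  refine ⟨c / (X + 1), by positivity, fun t ht => (mul_le_mul_of_nonneg_left ht hX).trans ?_⟩
  rw [← mul_div_assoc, div_le_iff₀ (by positivity)]
  nlinarith

lemma MollB_term {J m R a' a0 : Matrix ι ι ℝ} {x Λ α β γ : ℝ} (hx0 : 0 ≤ x) (hx1 : x ≤ 1)
    (hJ : fr J ≤ Λ) (h1 : fr (m - a') ≤ α) (h2 : fr (Jᵀ * a' * J - a0) ≤ β) (h3 : fr R ≤ γ) :
    fr (Jᵀ * (x • m + R) * J - x • a0) ≤ Λ ^ 2 * α + β + Λ ^ 2 * γ := by
  have e : Jᵀ * (x • m + R) * J - x • a0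
      = x • (Jᵀ * (m - a') * J + (Jᵀ * a' * J - a0)) + Jᵀ * R * J := by
    simp only [Matrix.mul_add, Matrix.add_mul, Matrix.mul_sub, Matrix.sub_mul, smul_add, smul_sub,
      Matrix.mul_smul, Matrix.smul_mul]
    abel
  have k : ∀ {B : Matrix ι ι ℝ} {b : ℝ}, fr B ≤ b → fr (Jᵀ * B * J) ≤ Λ ^ 2 * b := fun h =>
    (fr_congr_le _ _).trans (mul_le_mul (pow_le_pow_left₀ (fr_nonneg _) hJ 2) h (fr_nonneg _)
      (sq_nonneg _))
  rw [e]
  refine (fr_add_le _ _).trans (add_le_add ?_ (k h3))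
  rw [fr_smul, abs_of_nonneg hx0]
  exact (mul_le_of_le_one_left (fr_nonneg _) hx1).trans
    ((fr_add_le _ _).trans (add_le_add (k h1) h2))

lemma MollB_rem {A : Cover ι M} (χ : Part A 1 2) (P : Prof ι)
    (V : M → (ι → ℝ) → Matrix ι ι ℝ) {p : M} {s K B : ℝ} {y : ι → ℝ}
    (hK : ∀ i, |pd i (ext (χ.χ p) p) y| ≤ K) (hB : ∀ l, |beta P (V p) s y l| ≤ B) :
    fr (rem χ P V p s y) ≤ (Fintype.card ι : ℝ) ^ 2 * (2 * (K * B)) := by
  refine fr_le_card fun i j => ?_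
  have k : ∀ i j, |pd i (ext (χ.χ p) p) y * beta P (V p) s y j| ≤ K * B := fun i j => by
    rw [abs_mul]
    exact mul_le_mul (hK i) (hB j) (abs_nonneg _) ((abs_nonneg _).trans (hK i))
  refine (abs_sub _ _).trans ?_
  have := k i j
  have := k j i
  linarith

lemma moll_near {A : Cover ι M} (χ : Part A 1 2) (P : Prof ι) {c1 : ℝ} (hc1 : 0 < c1) :
    ∃ c ρ1 : ℝ, 0 < c ∧ 0 < ρ1 ∧ ∀ (w : Bil ι M) (V : M → (ι → ℝ) → Matrix ι ι ℝ),
    IsSymplectic w → IsExt A w V → ∀ s : ℝ, 0 < s → s ≤ ρ1 →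
    (∀ p ∈ A.C, ∀ y ∈ A.cube p 2, ∀ σ : ℝ, 0 < σ → σ ≤ s → ∃ a, NearAt c (coef w p) y σ a) →
    ∀ q ∈ A.C, ∀ y ∈ A.cube q 2, ∀ a0, NearAt c (coef w q) y s a0 →
    fr (coef (moll χ P V w s) q y - a0) ≤ c1 * fr a0 := by
  classical
  obtain ⟨Λ, L, hΛ, hL, hT⟩ := unif_tr A
  obtain ⟨C1, c0, hC1, hc0, hX⟩ := cross_chart (ι := ι) hΛ hL
  obtain ⟨C2, hC2, hA⟩ := avM_near P
  obtain ⟨C3, hC3, hB⟩ := beta_bound P
  obtain ⟨K, hK0, hK⟩ := pd_ext_bdd χ (by norm_num)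
  obtain ⟨r, hr0, hr⟩ := exists_rad A
  obtain ⟨δ1, hδ1, h1⟩ := MollB_small
    (X := A.C.card * (Λ ^ 2 * (C2 * C1) + 2 * C1)) (by positivity) (half_pos hc1)
  obtain ⟨δ2, hδ2, h2⟩ := MollB_small
    (X := A.C.card * (Λ ^ 2 * ((Fintype.card ι : ℝ) ^ 2 * (2 * (K * (C3 * C1))))))
    (by positivity) (half_pos hc1)
  obtain ⟨c, hc, hcc0, hc5, hcδ⟩ : ∃ c : ℝ, 0 < c ∧ c ≤ c0 ∧ c ≤ 1 / 5 ∧ c ≤ δ1 :=
    ⟨min c0 (min (1 / 5) δ1), by positivity, min_le_left _ _,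
      (min_le_right _ _).trans (min_le_left _ _), (min_le_right _ _).trans (min_le_right _ _)⟩
  obtain ⟨ρ, hρ, hT⟩ := hT c hc
  refine ⟨c, min ρ (min r δ2), hc, by positivity, fun w V hw hV s hs hs1 hN q hq y hy a0 h0 => ?_⟩
  obtain ⟨hsρ, hs1⟩ := le_min_iff.1 hs1
  obtain ⟨hsr, hsδ⟩ := le_min_iff.1 hs1
  have hyt := A.cube_sub hq (by norm_num) hy
  have sub : ∀ p ∈ A.C, ∀ z ∈ A.cube p 2, ∀ σ : ℝ, σ ≤ s → closedBall z σ ⊆ A.cube p 4 :=
    fun p hp z hz σ hσ => (A.ball_sub hz (hσ.trans (hsr.trans (hr p hp)))).trans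
      (A.cube_mono hp (by norm_num))
  have cont : ∀ p ∈ A.C, ∀ z ∈ A.cube p 2, ContinuousOn (coef w p) (closedBall z s) :=
    fun p hp z hz => (continuousOn_matrix fun i j => (hw.1 p i j).continuousOn).mono
      ((sub p hp z hz s le_rfl).trans (A.cube_sub hp (by norm_num)))
  have a00 := fr_nonneg a0
  have term : ∀ p ∈ A.C.filter (fun p => y ∈ dom ι q p ∧ tr q p y ∈ A.cube p 2),
      fr ((jac q p y)ᵀ * (ext (χ.χ p) p (tr q p y) • avM P (V p) (tr q p y) s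
        + rem χ P V p s (tr q p y)) * jac q p y - ext (χ.χ p) p (tr q p y) • a0)
      ≤ ((Λ ^ 2 * (C2 * C1) + 2 * C1) * c
        + Λ ^ 2 * ((Fintype.card ι : ℝ) ^ 2 * (2 * (K * (C3 * C1)))) * s) * fr a0 := by
    intro p hp
    obtain ⟨hp, hd, hy'⟩ := Finset.mem_filter.1 hp
    have ok := hT q hq p hp y hy hd hy' s hs hsρ
    obtain ⟨a', ha'⟩ := hN p hp _ hy' s hs le_rfl
    obtain ⟨x1, x2⟩ := hX c c s (tr q p) (coef w q) (coef w p) y a0 a' hc.le hcc0 hcc0 hs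
      (cont q hq y hy) (cont p hp _ hy') ((injOn_tr q p).mono fun z hz => (ok z hz).1)
      (fun z hz => ⟨contDiffAt_tr (ok z hz).1, (ok z hz).2.1, det_jac_ne (ok z hz).1,
        (ok z hz).2.2.1, (ok z hz).2.2.2.1, (ok z hz).2.2.2.2, coef_tr w (ok z hz).1⟩) h0 ha'
    have sm : SmoothForm (V p) := fun i j => contDiffOn_univ.1 ((hV p hp).1.smooth i j)
    have tv : ∀ {σ : ℝ} {a : Matrix ι ι ℝ}, σ ≤ s → NearAt c (coef w p) (tr q p y) σ a →
        NearAt c (V p) (tr q p y) σ a := fun hσ h =>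
      h.congr fun z hz => (hV p hp).2 z (sub p hp _ hy' _ hσ hz)
    have x3 := hA (V p) (continuous_matrix fun i j => (sm i j).continuous) c s _ a' hs
      (tv le_rfl ha')
    have x4 := hB (V p) sm c s _ a' hc.le hc5 hs (fun σ h1 h2 =>
      (hN p hp _ hy' σ h1 h2).imp fun a h => tv h2 h) (tv le_rfl ha')
    refine (MollB_term (ext_nonneg χ _ _ _) (ext_le_one χ hp _ _)
      (ok y (mem_closedBall_self (by positivity))).2.2.1
      (x3.trans (mul_le_mul_of_nonneg_left x2 (by positivity))) x1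
      (MollB_rem χ P V (fun i => hK p hp i _) fun l =>
        (x4 l).trans (mul_le_mul_of_nonneg_left x2 (by positivity)))).trans (le_of_eq ?_)
    ring
  have e : a0 = ∑ p ∈ A.C.filter (fun p => y ∈ dom ι q p ∧ tr q p y ∈ A.cube p 2),
      ext (χ.χ p) p (tr q p y) • a0 := by
    rw [← Finset.sum_smul, sum_ext_tr χ hyt, one_smul]
  rw [coef_moll χ P hV s hyt]
  conv_lhs => rw [e]
  rw [← Finset.sum_sub_distrib]
  refine (fr_sum_le _ _).trans ((Finset.sum_le_card_nsmul _ _ _ term).trans ?_)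
  rw [nsmul_eq_mul, ← mul_assoc]
  refine mul_le_mul_of_nonneg_right ?_ a00
  refine (mul_le_mul_of_nonneg_right (Nat.cast_le.2 (Finset.card_filter_le _ _))
    (by positivity)).trans ?_
  have := h1 c hcδ
  have := h2 s hsδ
  linarith

end Pool.Agent.Work.MP_bf98aa_gt.Mf
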