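import Pool.Agent.Work.MP_bf98aa_gt.Defs

/-!
Differential forms of degree one and two and Riemannian metrics on a smooth manifold `M`. A field of
(bi)linear forms on the tangent spaces is tested through its coefficients in the charts `chartAt p`.
-/

set_option autoImplicit false

open scoped Manifold ContDiff

namespace Pool.Agent.Work.MP_bf98aa_gt.St

section
variable (V : Type) [TopologicalSpace V] [AddCommGroup V] [Module ℝ V]

/-- Linear forms. -/
def Lin1 : Type := V →L[ℝ] ℝ

/-- Bilinear forms. -/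
def Lin2 : Type := V →L[ℝ] V →L[ℝ] ℝ

variable {V}

/-- The value of a linear form. -/
def Lin1.ev (a : Lin1 V) (u : V) : ℝ := ContinuousLinearMap.toLinearMap a u

/-- Insertion of the first argument. -/
def Lin2.ins (b : Lin2 V) (u : V) : Lin1 V := ContinuousLinearMap.toLinearMap b u

/-- The value of a bilinear form. -/
def Lin2.ev (b : Lin2 V) (u v : V) : ℝ := (b.ins u).ev v

/-- Skew and nondegenerate. -/
def SkewNondeg (w : Lin2 V) : Prop :=
  (∀ u v, w.ev u v = -w.ev v u) ∧ ∀ u, (∀ v, w.ev u v = 0) → u = 0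

/-- Symmetric and positive definite. -/
def SymmPos (g : Lin2 V) : Prop := (∀ u v, g.ev u v = g.ev v u) ∧ ∀ u, u ≠ 0 → 0 < g.ev u u

/-- The squares of the singular values of `w` with respect to `g` lie in an interval
`[m, (1 + e) m]` with `m > 0`. -/
def PinchedAt (g : Lin2 V) (e : ℝ) (w : Lin2 V) : Prop :=
  ∃ m : ℝ, 0 < m ∧ (∀ u v, w.ev u v ^ 2 ≤ (1 + e) * m * (g.ev u u * g.ev v v)) ∧
    ∀ u, u ≠ 0 → ∃ v, v ≠ 0 ∧ m * (g.ev u u * g.ev v v) ≤ w.ev u v ^ 2

/-- The forms `c w` and `w'` differ by at most `e` in the norm given by `g`. -/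
def CloseAt (g : Lin2 V) (e c : ℝ) (w w' : Lin2 V) : Prop :=
  ∀ u v, (c * w.ev u v - w'.ev u v) ^ 2 ≤ e ^ 2 * (g.ev u u * g.ev v v)

end

section
variable (E : Type) [NormedAddCommGroup E] [NormedSpace ℝ E] (M : Type) [TopologicalSpace M]
  [ChartedSpace E M]

/-- Fields of linear forms on the tangent spaces. -/
def Cov : Type := (x : M) → Lin1 (TangentSpace 𝓘(ℝ, E) x)

/-- Fields of bilinear forms on the tangent spaces. -/
def Bil : Type := (x : M) → Lin2 (TangentSpace 𝓘(ℝ, E) x)

variable {E M}

/-- The tangent vector with coordinates `v` in the chart at `p`, at the point with coordinates `y`. -/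
noncomputable def push (p : M) (y v : E) : TangentSpace 𝓘(ℝ, E) ((chartAt E p).symm y) :=
  mfderiv 𝓘(ℝ, E) 𝓘(ℝ, E) (chartAt E p).symm y v

/-- A field of linear forms read in the chart at `p`. -/
noncomputable def Cov.loc (a : Cov E M) (p : M) (y v : E) : ℝ := (a _).ev (push p y v)

/-- A field of bilinear forms read in the chart at `p`. -/
noncomputable def Bil.loc (w : Bil E M) (p : M) (y u v : E) : ℝ :=
  (w _).ev (push p y u) (push p y v)

/-- Skew and nondegenerate at every point. -/
def Nondeg (w : Bil E M) : Prop := ∀ x, SkewNondeg (w x)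

/-- Symmetric and positive definite at every point. -/
def Positive (g : Bil E M) : Prop := ∀ x, SymmPos (g x)

/-- Pinched at every point; the number `m` may depend on the point. -/
def IsPinched (g : Bil E M) (e : ℝ) (w : Bil E M) : Prop := ∀ x, PinchedAt (g x) e (w x)

/-- The fields `c w` and `w'` are close at every point. -/
def IsClose (g : Bil E M) (e c : ℝ) (w w' : Bil E M) : Prop :=
  ∀ x, CloseAt (g x) e c (w x) (w' x)

end

variable {ι : Type} [Fintype ι] [DecidableEq ι] {M : Type} [TopologicalSpace M]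
  [ChartedSpace (ι → ℝ) M]

/-- Coefficients of a field of linear forms in the chart at `p`. -/
noncomputable def coef1 (a : Cov (ι → ℝ) M) (p : M) (i : ι) (y : ι → ℝ) : ℝ :=
  a.loc p y (Pi.single i 1)

/-- Coefficients of a field of bilinear forms in the chart at `p`. -/
noncomputable def coef (w : Bil (ι → ℝ) M) (p : M) (i j : ι) (y : ι → ℝ) : ℝ :=
  w.loc p y (Pi.single i 1) (Pi.single j 1)

/-- A symplectic form: smooth coefficients, skew, nondegenerate, closed. -/
def IsSymplectic (w : Bil (ι → ℝ) M) : Prop :=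
  (∀ p i j, ContDiffOn ℝ ∞ (coef w p i j) (chartAt (ι → ℝ) p).target) ∧ Nondeg w ∧
  ∀ p, ∀ y ∈ (chartAt (ι → ℝ) p).target, ∀ i j l,
    pd i (coef w p j l) y + pd j (coef w p l i) y + pd l (coef w p i j) y = 0

/-- A continuous Riemannian metric. -/
def IsMetric (g : Bil (ι → ℝ) M) : Prop :=
  (∀ p i j, ContinuousOn (coef g p i j) (chartAt (ι → ℝ) p).target) ∧ Positive g

/-- The difference is the exterior derivative of a smooth 1-form. -/
def Cohomologous (w w' : Bil (ι → ℝ) M) : Prop :=
  ∃ a : Cov (ι → ℝ) M, (∀ p i, ContDiffOn ℝ ∞ (coef1 a p i) (chartAt (ι → ℝ) p).target) ∧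
    ∀ p, ∀ y ∈ (chartAt (ι → ℝ) p).target, ∀ i j,
      coef w p i j y - coef w' p i j y = pd i (coef1 a p j) y - pd j (coef1 a p i) y

/-- A family of fields whose coefficients are jointly smooth in the parameter and the point. -/
def SmoothFamily (H : ℝ → Bil (ι → ℝ) M) : Prop :=
  ∀ p i j, ContDiffOn ℝ ∞ (fun z : ℝ × (ι → ℝ) => coef (H z.1) p i j z.2)
    (Set.univ ×ˢ (chartAt (ι → ℝ) p).target)

end Pool.Agent.Work.MP_bf98aa_gt.St
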