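import Pool.Agent.Work.MP_bf98aa_gt.Mf.Cover
import Pool.Agent.Work.MP_bf98aa_gt.Mf.Alg1

/-!
The Stokes formula for the pairing of a divergence free bivector density with an exact form.

PLAN. density_change: setIntegral_eq_integral_of_forall_compl_eq_zero on both sides, tr p q '' dom p q = dom q p (tr_mem_dom, tr_tr),
integral_image_eq_integral_abs_det_fderiv_smul (no integrability needed), det_fderiv, injOn_tr. parts: both sides are integrals of
functions vanishing outside K; the functions V i y = φ y * ∑ j, D y i j * a y j are smooth (contDiff_mul_of_supp) with compact support, so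
∫ pd i (V i) = 0 (integral_mul_pd with the roles exchanged, or integral_fderiv_eq_zero type lemmas); on U,
∑ i, pd i (V i) = dφ ⬝ D a + φ ∑ i j, D i j pd i (a j) (pd_mul, pd_sum, div) and ip D (dM a) = 2 ∑ i j, D i j * pd i (a j) by skewness; outside K
everything vanishes (pd_congr). Integrability: continuous with compact support (contDiff_mul_of_supp, contDiffOn_pd, also for pd i φ).
stokes: u p q y = (fun i => pd i (loc (χ p) q) y) ⬝ D q y *ᵥ coef1 a q y. By parts the p-th term is -2 ∫ u' p with ext in place of loc. Insert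
1 = ∑ q, ext (χ q) p y on the target of p: ∫ u' p = ∑ q, ∫ ext (χ q) p * u' p, and ∫ ext (χ q) p * u' p = ∫ ext (χ q) q * u p q by
density_change (pd_loc_tr, coef1_tr, trans, vec_congr with J = jac p q y, symm_tr, ext_eq_loc, pd_loc_far). Exchange the sums;
∑ p, u p q y = 0 on the target of q (sum_pd_loc).
-/

set_option autoImplicit false
set_option linter.unusedSectionVars false

open MeasureTheory Metric Matrix
open scoped Manifold ContDiff

namespace Pool.Agent.Work.MP_bf98aa_gt.Mf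

variable {ι : Type} [Fintype ι] [DecidableEq ι] {M : Type} [TopologicalSpace M]
  [ChartedSpace (ι → ℝ) M] [IsManifold 𝓘(ℝ, ι → ℝ) ∞ M] [T2Space M] [CompactSpace M]

lemma density_change {p q : M} {f h : (ι → ℝ) → ℝ} (hf : ∀ y, y ∉ dom ι p q → f y = 0)
    (hh : ∀ z, z ∉ dom ι q p → h z = 0)
    (he : ∀ y ∈ dom ι p q, f y = |(jac p q y).det| * h (tr p q y)) : ∫ y, f y = ∫ z, h z := by
  have him : tr p q '' dom ι p q = dom ι q p :=
    Set.Subset.antisymm (by rintro _ ⟨y, hy, rfl⟩; exact tr_mem_dom hy)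
      fun z hz => ⟨_, tr_mem_dom hz, tr_tr hz⟩
  have hd : ∀ y ∈ dom ι p q, DifferentiableAt ℝ (tr p q) y := fun y hy =>
    (contDiffAt_tr hy).differentiableAt (by simp)
  rw [← setIntegral_eq_integral_of_forall_compl_eq_zero hf,
    ← setIntegral_eq_integral_of_forall_compl_eq_zero hh, ← him,
    integral_image_eq_integral_abs_det_fderiv_smul volume (isOpen_dom p q).measurableSet
      (fun y hy => (hd y hy).hasFDerivAt.hasFDerivWithinAt) (injOn_tr p q)]
  refine setIntegral_congr_fun (isOpen_dom p q).measurableSet fun y hy => ?_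
  simp only [he y hy, det_fderiv (hd y hy), smul_eq_mul, jac]

lemma Stokes_pd {K : Set (ι → ℝ)} (hK : IsClosed K) {φ : (ι → ℝ) → ℝ} (h0 : ∀ y, y ∉ K → φ y = 0)
    (i : ι) (y : ι → ℝ) (hy : y ∉ K) : pd i φ y = 0 := by
  rw [pd_congr (g := fun _ => 0) (Filter.mem_of_superset (hK.isOpen_compl.mem_nhds hy) h0), pd_const]

lemma Stokes_int {U K : Set (ι → ℝ)} (hU : IsOpen U) (hK : IsCompact K) (hKU : K ⊆ U)
    {φ f : (ι → ℝ) → ℝ} (hφ : ContDiff ℝ ∞ φ) (h0 : ∀ y, y ∉ K → φ y = 0)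
    (hf : ContDiffOn ℝ ∞ f U) : Integrable fun y => φ y * f y :=
  (contDiff_mul_of_supp hU hK.isClosed hKU hφ h0 hf).continuous.integrable_of_hasCompactSupport
    (HasCompactSupport.intro hK fun y hy => by rw [h0 y hy, zero_mul])

lemma Stokes_ip {D : Matrix ι ι ℝ} (hk : Dᵀ = -D) (a : (ι → ℝ) → ι → ℝ) (y : ι → ℝ) :
    ip D (dM a y) = 2 * ∑ i, ∑ j, D i j * pd i (fun z => a z j) y := by
  have h1 : ∑ i, ∑ j, D i j * pd j (fun z => a z i) y =
      -∑ i, ∑ j, D i j * pd i (fun z => a z j) y := by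
    rw [Finset.sum_comm, ← Finset.sum_neg_distrib]
    refine Finset.sum_congr rfl fun i _ => ?_
    rw [← Finset.sum_neg_distrib]
    refine Finset.sum_congr rfl fun j _ => ?_
    rw [show D j i = -D i j from congrFun (congrFun hk i) j, neg_mul]
  simp only [ip, dM, Matrix.of_apply, mul_sub, Finset.sum_sub_distrib, h1]
  ring

lemma Stokes_sm {U : Set (ι → ℝ)} {D : (ι → ℝ) → Matrix ι ι ℝ}
    (hD : ∀ i j, ContDiffOn ℝ ∞ (fun y => D y i j) U) {a : (ι → ℝ) → ι → ℝ}
    (ha : ∀ i, ContDiffOn ℝ ∞ (fun y => a y i) U) (i : ι) :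
    ContDiffOn ℝ ∞ (fun y => ∑ j, D y i j * a y j) U :=
  ContDiffOn.sum fun j _ => (hD i j).mul (ha j)

lemma parts {U K : Set (ι → ℝ)} (hU : IsOpen U) (hK : IsCompact K) (hKU : K ⊆ U)
    {φ : (ι → ℝ) → ℝ} (hφ : ContDiff ℝ ∞ φ) (h0 : ∀ y, y ∉ K → φ y = 0)
    {D : (ι → ℝ) → Matrix ι ι ℝ} (hD : ∀ i j, ContDiffOn ℝ ∞ (fun y => D y i j) U)
    (hk : ∀ y ∈ U, (D y)ᵀ = -D y) (hd : ∀ y ∈ U, ∀ j, ∑ i, pd i (fun z => D z i j) y = 0)
    {a : (ι → ℝ) → ι → ℝ} (ha : ∀ i, ContDiffOn ℝ ∞ (fun y => a y i) U) :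
    ∫ y, φ y * ip (D y) (dM a y) = -2 * ∫ y, (fun i => pd i φ y) ⬝ᵥ D y *ᵥ a y := by
  have hg := Stokes_sm hD ha
  have hV := fun i => contDiff_mul_of_supp hU hK.isClosed hKU hφ h0 (hg i)
  have hz : ∀ i y, y ∉ K → φ y * ∑ j, D y i j * a y j = 0 := fun i y hy => by
    rw [h0 y hy, zero_mul]
  have h1 : ∀ i, ∫ y, pd i (fun z => φ z * ∑ j, D z i j * a z j) y = 0 := fun i => by
    have h2 := integral_mul_pd (hV i) (HasCompactSupport.intro hK (hz i))
      (contDiff_const (c := (1 : ℝ))) i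
    simpa only [pd_const, mul_zero, integral_zero, mul_one, zero_eq_neg] using h2
  have h2 : ∀ i, Integrable (pd i fun z => φ z * ∑ j, D z i j * a z j) := fun i =>
    (contDiff_pd (hV i) i).continuous.integrable_of_hasCompactSupport
      (HasCompactSupport.intro hK (Stokes_pd hK.isClosed (hz i) i))
  have h3 : Integrable fun y => (fun i => pd i φ y) ⬝ᵥ D y *ᵥ a y :=
    integrable_finsetSum Finset.univ fun i _ =>
      Stokes_int hU hK hKU (contDiff_pd hφ i) (Stokes_pd hK.isClosed h0 i) (hg i)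
  have h4 : ∀ y, φ y * ip (D y) (dM a y) = 2 * ∑ i, pd i (fun z => φ z * ∑ j, D z i j * a z j) y
      - 2 * (fun i => pd i φ y) ⬝ᵥ D y *ᵥ a y := fun y => by
    by_cases hy : y ∈ U
    · have d : ∀ {f : (ι → ℝ) → ℝ}, ContDiffOn ℝ ∞ f U → DifferentiableAt ℝ f y := fun h =>
        (h.contDiffAt (hU.mem_nhds hy)).differentiableAt (by simp)
      have e1 : ∀ i, pd i (fun z => φ z * ∑ j, D z i j * a z j) y =
          pd i φ y * ∑ j, D y i j * a y j + φ y * (∑ j, pd i (fun z => D z i j) y * a y j +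
            ∑ j, D y i j * pd i (fun z => a z j) y) := fun i => by
        rw [pd_mul (d hφ.contDiffOn) (d (hg i)), pd_sum _ fun j _ => d ((hD i j).mul (ha j)),
          ← Finset.sum_add_distrib]
        congr 2
        exact Finset.sum_congr rfl fun j _ => pd_mul (d (hD i j)) (d (ha j)) i
      have e2 : ∑ i, ∑ j, pd i (fun z => D z i j) y * a y j = 0 := by
        rw [Finset.sum_comm]
        exact Finset.sum_eq_zero fun j _ => by rw [← Finset.sum_mul, hd y hy, zero_mul]
      simp only [e1, Finset.sum_add_distrib, ← Finset.mul_sum, e2, Stokes_ip (hk y hy), dotProduct,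
        mulVec]
      ring
    · have hy' : y ∉ K := fun h => hy (hKU h)
      simp only [h0 y hy', Stokes_pd hK.isClosed (hz _) _ y hy', Stokes_pd hK.isClosed h0 _ y hy',
        dotProduct, zero_mul, Finset.sum_const_zero, mul_zero, sub_self]
  simp only [h4]
  rw [integral_sub ((integrable_finsetSum _ fun i _ => h2 i).const_mul 2) (h3.const_mul 2),
    integral_const_mul, integral_const_mul, integral_finsetSum _ fun i _ => h2 i]
  simp only [h1, Finset.sum_const_zero]
  ring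

/-- A divergence free bivector density, given in all charts. -/
structure Flux (D : M → (ι → ℝ) → Matrix ι ι ℝ) : Prop where
  smooth : ∀ p i j, ContDiffOn ℝ ∞ (fun y => D p y i j) (chartAt (ι → ℝ) p).target
  skew : ∀ p, ∀ y ∈ (chartAt (ι → ℝ) p).target, (D p y)ᵀ = -D p y
  div : ∀ p, ∀ y ∈ (chartAt (ι → ℝ) p).target, ∀ j, ∑ i, pd i (fun z => D p z i j) y = 0
  trans : ∀ p q, ∀ y ∈ dom ι p q,
    D p y = |(jac p q y).det| • ((jac p q y)⁻¹ * D q (tr p q y) * (jac p q y)⁻¹ᵀ)

lemma stokes {A : Cover ι M} {a b : ℝ} (χ : Part A a b) (hb : b ≤ 8)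
    {D : M → (ι → ℝ) → Matrix ι ι ℝ} (hD : Flux D) {α : Cov ι M}
    (hα : ∀ p i, ContDiffOn ℝ ∞ (fun y => coef1 α p y i) (chartAt (ι → ℝ) p).target) :
    ∑ p ∈ A.C, ∫ y, ext (χ.χ p) p y * ip (D p y) (dM (coef1 α p) y) = 0 := by
  have hT := fun p : M => (chartAt (ι → ℝ) p).open_target
  have hg := fun p => Stokes_sm (hD.smooth p) (hα p)
  have h0 : ∀ p ∈ A.C, ∀ y, y ∉ A.cube p b → ext (χ.χ p) p y = 0 := fun p hp y hy => ext_zero χ hp hy
  have h1 : ∀ p ∈ A.C, ∀ q ∈ A.C,
      ∫ y, loc (χ.χ q) p y * ((fun i => pd i (ext (χ.χ p) p) y) ⬝ᵥ D p y *ᵥ coef1 α p y) =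
      ∫ z, ext (χ.χ q) q z * ((fun i => pd i (loc (χ.χ p) q) z) ⬝ᵥ D q z *ᵥ coef1 α q z) := by
    intro p hp q hq
    refine density_change (p := p) (q := q) (fun y hy => ?_) (fun z hz => ?_) fun y hy => ?_
    · by_cases h : y ∈ (chartAt (ι → ℝ) p).target
      · rw [show loc (χ.χ q) p y = 0 from
          not_not.1 fun e => hy ⟨h, (χ.supp q hq _ e).1⟩, zero_mul]
      · simp only [dotProduct, Stokes_pd (A.isCompact_cube p b).isClosed (h0 p hp) _ y
          fun e => h (A.cube_sub hp hb e), zero_mul, Finset.sum_const_zero, mul_zero]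
    · by_cases h : z ∈ (chartAt (ι → ℝ) q).target
      · simp only [dotProduct, pd_loc_far χ hb hp h hz, zero_mul, Finset.sum_const_zero, mul_zero]
      · rw [ext, if_neg h, zero_mul]
    · have e1 : (fun i => pd i (ext (χ.χ p) p) y) = fun i => pd i (loc (χ.χ p) p) y :=
        funext fun i => pd_congr (ext_eq_loc _ hy.1) i
      rw [e1, pd_loc_tr (χ.smooth p) hy, coef1_tr α hy, hD.trans p q y hy, smul_mulVec,
        dotProduct_smul, vec_congr (det_jac_ne hy), ext, if_pos (tr_mem_dom hy).1, symm_tr hy, loc,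
        smul_eq_mul, mul_left_comm]
  have h2 : ∀ p ∈ A.C, ∫ y, (fun i => pd i (ext (χ.χ p) p) y) ⬝ᵥ D p y *ᵥ coef1 α p y = ∑ q ∈ A.C,
      ∫ z, ext (χ.χ q) q z * ((fun i => pd i (loc (χ.χ p) q) z) ⬝ᵥ D q z *ᵥ coef1 α q z) := by
    intro p hp
    rw [← Finset.sum_congr rfl (h1 p hp), ← integral_finsetSum _ fun q _ => ?_]
    · simp only [← Finset.sum_mul, loc, χ.sum, one_mul]
    · simp only [dotProduct, Finset.mul_sum, mul_left_comm (loc (χ.χ q) p _)]
      exact integrable_finsetSum _ fun i _ => Stokes_int (hT p) (A.isCompact_cube p b)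
        (A.cube_sub hp hb) (contDiff_pd (contDiff_ext χ hb hp) i)
        (Stokes_pd (A.isCompact_cube p b).isClosed (h0 p hp) i)
        ((contDiffOn_loc (χ.smooth q) p).mul (hg p i))
  rw [Finset.sum_congr rfl fun p hp => (parts (hT p) (A.isCompact_cube p b) (A.cube_sub hp hb)
    (contDiff_ext χ hb hp) (h0 p hp) (hD.smooth p) (hD.skew p) (hD.div p) (hα p)).trans
    (congrArg _ (h2 p hp)), ← Finset.mul_sum, Finset.sum_comm, Finset.sum_eq_zero, mul_zero]
  intro q hq
  refine (integral_finsetSum _ fun p _ => Stokes_int (hT q) (A.isCompact_cube q b) (A.cube_sub hq hb)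
    (contDiff_ext χ hb hq) (h0 q hq) (ContDiffOn.sum fun i _ =>
      (contDiffOn_pd (hT q) (contDiffOn_loc (χ.smooth p) q) i).mul (hg q i))).symm.trans
    (integral_eq_zero_of_ae (Filter.Eventually.of_forall fun z => ?_))
  by_cases h : z ∈ (chartAt (ι → ℝ) q).target
  · simp only [← Finset.mul_sum, Pi.zero_apply]
    rw [Finset.sum_comm]
    simp only [← Finset.sum_mul, sum_pd_loc χ h, zero_mul, Finset.sum_const_zero, mul_zero]
  · simp only [ext, if_neg h, zero_mul, Finset.sum_const_zero, Pi.zero_apply]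

end Pool.Agent.Work.MP_bf98aa_gt.Mf
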