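import Pool.Agent.Work.MP_bf98aa_gt.Mf.ChartA

/-!
Fields given by compactly supported coefficients in one chart.

PLAN. coef1_unc1, coef_unc2: unfold, the condition symm y ∈ source c is y ∈ dom p c; ContinuousLinearMap.sum_apply, smul_apply,
smulRight_apply, cdif_cvec, PathB_entry. far: the set of y in the target of p with symm y outside the compact (hence closed, M is T2) set
symm c '' K is open (isOpen_far); a point of the target lies in dom p c or in this set, and on this set the coefficients vanish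
(if y ∈ dom p c then tr p c y ∉ K, symm_tr). smooth_unc1, smooth_unc2: ContDiffAt at each point, by ContDiffAt.congr_of_eventuallyEq
with the explicit formula (contDiffAt_tr, contDiffOn_jacM) or with zero. coh_unc2: the primitive is unc1 c b; on dom p c use
pd_congr and dM_pull, on the far set both sides vanish (dM b vanishes outside the closed set K, pd_congr, pd_const).
-/

set_option autoImplicit false
set_option linter.unusedSectionVars false

open MeasureTheory Metric Matrix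
open scoped Manifold ContDiff

namespace Pool.Agent.Work.MP_bf98aa_gt.Mf

variable {ι : Type} [Fintype ι] [DecidableEq ι] {M : Type} [TopologicalSpace M]
  [ChartedSpace (ι → ℝ) M] [IsManifold 𝓘(ℝ, ι → ℝ) ∞ M]

open Classical in
lemma coef1_unc1 (c : M) (b : (ι → ℝ) → ι → ℝ) {p : M} {y : ι → ℝ}
    (hy : y ∈ (chartAt (ι → ℝ) p).target) : coef1 (unc1 c b) p y
      = if y ∈ dom ι p c then (jac p c y)ᵀ *ᵥ b (tr p c y) else 0 := by
  funext i
  unfold coef1 unc1
  by_cases h : y ∈ dom ι p c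
  · rw [if_pos (show (chartAt (ι → ℝ) p).symm y ∈ _ from h.2), if_pos h]
    simp only [_root_.sum_apply, _root_.smul_apply, cdif_cvec h,
      smul_eq_mul, mulVec, dotProduct, transpose_apply]
    exact Finset.sum_congr rfl fun j _ => mul_comm _ _
  · rw [if_neg (show (chartAt (ι → ℝ) p).symm y ∉ _ from fun k => h ⟨hy, k⟩), if_neg h]
    rfl

open Classical in
lemma coef_unc2 (c : M) (K : (ι → ℝ) → Matrix ι ι ℝ) {p : M} {y : ι → ℝ}
    (hy : y ∈ (chartAt (ι → ℝ) p).target) : coef (unc2 c K) p y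
      = if y ∈ dom ι p c then (jac p c y)ᵀ * K (tr p c y) * jac p c y else 0 := by
  ext i j
  unfold coef unc2
  by_cases h : y ∈ dom ι p c
  · rw [if_pos (show (chartAt (ι → ℝ) p).symm y ∈ _ from h.2), if_pos h, PathB_entry,
      Fintype.sum_prod_type]
    simp only [of_apply, _root_.sum_apply, _root_.smul_apply,
      ContinuousLinearMap.smulRight_apply, cdif_cvec h, smul_eq_mul]
    exact Finset.sum_congr rfl fun a _ => Finset.sum_congr rfl fun b _ => mul_comm _ _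
  · rw [if_neg (show (chartAt (ι → ℝ) p).symm y ∉ _ from fun k => h ⟨hy, k⟩), if_neg h]
    rfl

lemma Unc_cases {c p : M} {K : Set (ι → ℝ)} (hs : K ⊆ (chartAt (ι → ℝ) c).target) {y : ι → ℝ}
    (hy : y ∈ (chartAt (ι → ℝ) p).target) : y ∈ dom ι p c ∨ y ∈ (chartAt (ι → ℝ) p).target ∩
      (chartAt (ι → ℝ) p).symm ⁻¹' ((chartAt (ι → ℝ) c).symm '' K)ᶜ := by
  refine or_iff_not_imp_left.2 fun h => ⟨hy, ?_⟩
  rintro ⟨k, h1, h2⟩
  exact h ⟨hy, Set.mem_preimage.2 (h2 ▸ (chartAt (ι → ℝ) c).map_target (hs h1))⟩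

lemma Unc_zero1 {c p : M} {K : Set (ι → ℝ)} {b : (ι → ℝ) → ι → ℝ} (h0 : ∀ y, y ∉ K → b y = 0)
    {y : ι → ℝ} (hy : y ∈ (chartAt (ι → ℝ) p).target ∩
      (chartAt (ι → ℝ) p).symm ⁻¹' ((chartAt (ι → ℝ) c).symm '' K)ᶜ) :
    coef1 (unc1 c b) p y = 0 := by
  rw [coef1_unc1 c b hy.1]
  split_ifs with h
  · rw [h0 _ fun k => hy.2 ⟨_, k, symm_tr h⟩, mulVec_zero]
  · rfl

lemma Unc_zero2 {c p : M} {K : Set (ι → ℝ)} {B : (ι → ℝ) → Matrix ι ι ℝ}
    (h0 : ∀ y, y ∉ K → B y = 0) {y : ι → ℝ} (hy : y ∈ (chartAt (ι → ℝ) p).target ∩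
      (chartAt (ι → ℝ) p).symm ⁻¹' ((chartAt (ι → ℝ) c).symm '' K)ᶜ) :
    coef (unc2 c B) p y = 0 := by
  rw [coef_unc2 c B hy.1]
  split_ifs with h
  · rw [h0 _ fun k => hy.2 ⟨_, k, symm_tr h⟩, Matrix.mul_zero, Matrix.zero_mul]
  · rfl

lemma Unc_jac {p c : M} {y : ι → ℝ} (h : y ∈ dom ι p c) (i j : ι) :
    ContDiffAt ℝ ∞ (fun z => jac p c z i j) y :=
  (contDiffOn_jacM (isOpen_dom p c) (contDiffOn_tr p c) i j).contDiffAt
    ((isOpen_dom p c).mem_nhds h)

lemma Unc_near {p c : M} (b : (ι → ℝ) → ι → ℝ) {y : ι → ℝ} (h : y ∈ dom ι p c) (i : ι) :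
    (fun z => coef1 (unc1 c b) p z i) =ᶠ[nhds y]
      fun z => ((jacM (tr p c) z)ᵀ *ᵥ b (tr p c z)) i := by
  filter_upwards [(isOpen_dom p c).mem_nhds h] with z hz
  rw [coef1_unc1 c b hz.1, if_pos hz, jac]

variable [T2Space M]

lemma isOpen_far {c : M} {K : Set (ι → ℝ)} (hK : IsCompact K)
    (hs : K ⊆ (chartAt (ι → ℝ) c).target) (p : M) :
    IsOpen ((chartAt (ι → ℝ) p).target ∩
      (chartAt (ι → ℝ) p).symm ⁻¹' ((chartAt (ι → ℝ) c).symm '' K)ᶜ) := by
  exact (chartAt (ι → ℝ) p).continuousOn_symm.isOpen_inter_preimage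
    (chartAt (ι → ℝ) p).open_target (hK.image_of_continuousOn
      ((chartAt (ι → ℝ) c).continuousOn_symm.mono hs)).isClosed.isOpen_compl

lemma smooth_unc1 {c : M} {K : Set (ι → ℝ)} (hK : IsCompact K)
    (hs : K ⊆ (chartAt (ι → ℝ) c).target) {b : (ι → ℝ) → ι → ℝ}
    (hb : ∀ i, ContDiff ℝ ∞ fun y => b y i) (h0 : ∀ y, y ∉ K → b y = 0) (p : M) (i : ι) :
    ContDiffOn ℝ ∞ (fun y => coef1 (unc1 c b) p y i) (chartAt (ι → ℝ) p).target := by
  intro y hy
  refine ContDiffAt.contDiffWithinAt ?_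
  rcases Unc_cases hs hy with h | h
  · refine ContDiffAt.congr_of_eventuallyEq ?_ (Unc_near b h i)
    exact ContDiffAt.sum fun j _ =>
      (Unc_jac h j i).mul ((hb j).contDiffAt.comp y (contDiffAt_tr h))
  · refine (contDiffAt_const (c := 0)).congr_of_eventuallyEq ?_
    filter_upwards [(isOpen_far hK hs p).mem_nhds h] with z hz
    rw [Unc_zero1 h0 hz, Pi.zero_apply]

lemma smooth_unc2 {c : M} {K : Set (ι → ℝ)} (hK : IsCompact K)
    (hs : K ⊆ (chartAt (ι → ℝ) c).target) {B : ℝ → (ι → ℝ) → Matrix ι ι ℝ}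
    (hB : ∀ i j, ContDiff ℝ ∞ fun z : ℝ × (ι → ℝ) => B z.1 z.2 i j)
    (h0 : ∀ s y, y ∉ K → B s y = 0) : SmoothFamily fun s => unc2 c (B s) := by
  rintro p i j z ⟨-, hz⟩
  refine ContDiffAt.contDiffWithinAt ?_
  rcases Unc_cases hs hz with h | h
  · have h1 : ContDiffAt ℝ ∞ (fun z : ℝ × (ι → ℝ) => ∑ q : ι × ι,
        jac p c z.2 q.1 i * jac p c z.2 q.2 j * B z.1 (tr p c z.2) q.1 q.2) z :=
      ContDiffAt.sum fun q _ => (((Unc_jac h q.1 i).comp z contDiffAt_snd).mul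
        ((Unc_jac h q.2 j).comp z contDiffAt_snd)).mul ((hB q.1 q.2).contDiffAt.comp z
          (contDiffAt_fst.prodMk ((contDiffAt_tr h).comp z contDiffAt_snd)))
    refine h1.congr_of_eventuallyEq ?_
    filter_upwards [((isOpen_dom p c).preimage continuous_snd).mem_nhds h] with x hx
    rw [coef_unc2 c _ hx.1, if_pos (show x.2 ∈ _ from hx), PathB_entry]
  · refine (contDiffAt_const (c := 0)).congr_of_eventuallyEq ?_
    filter_upwards [((isOpen_far hK hs p).preimage continuous_snd).mem_nhds h] with x hx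
    rw [Unc_zero2 (h0 x.1) hx, Matrix.zero_apply]

lemma coh_unc2 {c : M} {K : Set (ι → ℝ)} (hK : IsCompact K)
    (hs : K ⊆ (chartAt (ι → ℝ) c).target) {b : (ι → ℝ) → ι → ℝ}
    (hb : ∀ i, ContDiff ℝ ∞ fun y => b y i) (h0 : ∀ y, y ∉ K → b y = 0) :
    Cohomologous (unc2 c (dM b)) 0 := by
  refine ⟨unc1 c b, smooth_unc1 hK hs hb h0, fun p y hy i j => ?_⟩
  rw [coef_zero, Matrix.zero_apply, sub_zero]
  rcases Unc_cases hs hy with h | h
  · rw [pd_congr (Unc_near b h j), pd_congr (Unc_near b h i), coef_unc2 c _ hy, if_pos h, jac,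
      ← dM_pull (contDiffAt_tr h) fun i => (hb i).differentiable (by simp) _]
    rfl
  · have h1 : ∀ l, (fun z => coef1 (unc1 c b) p z l) =ᶠ[nhds y] fun _ => 0 := fun l => by
      filter_upwards [(isOpen_far hK hs p).mem_nhds h] with z hz
      rw [Unc_zero1 h0 hz, Pi.zero_apply]
    have h2 : ∀ z, z ∉ K → dM b z = 0 := fun z hz => by
      have h3 : ∀ l, (fun x => b x l) =ᶠ[nhds z] fun _ => 0 := fun l => by
        filter_upwards [hK.isClosed.isOpen_compl.mem_nhds hz] with x hx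
        rw [h0 x hx, Pi.zero_apply]
      ext k l
      rw [dM, of_apply, pd_congr (h3 l), pd_congr (h3 k), pd_const, pd_const, sub_zero,
        Matrix.zero_apply]
    rw [Unc_zero2 h2 h, pd_congr (h1 j), pd_congr (h1 i), pd_const, pd_const, sub_zero,
      Matrix.zero_apply]

end Pool.Agent.Work.MP_bf98aa_gt.Mf
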